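import Pool.Agent.Helper83.EIN.Total

/-!
# Project EIN (MP_06d934_gt): metrics and the reduced system
-/

set_option autoImplicit false

namespace Pool.Agent.Helper83.EIN

open Finset

section general

variable {s : ℕ}

/-- The Einstein equations with constant `1/2`, for relative block sizes `ν`. -/
def NormEin (ν : Fin s → ℝ) (x : Fin s → Fin s → ℝ) : Prop :=
  ∀ i j, i ≠ j → x i j = 1 - ∑ k with k ≠ i ∧ k ≠ j, ν k * cs (x i k) (x j k) (x i j)

theorem ric_eq (n : Fin s → ℕ) {x : Fin s → Fin s → ℝ} (hx : IsMetric x) {i j : Fin s}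
    (hij : i ≠ j) :
    ric n x i j = 1 / (2 * x i j) *
      (1 - ∑ k with k ≠ i ∧ k ≠ j, (n k / ∑ l, (n l : ℝ)) * cs (x i k) (x j k) (x i j)) := by
  unfold ric
  generalize hN' : (∑ l, (n l : ℝ)) = N
  have h1 := (hx.pos i j hij).ne'
  have e : ∑ k with k ≠ i ∧ k ≠ j, (n k : ℝ) / (4 * N) *
      (x i j / (x i k * x j k) - x i k / (x i j * x j k) - x j k / (x i j * x i k)) =
      -(1 / (2 * x i j) * ∑ k with k ≠ i ∧ k ≠ j, (n k / N) * cs (x i k) (x j k) (x i j)) := by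
    rw [mul_sum, ← sum_neg_distrib]
    refine sum_congr rfl fun k hk ↦ ?_
    rw [mem_filter] at hk
    have h2 := (hx.pos i k hk.2.1.symm).ne'
    have h3 := (hx.pos j k hk.2.2.symm).ne'
    unfold cs
    by_cases hN : N = 0
    · rw [hN]
      simp
    · field_simp
      ring
  rw [e]
  ring

theorem half_iff {x S : ℝ} (hx : x ≠ 0) : 1 / (2 * x) * S = 1 / 2 ↔ x = S := by
  constructor
  · intro h
    field_simp at h
    exact h.symm
  · rintro rfl
    field_simp

theorem ein_iff (n : Fin s → ℕ) {x : Fin s → Fin s → ℝ} (hx : IsMetric x) :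
    IsEinstein n (1 / 2) x ↔ NormEin (fun k ↦ (n k : ℝ) / ∑ l, (n l : ℝ)) x := by
  unfold IsEinstein NormEin
  refine forall_congr' fun i ↦ forall_congr' fun j ↦ forall_congr' fun hij ↦ ?_
  rw [ric_eq n hx hij]
  exact half_iff (hx.pos i j hij).ne'

theorem IsMetric.smul {x : Fin s → Fin s → ℝ} (hx : IsMetric x) {r : ℝ} (hr : 0 < r) :
    IsMetric (r • x) where
  symm i j := by simp [hx.symm i j]
  diag i := by simp [hx.diag i]
  pos i j hij := by
    simp only [Pi.smul_apply, smul_eq_mul]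
    exact mul_pos hr (hx.pos i j hij)

theorem ric_smul (n : Fin s → ℕ) {x : Fin s → Fin s → ℝ} (hx : IsMetric x) {r : ℝ} (hr : 0 < r)
    {i j : Fin s} (hij : i ≠ j) : ric n (r • x) i j = r⁻¹ * ric n x i j := by
  unfold ric
  simp only [Pi.smul_apply, smul_eq_mul]
  generalize hN' : (∑ l, (n l : ℝ)) = N
  have h1 := (hx.pos i j hij).ne'
  rw [mul_add]
  congr 1
  · field_simp
  · rw [mul_sum]
    refine sum_congr rfl fun k hk ↦ ?_
    rw [mem_filter] at hk
    have h2 := (hx.pos i k hk.2.1.symm).ne'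
    have h3 := (hx.pos j k hk.2.2.symm).ne'
    by_cases hN : N = 0
    · rw [hN]
      simp
    · field_simp

/-- The Einstein constant is positive (if there are at least two blocks). -/
theorem const_pos (n : Fin s → ℕ) (hn : ∀ i, 0 < n i) {x : Fin s → Fin s → ℝ} (hx : IsMetric x)
    {i₀ j₀ : Fin s} (h₀ : i₀ ≠ j₀) {c : ℝ} (h : IsEinstein n c x) : 0 < c := by
  obtain ⟨p, hp, hmax⟩ := exists_max_image ((univ : Finset (Fin s × Fin s)).filter
    fun p ↦ p.1 ≠ p.2) (fun p ↦ x p.1 p.2) ⟨(i₀, j₀), by simp [h₀]⟩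
  obtain ⟨i, j⟩ := p
  simp only [mem_filter, mem_univ, true_and] at hp hmax
  have hN : 0 < ∑ l, (n l : ℝ) := sum_pos (fun l _ ↦ by exact_mod_cast hn l) ⟨i, mem_univ i⟩
  rw [← h i j hp, ric_eq n hx hp]
  have hij := hx.pos i j hp
  apply mul_pos (by positivity)
  have h1 : ∑ k with k ≠ i ∧ k ≠ j, (n k / ∑ l, (n l : ℝ)) * cs (x i k) (x j k) (x i j) ≤
      ∑ k with k ≠ i ∧ k ≠ j, (n k / ∑ l, (n l : ℝ)) * (1 / 2) := by
    refine sum_le_sum fun k hk ↦ ?_
    rw [mem_filter] at hk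
    have h2 := hx.pos i k hk.2.1.symm
    have h3 := hx.pos j k hk.2.2.symm
    have h4 := hmax (i, k) hk.2.1.symm
    have h5 := hmax (j, k) hk.2.2.symm
    simp only at h4 h5
    refine mul_le_mul_of_nonneg_left ?_ (by positivity)
    unfold cs
    rw [div_le_iff₀ (by positivity)]
    rcases le_total (x i k) (x j k) with h6 | h6
    · nlinarith
    · nlinarith
  have h2 : ∑ k with k ≠ i ∧ k ≠ j, (n k / ∑ l, (n l : ℝ)) * (1 / 2) ≤
      ∑ k, (n k / ∑ l, (n l : ℝ)) * (1 / 2) :=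
    sum_le_sum_of_subset_of_nonneg (filter_subset _ _) fun k _ _ ↦ by positivity
  have h3 : ∑ k, (n k / ∑ l, (n l : ℝ)) * (1 / 2) = 1 / 2 := by
    rw [← sum_mul, ← sum_div, div_self hN.ne', one_mul]
  linarith

theorem scale_half (n : Fin s → ℕ) {x : Fin s → Fin s → ℝ} (hx : IsMetric x) {c : ℝ} (hc : 0 < c)
    (h : IsEinstein n c x) : IsEinstein n (1 / 2) ((2 * c) • x) := by
  intro i j hij
  rw [ric_smul n hx (by linarith) hij, h i j hij]
  field_simp

end general

/-- The vector of the six coefficients. -/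
def vec (x : Fin 4 → Fin 4 → ℝ) : Fin 6 → ℝ := ![x 0 1, x 0 2, x 1 2, x 0 3, x 1 3, x 2 3]

/-- The matrix of the coefficients. -/
def mat (v : Fin 6 → ℝ) : Fin 4 → Fin 4 → ℝ :=
  ![![0, v 0, v 1, v 3], ![v 0, 0, v 2, v 4], ![v 1, v 2, 0, v 5], ![v 3, v 4, v 5, 0]]

theorem vec_mat (v : Fin 6 → ℝ) : vec (mat v) = v := by
  funext i
  fin_cases i <;> rfl

theorem mat_vec {x : Fin 4 → Fin 4 → ℝ} (hx : IsMetric x) : mat (vec x) = x := by
  funext i j
  fin_cases i <;> fin_cases j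
  all_goals first
    | exact (hx.diag _).symm
    | rfl
    | exact hx.symm _ _

theorem isMetric_mat {v : Fin 6 → ℝ} (hv : ∀ i, 0 < v i) : IsMetric (mat v) where
  symm i j := by
    fin_cases i <;> fin_cases j <;> rfl
  diag i := by
    fin_cases i <;> rfl
  pos i j hij := by
    fin_cases i <;> fin_cases j
    all_goals first
      | exact absurd rfl hij
      | exact hv _

theorem normEin_iff {a b c t : ℝ} {x : Fin 4 → Fin 4 → ℝ} (hx : IsMetric x) :
    NormEin ![t * a, t * b, t * c, 1 - t] x ↔ Sol a b c t (vec x) := by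
  have hf : ∀ (i j : Fin 4) (f : Fin 4 → ℝ), ∑ k with k ≠ i ∧ k ≠ j, f k =
      (if 0 ≠ i ∧ 0 ≠ j then f 0 else 0) + (if 1 ≠ i ∧ 1 ≠ j then f 1 else 0) +
      (if 2 ≠ i ∧ 2 ≠ j then f 2 else 0) + (if 3 ≠ i ∧ 3 ≠ j then f 3 else 0) := by
    intro i j f
    rw [sum_filter, Fin.sum_univ_four]
  have s := hx.symm
  constructor
  · intro h
    have h01 := h 0 1 (by decide)
    have h02 := h 0 2 (by decide)
    have h12 := h 1 2 (by decide)
    have h03 := h 0 3 (by decide)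
    have h13 := h 1 3 (by decide)
    have h23 := h 2 3 (by decide)
    rw [hf] at h01 h02 h12 h03 h13 h23
    simp at h01 h02 h12 h03 h13 h23
    rw [s 1 0] at h12 h13
    rw [s 2 0] at h12 h23
    rw [s 2 1] at h02 h23
    rw [s 3 0] at h13 h23
    rw [s 3 1] at h03 h23
    rw [s 3 2] at h03 h13
    refine ⟨?_, ?_, ?_, ?_, ?_, ?_, ?_⟩
    · intro i
      fin_cases i
      · exact hx.pos 0 1 (by decide)
      · exact hx.pos 0 2 (by decide)
      · exact hx.pos 1 2 (by decide)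
      · exact hx.pos 0 3 (by decide)
      · exact hx.pos 1 3 (by decide)
      · exact hx.pos 2 3 (by decide)
    · show x 0 1 = 1 - t * c * cs (x 0 2) (x 1 2) (x 0 1) - (1 - t) * cs (x 0 3) (x 1 3) (x 0 1)
      linarith
    · show x 0 2 = 1 - t * b * cs (x 0 1) (x 1 2) (x 0 2) - (1 - t) * cs (x 0 3) (x 2 3) (x 0 2)
      linarith
    · show x 1 2 = 1 - t * a * cs (x 0 1) (x 0 2) (x 1 2) - (1 - t) * cs (x 1 3) (x 2 3) (x 1 2)
      linarith
    · show x 0 3 = 1 - t * b * cs (x 0 1) (x 1 3) (x 0 3) - t * c * cs (x 0 2) (x 2 3) (x 0 3)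
      linarith
    · show x 1 3 = 1 - t * a * cs (x 0 1) (x 0 3) (x 1 3) - t * c * cs (x 1 2) (x 2 3) (x 1 3)
      linarith
    · show x 2 3 = 1 - t * a * cs (x 0 2) (x 0 3) (x 2 3) - t * b * cs (x 1 2) (x 1 3) (x 2 3)
      linarith
  · intro h
    have e0 : x 0 1 = 1 - t * c * cs (x 0 2) (x 1 2) (x 0 1) -
        (1 - t) * cs (x 0 3) (x 1 3) (x 0 1) := h.e0
    have e1 : x 0 2 = 1 - t * b * cs (x 0 1) (x 1 2) (x 0 2) -
        (1 - t) * cs (x 0 3) (x 2 3) (x 0 2) := h.e1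
    have e2 : x 1 2 = 1 - t * a * cs (x 0 1) (x 0 2) (x 1 2) -
        (1 - t) * cs (x 1 3) (x 2 3) (x 1 2) := h.e2
    have e3 : x 0 3 = 1 - t * b * cs (x 0 1) (x 1 3) (x 0 3) -
        t * c * cs (x 0 2) (x 2 3) (x 0 3) := h.e3
    have e4 : x 1 3 = 1 - t * a * cs (x 0 1) (x 0 3) (x 1 3) -
        t * c * cs (x 1 2) (x 2 3) (x 1 3) := h.e4
    have e5 : x 2 3 = 1 - t * a * cs (x 0 2) (x 0 3) (x 2 3) -
        t * b * cs (x 1 2) (x 1 3) (x 2 3) := h.e5
    have key : ∀ i j : Fin 4, i < j → x i j = 1 - ∑ k with k ≠ i ∧ k ≠ j,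
        (![t * a, t * b, t * c, 1 - t] : Fin 4 → ℝ) k * cs (x i k) (x j k) (x i j) := by
      intro i j hij
      rw [hf]
      fin_cases i <;> fin_cases j
      all_goals first
        | exact absurd hij (by decide)
        | skip
      all_goals simp
      · linarith
      · rw [s 2 1]; linarith
      · rw [s 3 1, s 3 2]; linarith
      · rw [s 1 0, s 2 0]; linarith
      · rw [s 1 0, s 3 0, s 3 2]; linarith
      · rw [s 2 0, s 3 0, s 2 1, s 3 1]; linarith
    intro i j hij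
    rcases lt_or_gt_of_ne hij with hlt | hlt
    · exact key i j hlt
    · rw [s i j]
      refine (key j i hlt).trans ?_
      congr 1
      refine sum_congr ?_ fun k _ ↦ ?_
      · ext k
        simp [and_comm]
      · rw [cs_comm]

end Pool.Agent.Helper83.EIN
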