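import Pool.Agent.Helper83.EIN.Asm

/-!
# Project EIN (MP_06d934_gt): the count of the reduced system
-/

set_option autoImplicit false

namespace Pool.Agent.Helper83.EIN

open Finset Topology Filter

/-- Twenty solutions if `t` is small. -/
theorem total (hTI : TI) {a b c : ℝ} (ha : 0 < a) (hb : 0 < b) (hc : 0 < c)
    (habc : a + b + c = 1) :
    ∃ ε > 0, ∀ t, 0 < t → t < ε → {v : Fin 6 → ℝ | Sol a b c t v}.ncard = 20 := by
  obtain ⟨ε1, hε1, N1⟩ := gA hTI ha hb hc habc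
  obtain ⟨ε2, hε2, N2⟩ := gB hTI ha hb hc habc
  obtain ⟨ε3, hε3, N3⟩ := gB hTI ha hc hb (by linarith)
  obtain ⟨ε4, hε4, N4⟩ := gB hTI hb hc ha (by linarith)
  obtain ⟨ε5, hε5, N5⟩ := gO hTI ha hb hc habc
  refine ⟨min (min (min ε1 ε2) (min ε3 ε4)) (min ε5 (1 / 20)), by positivity, fun t ht htε ↦ ?_⟩
  have t1 : t < ε1 := htε.trans_le
    ((min_le_left _ _).trans ((min_le_left _ _).trans (min_le_left _ _)))
  have t2 : t < ε2 := htε.trans_le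
    ((min_le_left _ _).trans ((min_le_left _ _).trans (min_le_right _ _)))
  have t3 : t < ε3 := htε.trans_le
    ((min_le_left _ _).trans ((min_le_right _ _).trans (min_le_left _ _)))
  have t4 : t < ε4 := htε.trans_le
    ((min_le_left _ _).trans ((min_le_right _ _).trans (min_le_right _ _)))
  have t5 : t < ε5 := htε.trans_le ((min_le_right _ _).trans (min_le_left _ _))
  have t6 : t < 1 / 20 := htε.trans_le ((min_le_right _ _).trans (min_le_right _ _))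
  have M1 := N1 t ht t1
  have M2 := N2 t ht t2
  have M5 := N5 t ht t5
  have M3 : {v : Fin 6 → ℝ | Sol a b c t v ∧ v 1 < 1 ∧ 1 ≤ v 0 ∧ 1 ≤ v 2}.ncard = 3 := by
    rw [ncard_s23]
    exact N3 t ht t3
  have M4 : {v : Fin 6 → ℝ | Sol a b c t v ∧ v 2 < 1 ∧ 1 ≤ v 0 ∧ 1 ≤ v 1}.ncard = 3 := by
    rw [ncard_s12, ncard_s23]
    exact N4 t ht t4
  have hsplit : {v : Fin 6 → ℝ | Sol a b c t v} =
      {v : Fin 6 → ℝ | Sol a b c t v ∧ 1 ≤ v 0 ∧ 1 ≤ v 1 ∧ 1 ≤ v 2} ∪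
      ({v : Fin 6 → ℝ | Sol a b c t v ∧ v 0 < 1 ∧ 1 ≤ v 1 ∧ 1 ≤ v 2} ∪
      ({v : Fin 6 → ℝ | Sol a b c t v ∧ v 1 < 1 ∧ 1 ≤ v 0 ∧ 1 ≤ v 2} ∪
      ({v : Fin 6 → ℝ | Sol a b c t v ∧ v 2 < 1 ∧ 1 ≤ v 0 ∧ 1 ≤ v 1} ∪
      {v : Fin 6 → ℝ | Sol a b c t v ∧ v 0 < 1 ∧ v 1 < 1 ∧ v 2 < 1}))) := by
    ext v
    constructor
    · intro h
      have h' : Sol a b c t v := h
      have B := bd hTI ha hb hc habc ht (by linarith) h'
      obtain ⟨s1, s2, s3⟩ := B.t1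
      have q0 := sm0 hTI ha hb hc habc ht (by linarith) h'
      have q1 := sm1 hTI ha hb hc habc ht (by linarith) h'
      have q2 := sm2 hTI ha hb hc habc ht (by linarith) h'
      rcases lt_or_ge (v 0) 1 with h0 | h0 <;> rcases lt_or_ge (v 1) 1 with h1 | h1 <;>
        rcases lt_or_ge (v 2) 1 with h2 | h2
      · exact Or.inr (Or.inr (Or.inr (Or.inr ⟨h, h0, h1, h2⟩)))
      · exfalso
        linarith [q0 h0, q1 h1]
      · exfalso
        linarith [q0 h0, q2 h2]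
      · exact Or.inr (Or.inl ⟨h, h0, h1, h2⟩)
      · exfalso
        linarith [q1 h1, q2 h2]
      · exact Or.inr (Or.inr (Or.inl ⟨h, h1, h0, h2⟩))
      · exact Or.inr (Or.inr (Or.inr (Or.inl ⟨h, h2, h0, h1⟩)))
      · exact Or.inl ⟨h, h0, h1, h2⟩
    · rintro (⟨h, -⟩ | ⟨h, -⟩ | ⟨h, -⟩ | ⟨h, -⟩ | ⟨h, -⟩) <;> exact h
  have F1 := fin_of M1 (by norm_num)
  have F2 := fin_of M2 (by norm_num)
  have F3 := fin_of M3 (by norm_num)
  have F4 := fin_of M4 (by norm_num)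
  have F5 := fin_of M5 (by norm_num)
  rw [hsplit, Set.ncard_union_eq _ F1 (F2.union (F3.union (F4.union F5))),
    Set.ncard_union_eq _ F2 (F3.union (F4.union F5)), Set.ncard_union_eq _ F3 (F4.union F5),
    Set.ncard_union_eq _ F4 F5, M1, M2, M3, M4, M5]
  · rw [Set.disjoint_left]
    rintro v ⟨-, h1, h2, h3⟩ ⟨-, k1, k2, k3⟩
    linarith
  · rw [Set.disjoint_left]
    rintro v ⟨-, h1, h2, h3⟩ (⟨-, k1, k2, k3⟩ | ⟨-, k1, k2, k3⟩) <;> linarith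
  · rw [Set.disjoint_left]
    rintro v ⟨-, h1, h2, h3⟩ (⟨-, k1, k2, k3⟩ | ⟨-, k1, k2, k3⟩ | ⟨-, k1, k2, k3⟩) <;> linarith
  · rw [Set.disjoint_left]
    rintro v ⟨-, h1, h2, h3⟩ (⟨-, k1, k2, k3⟩ | ⟨-, k1, k2, k3⟩ | ⟨-, k1, k2, k3⟩ |
      ⟨-, k1, k2, k3⟩) <;> linarith

end Pool.Agent.Helper83.EIN
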