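import Pool.Agent.Helper83.EIN.RegK4

/-!
# Project EIN (MP_06d934_gt): symmetries, the covering of the solutions and the count of the reduced system
-/

set_option autoImplicit false

namespace Pool.Agent.Helper83.EIN

open Finset Topology Filter

/-- The exchange of the blocks 1 and 2. -/
def s12 (v : Fin 6 → ℝ) : Fin 6 → ℝ := ![v 0, v 2, v 1, v 4, v 3, v 5]

/-- The exchange of the blocks 2 and 3. -/
def s23 (v : Fin 6 → ℝ) : Fin 6 → ℝ := ![v 1, v 0, v 2, v 3, v 5, v 4]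

theorem s12_s12 (v : Fin 6 → ℝ) : s12 (s12 v) = v := by
  funext i
  fin_cases i <;> simp [s12]

theorem s23_s23 (v : Fin 6 → ℝ) : s23 (s23 v) = v := by
  funext i
  fin_cases i <;> simp [s23]

theorem cs_comm (x y z : ℝ) : cs x y z = cs y x z := by
  unfold cs
  congr 1
  · ring
  · ring

theorem sol_s12 {a b c t : ℝ} {v : Fin 6 → ℝ} (h : Sol a b c t v) : Sol b a c t (s12 v) := by
  have p := h.pos
  refine ⟨?_, ?_, ?_, ?_, ?_, ?_, ?_⟩
  · intro i
    fin_cases i
    · exact p 0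
    · exact p 2
    · exact p 1
    · exact p 4
    · exact p 3
    · exact p 5
  · show v 0 = 1 - t * c * cs (v 2) (v 1) (v 0) - (1 - t) * cs (v 4) (v 3) (v 0)
    rw [cs_comm (v 2), cs_comm (v 4)]
    exact h.e0
  · exact h.e2
  · exact h.e1
  · exact h.e4
  · exact h.e3
  · show v 5 = 1 - t * b * cs (v 2) (v 4) (v 5) - t * a * cs (v 1) (v 3) (v 5)
    have := h.e5
    linarith

theorem sol_s23 {a b c t : ℝ} {v : Fin 6 → ℝ} (h : Sol a b c t v) : Sol a c b t (s23 v) := by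
  have p := h.pos
  refine ⟨?_, ?_, ?_, ?_, ?_, ?_, ?_⟩
  · intro i
    fin_cases i
    · exact p 1
    · exact p 0
    · exact p 2
    · exact p 3
    · exact p 5
    · exact p 4
  · exact h.e1
  · exact h.e0
  · show v 2 = 1 - t * a * cs (v 1) (v 0) (v 2) - (1 - t) * cs (v 5) (v 4) (v 2)
    rw [cs_comm (v 1), cs_comm (v 5)]
    exact h.e2
  · show v 3 = 1 - t * c * cs (v 1) (v 5) (v 3) - t * b * cs (v 0) (v 4) (v 3)
    have := h.e3
    linarith
  · exact h.e5
  · exact h.e4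

theorem ncard_s12 (a b c t : ℝ) (P : (Fin 6 → ℝ) → Prop) :
    {v | Sol a b c t v ∧ P v}.ncard = {v | Sol b a c t v ∧ P (s12 v)}.ncard := by
  have : {v | Sol a b c t v ∧ P v} = s12 '' {v | Sol b a c t v ∧ P (s12 v)} := by
    ext v
    constructor
    · rintro ⟨h1, h2⟩
      refine ⟨s12 v, ⟨sol_s12 h1, ?_⟩, s12_s12 v⟩
      rw [s12_s12]
      exact h2
    · rintro ⟨w, ⟨h1, h2⟩, rfl⟩
      exact ⟨sol_s12 h1, h2⟩
  rw [this, Set.ncard_image_of_injective]
  exact Function.LeftInverse.injective s12_s12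

theorem ncard_s23 (a b c t : ℝ) (P : (Fin 6 → ℝ) → Prop) :
    {v | Sol a b c t v ∧ P v}.ncard = {v | Sol a c b t v ∧ P (s23 v)}.ncard := by
  have : {v | Sol a b c t v ∧ P v} = s23 '' {v | Sol a c b t v ∧ P (s23 v)} := by
    ext v
    constructor
    · rintro ⟨h1, h2⟩
      refine ⟨s23 v, ⟨sol_s23 h1, ?_⟩, s23_s23 v⟩
      rw [s23_s23]
      exact h2
    · rintro ⟨w, ⟨h1, h2⟩, rfl⟩
      exact ⟨sol_s23 h1, h2⟩
  rw [this, Set.ncard_image_of_injective]
  exact Function.LeftInverse.injective s23_s23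

section

variable (hTI : TI) {a b c t : ℝ} {v : Fin 6 → ℝ} (ha : 0 < a) (hb : 0 < b) (hc : 0 < c)
  (habc : a + b + c = 1) (ht : 0 < t) (ht4 : t ≤ 1 / 4) (h : Sol a b c t v)

include hTI ha hb hc habc ht ht4 h

theorem sm0 (h1 : v 0 < 1) : v 0 ≤ 6 * t :=
  small0 hc (by linarith) ht ht4 h (bd hTI ha hb hc habc ht (by linarith) h) h1

theorem sm1 (h1 : v 1 < 1) : v 1 ≤ 6 * t := by
  have h' := sol_s23 h
  exact small0 hb (by linarith) ht ht4 h'
    (bd hTI ha hc hb (by linarith) ht (by linarith) h') h1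

theorem sm2 (h1 : v 2 < 1) : v 2 ≤ 6 * t := by
  have h' := sol_s23 (sol_s12 h)
  exact small0 ha (by linarith) ht ht4 h'
    (bd hTI hb hc ha (by linarith) ht (by linarith) h') h1

end

/-- **The covering of the small solutions.** -/
theorem cover (hTI : TI) {a b c : ℝ} (ha : 0 < a) (hb : 0 < b) (hc : 0 < c) (habc : a + b + c = 1)
    {r : ℝ} (hr : 0 < r) :
    ∃ ε > 0, ∀ t, 0 < t → t < ε → ∀ v : Fin 6 → ℝ, Sol a b c t v → v 0 < 1 → v 1 < 1 → v 2 < 1 →
      (|v 0 / t - sc a b c * (a + b)| < r ∧ |v 1 / t - sc a b c * (a + c)| < r ∧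
        |v 2 / t - sc a b c * (b + c)| < r) ∨
      (|v 0 / t - (a + b)| < r ∧ |v 1 / t - (a + 2 * b + c)| < r ∧ |v 2 / t - (b + c)| < r) ∨
      (|v 0 / t - (a + b)| < r ∧ |v 1 / t - (a + c)| < r ∧ |v 2 / t - (2 * a + b + c)| < r) ∨
      (|v 0 / t - (a + b + 2 * c)| < r ∧ |v 1 / t - (a + c)| < r ∧ |v 2 / t - (b + c)| < r) := by
  have hab : 0 < a + b := by linarith
  set Near : (Fin 6 → ℝ) → Prop := fun u ↦
      (|u 0 - sc a b c * (a + b)| < r ∧ |u 1 - sc a b c * (a + c)| < r ∧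
        |u 2 - sc a b c * (b + c)| < r) ∨
      (|u 0 - (a + b)| < r ∧ |u 1 - (a + 2 * b + c)| < r ∧ |u 2 - (b + c)| < r) ∨
      (|u 0 - (a + b)| < r ∧ |u 1 - (a + c)| < r ∧ |u 2 - (2 * a + b + c)| < r) ∨
      (|u 0 - (a + b + 2 * c)| < r ∧ |u 1 - (a + c)| < r ∧ |u 2 - (b + c)| < r) with hNear
  have hball : ∀ x y z : ℝ, IsOpen {u : Fin 6 → ℝ | |u 0 - x| < r ∧ |u 1 - y| < r ∧
      |u 2 - z| < r} := by
    intro x y z
    have h0 : IsOpen {u : Fin 6 → ℝ | |u 0 - x| < r} :=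
      isOpen_lt (by fun_prop) continuous_const
    have h1 : IsOpen {u : Fin 6 → ℝ | |u 1 - y| < r} :=
      isOpen_lt (by fun_prop) continuous_const
    have h2 : IsOpen {u : Fin 6 → ℝ | |u 2 - z| < r} :=
      isOpen_lt (by fun_prop) continuous_const
    exact h0.inter (h1.inter h2)
  have hopen : IsOpen {u | Near u} :=
    (hball _ _ _).union ((hball _ _ _).union ((hball _ _ _).union (hball _ _ _)))
  have hK : IsCompact (Set.Icc (![a + b, a + c, b + c, -1, -1, -1] : Fin 6 → ℝ)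
      ![6, 6, 6, 1, 1, 1] \ {u | Near u}) := isCompact_Icc.diff hopen
  have hcont : Continuous fun p : ℝ × (Fin 6 → ℝ) ↦ FN a b c p.1 p.2 := (FN_cd a b c).continuous
  have hev : ∀ᶠ t in 𝓝 (0 : ℝ), ∀ u ∈ Set.Icc (![a + b, a + c, b + c, -1, -1, -1] : Fin 6 → ℝ)
      ![6, 6, 6, 1, 1, 1] \ {u | Near u}, FN a b c t u ≠ 0 := by
    refine hK.eventually_forall_of_forall_eventually fun u hu ↦ ?_
    have hne : FN a b c 0 u ≠ 0 := by
      intro h0
      obtain ⟨hu1, hu2⟩ := hu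
      apply hu2
      rw [Set.mem_Icc, Pi.le_def, Pi.le_def] at hu1
      have l0 := hu1.1 0
      simp only [Matrix.cons_val] at l0
      have f0 := congrFun h0 0
      have f1 := congrFun h0 1
      have f2 := congrFun h0 2
      simp only [FN] at f0 f1 f2
      simp only [Matrix.cons_val, zero_mul, add_zero, sub_zero, Pi.zero_apply, mul_one,
        one_mul] at f0 f1 f2
      have hE3 : E3 a b c (u 0) (u 1) (u 2) := ⟨f0, f1, f2⟩
      show Near u
      rcases three ha hb hc habc (by linarith) hE3 with ⟨q0, q1, q2⟩ | ⟨q0, q1, q2⟩ |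
        ⟨q0, q1, q2⟩ | ⟨q0, q1, q2⟩
      · left
        rw [q0, q1, q2]
        simp [hr]
      · right; left
        rw [q0, q1, q2]
        simp [hr]
      · right; right; left
        rw [q0, q1, q2]
        simp [hr]
      · right; right; right
        rw [q0, q1, q2]
        simp [hr]
    exact hcont.continuousAt.eventually_ne hne
  obtain ⟨ε, hε, hb'⟩ := Metric.eventually_nhds_iff.1 hev
  refine ⟨min ε (1 / 4), by positivity, fun t ht htε v hS v0 v1 v2 ↦ ?_⟩
  have ht4 := htε.trans_le (min_le_right ε (1 / 4))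
  have hne := hb' (y := t) (by
    rw [Real.dist_eq, sub_zero, abs_of_pos ht]
    exact htε.trans_le (min_le_left _ _))
  have B := bd hTI ha hb hc habc ht (by linarith) hS
  have m0 := sm0 hTI ha hb hc habc ht ht4.le hS v0
  have m1 := sm1 hTI ha hb hc habc ht ht4.le hS v1
  have m2 := sm2 hTI ha hb hc habc ht ht4.le hS v2
  have hsurj := psN_surj ht v
  set u : Fin 6 → ℝ := ![v 0 / t, v 1 / t, v 2 / t, (v 3 - 1) / t, (v 4 - 1) / t, (v 5 - 1) / t]
    with hu
  have hS' : Sol a b c t (psN t u) := by rw [hsurj]; exact hS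
  have hB' : Bd a b c t (psN t u) := by rw [hsurj]; exact B
  have hz := (sol_iff_FN ht hS'.pos).1 hS'
  obtain ⟨⟨x3, y3⟩, ⟨x4, y4⟩, x5, y5⟩ := heights ht hB'
  by_contra hcon
  refine hne u ⟨⟨?_, ?_⟩, hcon⟩ hz
  · intro i
    fin_cases i
    · show a + b ≤ v 0 / t
      rw [le_div_iff₀ ht]; linarith [B.l0]
    · show a + c ≤ v 1 / t
      rw [le_div_iff₀ ht]; linarith [B.l1]
    · show b + c ≤ v 2 / t
      rw [le_div_iff₀ ht]; linarith [B.l2]
    · exact x3
    · exact x4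
    · exact x5
  · intro i
    fin_cases i
    · show v 0 / t ≤ 6
      rw [div_le_iff₀ ht]; exact m0
    · show v 1 / t ≤ 6
      rw [div_le_iff₀ ht]; exact m1
    · show v 2 / t ≤ 6
      rw [div_le_iff₀ ht]; exact m2
    · exact y3
    · exact y4
    · exact y5

theorem fin_of {α : Type*} {s : Set α} {n : ℕ} (h : s.ncard = n) (hn : 0 < n) : s.Finite :=
  Set.finite_of_ncard_pos (by rw [h]; exact hn)

/-- **G_O**: ten solutions with `x₁₂, x₁₃, x₂₃` small. -/
theorem gO (hTI : TI) {a b c : ℝ} (ha : 0 < a) (hb : 0 < b) (hc : 0 < c) (habc : a + b + c = 1) :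
    ∃ ε > 0, ∀ t, 0 < t → t < ε →
      {v : Fin 6 → ℝ | Sol a b c t v ∧ v 0 < 1 ∧ v 1 < 1 ∧ v 2 < 1}.ncard = 10 := by
  have hab : 0 < a + b := by linarith
  have hac : 0 < a + c := by linarith
  have hbc : 0 < b + c := by linarith
  have hk := one_lt_sc ha hb hc
  obtain ⟨r1, hr1, H1⟩ := gK hTI ha hb hc habc
  obtain ⟨r2, hr2, H2⟩ := gK hTI hb ha hc (by linarith)
  obtain ⟨r3, hr3, H3⟩ := gK hTI ha hc hb (by linarith)
  have hkp : 0 < sc a b c - 1 := by linarith
  set k := sc a b c with hkdef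
  obtain ⟨r, hr, g1, g2, g3, g4, g5, g6, g7, g8⟩ : ∃ r > 0, r ≤ r1 ∧ r ≤ r2 ∧ r ≤ r3 ∧
      2 * r < (k - 1) * (a + b) ∧ 2 * r < (k - 1) * (a + c) ∧ 2 * r < (k - 1) * (b + c) ∧
      r < b ∧ r < c := by
    have e1 : 0 < (k - 1) * (a + b) := by positivity
    have e2 : 0 < (k - 1) * (a + c) := by positivity
    have e3 : 0 < (k - 1) * (b + c) := by positivity
    refine ⟨min (min (min r1 r2) (min r3 (b / 2))) (min (min (c / 2) ((k - 1) * (a + b) / 4))
      (min ((k - 1) * (a + c) / 4) ((k - 1) * (b + c) / 4))), by positivity, ?_, ?_, ?_, ?_, ?_,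
      ?_, ?_, ?_⟩
    · exact (min_le_left _ _).trans ((min_le_left _ _).trans (min_le_left _ _))
    · exact (min_le_left _ _).trans ((min_le_left _ _).trans (min_le_right _ _))
    · exact (min_le_left _ _).trans ((min_le_right _ _).trans (min_le_left _ _))
    · have := (min_le_right (min (min r1 r2) (min r3 (b / 2))) (min (min (c / 2)
        ((k - 1) * (a + b) / 4)) (min ((k - 1) * (a + c) / 4) ((k - 1) * (b + c) / 4)))).trans
        ((min_le_left _ _).trans (min_le_right _ _))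
      linarith
    · have := (min_le_right (min (min r1 r2) (min r3 (b / 2))) (min (min (c / 2)
        ((k - 1) * (a + b) / 4)) (min ((k - 1) * (a + c) / 4) ((k - 1) * (b + c) / 4)))).trans
        ((min_le_right _ _).trans (min_le_left _ _))
      linarith
    · have := (min_le_right (min (min r1 r2) (min r3 (b / 2))) (min (min (c / 2)
        ((k - 1) * (a + b) / 4)) (min ((k - 1) * (a + c) / 4) ((k - 1) * (b + c) / 4)))).trans
        ((min_le_right _ _).trans (min_le_right _ _))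
      linarith
    · have := (min_le_left (min (min r1 r2) (min r3 (b / 2))) (min (min (c / 2)
        ((k - 1) * (a + b) / 4)) (min ((k - 1) * (a + c) / 4) ((k - 1) * (b + c) / 4)))).trans
        ((min_le_right _ _).trans (min_le_right _ _))
      linarith
    · have := (min_le_right (min (min r1 r2) (min r3 (b / 2))) (min (min (c / 2)
        ((k - 1) * (a + b) / 4)) (min ((k - 1) * (a + c) / 4) ((k - 1) * (b + c) / 4)))).trans
        ((min_le_left _ _).trans (min_le_left _ _))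
      linarith
  obtain ⟨ε1, hε1, N1⟩ := H1 r hr g1
  obtain ⟨ε2, hε2, N2⟩ := H2 r hr g2
  obtain ⟨ε3, hε3, N3⟩ := H3 r hr g3
  obtain ⟨ε4, hε4, N4⟩ := gN hTI ha hb hc habc hr (by linarith : r < (k - 1) * (a + b))
    (by linarith) (by linarith)
  obtain ⟨ε5, hε5, N5⟩ := cover hTI ha hb hc habc hr
  refine ⟨min (min (min ε1 ε2) (min ε3 ε4)) (min ε5 (1 / 20)), by positivity, fun t ht htε ↦ ?_⟩
  have t1 : t < ε1 := htε.trans_le
    ((min_le_left _ _).trans ((min_le_left _ _).trans (min_le_left _ _)))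
  have t2 : t < ε2 := htε.trans_le
    ((min_le_left _ _).trans ((min_le_left _ _).trans (min_le_right _ _)))
  have t3 : t < ε3 := htε.trans_le
    ((min_le_left _ _).trans ((min_le_right _ _).trans (min_le_left _ _)))
  have t4 : t < ε4 := htε.trans_le
    ((min_le_left _ _).trans ((min_le_right _ _).trans (min_le_right _ _)))
  have t5 : t < ε5 := htε.trans_le ((min_le_right _ _).trans (min_le_left _ _))
  have t6 : t < 1 / 20 := htε.trans_le ((min_le_right _ _).trans (min_le_right _ _))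
  have M1 := N1 t ht t1
  have M4 := N4 t ht t4
  have M2 : {v : Fin 6 → ℝ | Sol a b c t v ∧ |v 0 / t - (a + b)| < r ∧ |v 1 / t - (a + c)| < r ∧
      |v 2 / t - (2 * a + b + c)| < r}.ncard = 3 := by
    rw [ncard_s12]
    rw [← N2 t ht t2]
    congr 1
    ext v
    have e1 : b + a = a + b := by ring
    have e2 : b + 2 * a + c = 2 * a + b + c := by ring
    rw [e1, e2]
    constructor
    · rintro ⟨h1, h2, h3, h4⟩
      exact ⟨h1, h2, h4, h3⟩
    · rintro ⟨h1, h2, h3, h4⟩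
      exact ⟨h1, h2, h4, h3⟩
  have M3 : {v : Fin 6 → ℝ | Sol a b c t v ∧ |v 0 / t - (a + b + 2 * c)| < r ∧
      |v 1 / t - (a + c)| < r ∧ |v 2 / t - (b + c)| < r}.ncard = 3 := by
    rw [ncard_s23]
    rw [← N3 t ht t3]
    congr 1
    ext v
    have e1 : c + b = b + c := by ring
    have e2 : a + 2 * c + b = a + b + 2 * c := by ring
    rw [e1, e2]
    constructor
    · rintro ⟨h1, h2, h3, h4⟩
      exact ⟨h1, h3, h2, h4⟩
    · rintro ⟨h1, h2, h3, h4⟩
      exact ⟨h1, h3, h2, h4⟩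
  have hsplit : {v : Fin 6 → ℝ | Sol a b c t v ∧ v 0 < 1 ∧ v 1 < 1 ∧ v 2 < 1} =
      {v : Fin 6 → ℝ | Sol a b c t v ∧ |v 0 / t - k * (a + b)| < r ∧
        |v 1 / t - k * (a + c)| < r ∧ |v 2 / t - k * (b + c)| < r} ∪
      ({v : Fin 6 → ℝ | Sol a b c t v ∧ |v 0 / t - (a + b)| < r ∧
        |v 1 / t - (a + 2 * b + c)| < r ∧ |v 2 / t - (b + c)| < r} ∪
      ({v : Fin 6 → ℝ | Sol a b c t v ∧ |v 0 / t - (a + b)| < r ∧ |v 1 / t - (a + c)| < r ∧
        |v 2 / t - (2 * a + b + c)| < r} ∪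
      {v : Fin 6 → ℝ | Sol a b c t v ∧ |v 0 / t - (a + b + 2 * c)| < r ∧
        |v 1 / t - (a + c)| < r ∧ |v 2 / t - (b + c)| < r})) := by
    have hk2 : k ≤ 2 := by
      have h1 := sc_eq ha hb hc
      rw [← hkdef] at h1
      have h2 : 2 * a * b * c ≤ (a + b) * (a + c) * (b + c) := by
        have e : (a + b) * (a + c) * (b + c) = 2 * a * b * c + (a ^ 2 * b + a ^ 2 * c + a * b ^ 2 +
          b ^ 2 * c + a * c ^ 2 + b * c ^ 2) := by ring
        rw [e]
        have : 0 < a ^ 2 * b + a ^ 2 * c + a * b ^ 2 + b ^ 2 * c + a * c ^ 2 + b * c ^ 2 := by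
          positivity
        linarith
      by_contra hcon
      have h3 := mul_lt_mul_of_pos_right (not_le.1 hcon)
        (show 0 < (a + b) * (a + c) * (b + c) by positivity)
      linarith
    have hlt : ∀ x y : ℝ, |x / t - y| < r → y ≤ 4 → x < 1 := by
      intro x y h1 h2
      rw [abs_lt] at h1
      have h3 : x / t < 5 := by linarith [h1.2]
      rw [div_lt_iff₀ ht] at h3
      linarith
    ext v
    constructor
    · rintro ⟨h1, h2, h3, h4⟩
      rcases N5 t ht t5 v h1 h2 h3 h4 with h | h | h | h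
      · exact Or.inl ⟨h1, h⟩
      · exact Or.inr (Or.inl ⟨h1, h⟩)
      · exact Or.inr (Or.inr (Or.inl ⟨h1, h⟩))
      · exact Or.inr (Or.inr (Or.inr ⟨h1, h⟩))
    · rintro (⟨h1, h2, h3, h4⟩ | ⟨h1, h2, h3, h4⟩ | ⟨h1, h2, h3, h4⟩ | ⟨h1, h2, h3, h4⟩)
      · exact ⟨h1, hlt _ _ h2 (by nlinarith), hlt _ _ h3 (by nlinarith), hlt _ _ h4 (by nlinarith)⟩
      · exact ⟨h1, hlt _ _ h2 (by linarith), hlt _ _ h3 (by linarith), hlt _ _ h4 (by linarith)⟩
      · exact ⟨h1, hlt _ _ h2 (by linarith), hlt _ _ h3 (by linarith), hlt _ _ h4 (by linarith)⟩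
      · exact ⟨h1, hlt _ _ h2 (by linarith), hlt _ _ h3 (by linarith), hlt _ _ h4 (by linarith)⟩
  have F1 := fin_of M1 (by norm_num)
  have F2 := fin_of M2 (by norm_num)
  have F3 := fin_of M3 (by norm_num)
  have F4 := fin_of M4 (by norm_num)
  rw [hsplit, Set.ncard_union_eq _ F4 (F1.union (F2.union F3)),
    Set.ncard_union_eq _ F1 (F2.union F3), Set.ncard_union_eq _ F2 F3, M1, M2, M3, M4]
  · rw [Set.disjoint_left]
    rintro v ⟨-, h1, -, -⟩ ⟨-, h2, -, -⟩
    rw [abs_lt] at h1 h2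
    linarith [h1.1, h1.2, h2.1, h2.2]
  · rw [Set.disjoint_left]
    rintro v ⟨-, h1, h1', -⟩ (⟨-, h2, h2', -⟩ | ⟨-, h2, h2', -⟩)
    · rw [abs_lt] at h1' h2'
      linarith [h1'.1, h1'.2, h2'.1, h2'.2]
    · rw [abs_lt] at h1 h2
      linarith [h1.1, h1.2, h2.1, h2.2]
  · rw [Set.disjoint_left]
    rintro v ⟨-, h1, h1', -⟩ (⟨-, h2, h2', -⟩ | ⟨-, h2, h2', -⟩ | ⟨-, h2, h2', -⟩)
    · rw [abs_lt] at h1 h2
      linarith [h1.1, h1.2, h2.1, h2.2]
    · rw [abs_lt] at h1 h2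
      linarith [h1.1, h1.2, h2.1, h2.2]
    · rw [abs_lt] at h1' h2'
      linarith [h1'.1, h1'.2, h2'.1, h2'.2]

end Pool.Agent.Helper83.EIN
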