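import Pool.Agent.Helper83.EIN.Defs
import Pool.Agent.Helper83.EIN.Count

/-!
# Project EIN (MP_06d934_gt): first consequences of the triangle inequalities
-/

set_option autoImplicit false

namespace Pool.Agent.Helper83.EIN

open Finset

theorem cs_le {x y z : ℝ} (hx : 0 < x) (hy : 0 < y) (hz : 0 < z) (h : Tri x y z) :
    cs x y z ≤ 1 := by
  unfold cs
  rw [div_le_one (by positivity)]
  obtain ⟨h1, h2, h3⟩ := h
  nlinarith [mul_nonneg (by linarith : 0 ≤ z - x + y) (by linarith : 0 ≤ z + x - y)]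

theorem le_cs {x y z : ℝ} (hx : 0 < x) (hy : 0 < y) (hz : 0 < z) (h : Tri x y z) :
    -1 ≤ cs x y z := by
  unfold cs
  rw [le_div_iff₀ (by positivity)]
  obtain ⟨h1, h2, h3⟩ := h
  nlinarith [mul_nonneg (by linarith : 0 ≤ x + y - z) (by linarith : 0 ≤ x + y + z)]

theorem Tri.rot {x y z : ℝ} (h : Tri x y z) : Tri y z x := by
  obtain ⟨h1, h2, h3⟩ := h
  exact ⟨by linarith, by linarith, by linarith⟩

theorem Tri.swap {x y z : ℝ} (h : Tri x y z) : Tri y x z := by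
  obtain ⟨h1, h2, h3⟩ := h
  exact ⟨by linarith, by linarith, by linarith⟩

/-- The a priori bounds. -/
structure Bd (a b c t : ℝ) (v : Fin 6 → ℝ) : Prop where
  t1 : Tri (v 0) (v 1) (v 2)
  t2 : Tri (v 0) (v 3) (v 4)
  t3 : Tri (v 1) (v 3) (v 5)
  t4 : Tri (v 2) (v 4) (v 5)
  l0 : t * (a + b) ≤ v 0
  l1 : t * (a + c) ≤ v 1
  l2 : t * (b + c) ≤ v 2
  u0 : v 0 ≤ 2
  u1 : v 1 ≤ 2
  u2 : v 2 ≤ 2
  l3 : 1 - t ≤ v 3
  l4 : 1 - t ≤ v 4
  l5 : 1 - t ≤ v 5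
  u3 : v 3 ≤ 1 + t
  u4 : v 4 ≤ 1 + t
  u5 : v 5 ≤ 1 + t

theorem bd (hTI : TI) {a b c t : ℝ} {v : Fin 6 → ℝ} (ha : 0 < a) (hb : 0 < b) (hc : 0 < c)
    (habc : a + b + c = 1) (ht : 0 < t) (ht1 : t < 1) (h : Sol a b c t v) : Bd a b c t v := by
  obtain ⟨t1, t2, t3, t4⟩ := hTI a b c t v ha hb hc habc ht ht1 h
  have p := h.pos
  have hta := mul_pos ht ha
  have htb := mul_pos ht hb
  have htc := mul_pos ht hc
  have hs : t * a + t * b + t * c = t := by rw [← mul_add, ← mul_add, habc, mul_one]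
  -- the twelve cosines
  have c0 := cs_le (p 1) (p 2) (p 0) t1.rot
  have c0' := le_cs (p 1) (p 2) (p 0) t1.rot
  have d0 := cs_le (p 3) (p 4) (p 0) t2.rot
  have d0' := le_cs (p 3) (p 4) (p 0) t2.rot
  have c1 := cs_le (p 0) (p 2) (p 1) t1.rot.rot.swap
  have c1' := le_cs (p 0) (p 2) (p 1) t1.rot.rot.swap
  have d1 := cs_le (p 3) (p 5) (p 1) t3.rot
  have d1' := le_cs (p 3) (p 5) (p 1) t3.rot
  have c2 := cs_le (p 0) (p 1) (p 2) t1
  have c2' := le_cs (p 0) (p 1) (p 2) t1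
  have d2 := cs_le (p 4) (p 5) (p 2) t4.rot
  have d2' := le_cs (p 4) (p 5) (p 2) t4.rot
  have c3 := cs_le (p 0) (p 4) (p 3) t2.rot.rot.swap
  have c3' := le_cs (p 0) (p 4) (p 3) t2.rot.rot.swap
  have d3 := cs_le (p 1) (p 5) (p 3) t3.rot.rot.swap
  have d3' := le_cs (p 1) (p 5) (p 3) t3.rot.rot.swap
  have c4 := cs_le (p 0) (p 3) (p 4) t2
  have c4' := le_cs (p 0) (p 3) (p 4) t2
  have d4 := cs_le (p 2) (p 5) (p 4) t4.rot.rot.swap
  have d4' := le_cs (p 2) (p 5) (p 4) t4.rot.rot.swap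
  have c5 := cs_le (p 1) (p 3) (p 5) t3
  have c5' := le_cs (p 1) (p 3) (p 5) t3
  have d5 := cs_le (p 2) (p 4) (p 5) t4
  have d5' := le_cs (p 2) (p 4) (p 5) t4
  have e0 := h.e0
  have e1 := h.e1
  have e2 := h.e2
  have e3 := h.e3
  have e4 := h.e4
  have e5 := h.e5
  have ht1' : 0 < 1 - t := by linarith
  refine ⟨t1, t2, t3, t4, ?_, ?_, ?_, ?_, ?_, ?_, ?_, ?_, ?_, ?_, ?_, ?_⟩
  · nlinarith
  · nlinarith
  · nlinarith
  · nlinarith
  · nlinarith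
  · nlinarith
  · nlinarith
  · nlinarith
  · nlinarith
  · nlinarith
  · nlinarith
  · nlinarith

end Pool.Agent.Helper83.EIN
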