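import Mathlib

/-!
# Project EIN (MP_06d934_gt): definitions

Invariant metrics on `SU(N)/S(U(n₀) × ⋯ × U(n_{s-1}))`, `N = ∑ n_i`. The isotropy representation is
the sum of the modules `𝔪_{ij}`, `i < j`, of real dimension `2 n_i n_j`; an invariant metric is
`∑_{i<j} x_{ij} B|𝔪_{ij}`, `x_{ij} > 0`, `B` the negative of the Killing form.
-/

set_option autoImplicit false

namespace Pool.Agent.Helper83.EIN

open Finset

section metrics

variable {s : ℕ}

/-- The coefficients `x_{ij} = x_{ji} > 0` of an invariant metric on the flag manifold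
`SU(N)/S(U(n₀) × ⋯ × U(n_{s-1}))`. -/
structure IsMetric (x : Fin s → Fin s → ℝ) : Prop where
  symm : ∀ i j, x i j = x j i
  diag : ∀ i, x i i = 0
  pos : ∀ i j, i ≠ j → 0 < x i j

/-- The Ricci component `r_{ij}`: the Ricci tensor of the metric `∑ x_{ij} B|𝔪_{ij}` is
`∑ r_{ij} x_{ij} B|𝔪_{ij}`. -/
noncomputable def ric (n : Fin s → ℕ) (x : Fin s → Fin s → ℝ) (i j : Fin s) : ℝ :=
  1 / (2 * x i j) + ∑ k with k ≠ i ∧ k ≠ j, (n k : ℝ) / (4 * ∑ l, (n l : ℝ)) *
    (x i j / (x i k * x j k) - x i k / (x i j * x j k) - x j k / (x i j * x i k))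

/-- The metric `x` is Einstein with constant `c`: `Ric = c g`. -/
def IsEinstein (n : Fin s → ℕ) (c : ℝ) (x : Fin s → Fin s → ℝ) : Prop :=
  ∀ i j, i ≠ j → ric n x i j = c

/-- The metric `x` is Kähler for an invariant complex structure: the blocks have pairwise different
heights `h_i` (the order of the heights is the complex structure) and `x_{ij} = |h_i - h_j|`. -/
def IsKaehler (x : Fin s → Fin s → ℝ) : Prop := ∃ h : Fin s → ℝ, ∀ i j, x i j = |h i - h j|

end metrics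

/-- The cosine of the angle opposite to `z` in the triangle with sides `x, y, z`. -/
noncomputable def cs (x y z : ℝ) : ℝ := (x ^ 2 + y ^ 2 - z ^ 2) / (2 * x * y)

/-- The Einstein equations (Einstein constant `1/2`) for four blocks of relative sizes
`ta, tb, tc, 1 - t`, in the unknowns `v = (x₁₂, x₁₃, x₂₃, x₁₄, x₂₄, x₃₄)`. -/
structure Sol (a b c t : ℝ) (v : Fin 6 → ℝ) : Prop where
  pos : ∀ i, 0 < v i
  e0 : v 0 = 1 - t * c * cs (v 1) (v 2) (v 0) - (1 - t) * cs (v 3) (v 4) (v 0)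
  e1 : v 1 = 1 - t * b * cs (v 0) (v 2) (v 1) - (1 - t) * cs (v 3) (v 5) (v 1)
  e2 : v 2 = 1 - t * a * cs (v 0) (v 1) (v 2) - (1 - t) * cs (v 4) (v 5) (v 2)
  e3 : v 3 = 1 - t * b * cs (v 0) (v 4) (v 3) - t * c * cs (v 1) (v 5) (v 3)
  e4 : v 4 = 1 - t * a * cs (v 0) (v 3) (v 4) - t * c * cs (v 2) (v 5) (v 4)
  e5 : v 5 = 1 - t * a * cs (v 1) (v 3) (v 5) - t * b * cs (v 2) (v 4) (v 5)

/-- The triangle inequalities. -/
def Tri (x y z : ℝ) : Prop := x ≤ y + z ∧ y ≤ x + z ∧ z ≤ x + y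

/-- The triangle inequalities for all four triangles. -/
def TI : Prop := ∀ (a b c t : ℝ) (v : Fin 6 → ℝ), 0 < a → 0 < b → 0 < c → a + b + c = 1 → 0 < t →
  t < 1 → Sol a b c t v →
    Tri (v 0) (v 1) (v 2) ∧ Tri (v 0) (v 3) (v 4) ∧ Tri (v 1) (v 3) (v 5) ∧ Tri (v 2) (v 4) (v 5)

end Pool.Agent.Helper83.EIN
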