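import Pool.Agent.Helper83.EIN.Link

/-!
# Project EIN (MP_06d934_gt): the Kähler-Einstein metrics
-/

set_option autoImplicit false

namespace Pool.Agent.Helper83.EIN

open Finset

section general

variable {s : ℕ}

/-- The heights of the Kähler-Einstein metric given by an order of the blocks. -/
noncomputable def Ht (ν : Fin s → ℝ) (σ : Equiv.Perm (Fin s)) (i : Fin s) : ℝ :=
  ν i + 2 * ∑ k with σ k < σ i, ν k

/-- The Kähler-Einstein metric given by an order of the blocks. -/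
noncomputable def KE (ν : Fin s → ℝ) (σ : Equiv.Perm (Fin s)) : Fin s → Fin s → ℝ :=
  fun i j ↦ |Ht ν σ i - Ht ν σ j|

theorem Ht_sub (ν : Fin s → ℝ) (σ : Equiv.Perm (Fin s)) {i j : Fin s} (h : σ i < σ j) :
    Ht ν σ j - Ht ν σ i = ν i + ν j + 2 * ∑ k with σ i < σ k ∧ σ k < σ j, ν k := by
  unfold Ht
  have h1 : ((univ : Finset (Fin s)).filter fun k ↦ σ k < σ j) =
      insert i (((univ : Finset (Fin s)).filter fun k ↦ σ k < σ i) ∪
        ((univ : Finset (Fin s)).filter fun k ↦ σ i < σ k ∧ σ k < σ j)) := by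
    ext k
    simp only [mem_filter, mem_univ, true_and, mem_insert, mem_union]
    constructor
    · intro hk
      rcases lt_trichotomy (σ k) (σ i) with h2 | h2 | h2
      · exact Or.inr (Or.inl h2)
      · exact Or.inl (σ.injective h2)
      · exact Or.inr (Or.inr ⟨h2, hk⟩)
    · rintro (rfl | h2 | h2)
      · exact h
      · exact h2.trans h
      · exact h2.2
  rw [h1, sum_insert, sum_union]
  · ring
  · rw [disjoint_left]
    intro k hk hk'
    rw [mem_filter] at hk hk'
    exact absurd hk.2 (not_lt.2 hk'.2.1.le)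
  · intro h2
    rw [mem_union, mem_filter, mem_filter] at h2
    rcases h2 with h2 | h2
    · exact absurd h2.2 (lt_irrefl _)
    · exact absurd h2.2.1 (lt_irrefl _)

theorem Ht_lt {ν : Fin s → ℝ} (hν : ∀ i, 0 < ν i) (σ : Equiv.Perm (Fin s)) {i j : Fin s} :
    Ht ν σ i < Ht ν σ j ↔ σ i < σ j := by
  have key : ∀ i j : Fin s, σ i < σ j → Ht ν σ i < Ht ν σ j := by
    intro i j h
    have h1 := Ht_sub ν σ h
    have h2 : 0 ≤ ∑ k with σ i < σ k ∧ σ k < σ j, ν k := sum_nonneg fun k _ ↦ (hν k).le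
    have h3 := hν i
    have h4 := hν j
    linarith
  constructor
  · intro h
    by_contra hcon
    rcases (not_lt.1 hcon).eq_or_lt with h1 | h1
    · rw [σ.injective h1] at h
      exact lt_irrefl _ h
    · exact absurd h (not_lt.2 (key _ _ h1).le)
  · exact key i j

/-- The cosines of a degenerate triangle. -/
theorem cs_line {p q r : ℝ} (h2 : p ≠ r) (h3 : q ≠ r) :
    cs |p - r| |q - r| |p - q| = if (p < r ∧ r < q) ∨ (q < r ∧ r < p) then -1 else 1 := by
  have e : cs |p - r| |q - r| |p - q| =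
      (((p - r) * (q - r)) / (|p - r| * |q - r|)) := by
    unfold cs
    rw [sq_abs, sq_abs, sq_abs]
    have h4 : |p - r| ≠ 0 := abs_ne_zero.2 (sub_ne_zero.2 h2)
    have h5 : |q - r| ≠ 0 := abs_ne_zero.2 (sub_ne_zero.2 h3)
    field_simp
    ring
  rw [e]
  have h2' := sub_ne_zero.2 h2
  have h3' := sub_ne_zero.2 h3
  rcases lt_or_gt_of_ne h2 with a1 | a1 <;> rcases lt_or_gt_of_ne h3 with a2 | a2
  · rw [abs_of_neg (by linarith), abs_of_neg (by linarith), if_neg]
    · field_simp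
    · rintro (⟨-, h⟩ | ⟨-, h⟩) <;> linarith
  · rw [abs_of_neg (by linarith), abs_of_pos (by linarith), if_pos]
    · field_simp
    · exact Or.inl ⟨a1, a2⟩
  · rw [abs_of_pos (by linarith), abs_of_neg (by linarith), if_pos]
    · field_simp
    · exact Or.inr ⟨a2, a1⟩
  · rw [abs_of_pos (by linarith), abs_of_pos (by linarith), if_neg]
    · field_simp
    · rintro (⟨h, -⟩ | ⟨h, -⟩) <;> linarith

/-- The Einstein equations for a metric on a line. -/
theorem line_ein {ν : Fin s → ℝ} (hν1 : ∑ i, ν i = 1) {h : Fin s → ℝ}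
    (hh : Function.Injective h) {i j : Fin s} (hij : i ≠ j) :
    1 - ∑ k with k ≠ i ∧ k ≠ j, ν k * cs |h i - h k| |h j - h k| |h i - h j| =
      ν i + ν j + 2 * ∑ k with (h i < h k ∧ h k < h j) ∨ (h j < h k ∧ h k < h i), ν k := by
  have h1 : ∑ k with k ≠ i ∧ k ≠ j, ν k * cs |h i - h k| |h j - h k| |h i - h j| =
      ∑ k with k ≠ i ∧ k ≠ j, (ν k - 2 * (if (h i < h k ∧ h k < h j) ∨ (h j < h k ∧ h k < h i)
        then ν k else 0)) := by
    refine sum_congr rfl fun k hk ↦ ?_
    rw [mem_filter] at hk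
    rw [cs_line (fun h' ↦ hk.2.1 (hh h').symm) (fun h' ↦ hk.2.2 (hh h').symm)]
    split_ifs <;> ring
  rw [h1, sum_sub_distrib, ← mul_sum]
  have h2 : ∑ k with k ≠ i ∧ k ≠ j, ν k = 1 - ν i - ν j := by
    rw [← hν1]
    have e : ((univ : Finset (Fin s)).filter fun k ↦ k ≠ i ∧ k ≠ j) = (univ.erase i).erase j := by
      ext k
      simp [and_comm]
    have e1 := add_sum_erase univ ν (mem_univ i)
    have e2 := add_sum_erase (univ.erase i) ν (mem_erase.2 ⟨hij.symm, mem_univ j⟩)
    rw [e]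
    linarith
  have h3 : ∑ k with k ≠ i ∧ k ≠ j, (if (h i < h k ∧ h k < h j) ∨ (h j < h k ∧ h k < h i)
      then ν k else 0) = ∑ k with (h i < h k ∧ h k < h j) ∨ (h j < h k ∧ h k < h i), ν k := by
    rw [← sum_filter, filter_filter]
    refine sum_congr ?_ fun k _ ↦ rfl
    ext k
    simp only [mem_filter, mem_univ, true_and]
    constructor
    · exact fun hk ↦ hk.2
    · intro hk
      refine ⟨⟨?_, ?_⟩, hk⟩
      · rintro rfl
        rcases hk with hk | hk
        · exact lt_irrefl _ hk.1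
        · exact lt_irrefl _ hk.2
      · rintro rfl
        rcases hk with hk | hk
        · exact lt_irrefl _ hk.2
        · exact lt_irrefl _ hk.1
  rw [h2, h3]
  ring

theorem KE_isMetric {ν : Fin s → ℝ} (hν : ∀ i, 0 < ν i) (σ : Equiv.Perm (Fin s)) :
    IsMetric (KE ν σ) where
  symm i j := abs_sub_comm _ _
  diag i := by simp [KE]
  pos i j hij := by
    unfold KE
    rw [abs_pos, sub_ne_zero]
    intro h
    rcases lt_or_gt_of_ne (fun h' ↦ hij (σ.injective h') : σ i ≠ σ j) with h1 | h1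
    · have := (Ht_lt hν σ).2 h1
      linarith
    · have := (Ht_lt hν σ).2 h1
      linarith

theorem Ht_inj {ν : Fin s → ℝ} (hν : ∀ i, 0 < ν i) (σ : Equiv.Perm (Fin s)) :
    Function.Injective (Ht ν σ) := by
  intro i j h
  by_contra hij
  have := (KE_isMetric hν σ).pos i j hij
  unfold KE at this
  rw [h, sub_self, abs_zero] at this
  exact lt_irrefl _ this

theorem KE_val {ν : Fin s → ℝ} (hν : ∀ i, 0 < ν i) (σ : Equiv.Perm (Fin s)) {i j : Fin s}
    (hij : i ≠ j) :
    KE ν σ i j = ν i + ν j + 2 * ∑ k with (σ i < σ k ∧ σ k < σ j) ∨ (σ j < σ k ∧ σ k < σ i), ν k := by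
  unfold KE
  rcases lt_or_gt_of_ne (fun h' ↦ hij (σ.injective h') : σ i ≠ σ j) with h1 | h1
  · have h2 := (Ht_lt hν σ).2 h1
    rw [abs_of_neg (by linarith), neg_sub, Ht_sub ν σ h1]
    congr 2
    refine sum_congr ?_ fun k _ ↦ rfl
    ext k
    simp only [mem_filter, mem_univ, true_and]
    constructor
    · exact Or.inl
    · rintro (h | h)
      · exact h
      · exact absurd (h.1.trans h.2) (not_lt.2 h1.le)
  · have h2 := (Ht_lt hν σ).2 h1
    rw [abs_of_pos (by linarith), Ht_sub ν σ h1, add_comm (ν j)]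
    congr 2
    refine sum_congr ?_ fun k _ ↦ rfl
    ext k
    simp only [mem_filter, mem_univ, true_and]
    constructor
    · exact Or.inr
    · rintro (h | h)
      · exact absurd (h.1.trans h.2) (not_lt.2 h1.le)
      · exact h

theorem KE_normEin {ν : Fin s → ℝ} (hν : ∀ i, 0 < ν i) (hν1 : ∑ i, ν i = 1)
    (σ : Equiv.Perm (Fin s)) : NormEin ν (KE ν σ) := by
  intro i j hij
  have h := line_ein hν1 (Ht_inj hν σ) hij
  show KE ν σ i j = 1 - ∑ k with k ≠ i ∧ k ≠ j,
    ν k * cs |Ht ν σ i - Ht ν σ k| |Ht ν σ j - Ht ν σ k| |Ht ν σ i - Ht ν σ j|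
  rw [h, KE_val hν σ hij]
  congr 2
  refine sum_congr ?_ fun k _ ↦ rfl
  ext k
  simp only [mem_filter, mem_univ, true_and, Ht_lt hν]

/-- A Kähler-Einstein metric is one of the `KE ν σ`. -/
theorem exists_perm {ν : Fin s → ℝ} (hν : ∀ i, 0 < ν i) (hν1 : ∑ i, ν i = 1)
    {x : Fin s → Fin s → ℝ} (hx : IsMetric x) (hE : NormEin ν x) (hk : IsKaehler x) :
    ∃ σ : Equiv.Perm (Fin s), x = KE ν σ := by
  obtain ⟨h, hh⟩ := hk
  have hinj : Function.Injective h := by
    intro i j hij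
    by_contra hne
    have := hx.pos i j hne
    rw [hh, hij, sub_self, abs_zero] at this
    exact lt_irrefl _ this
  have hmono : StrictMono (h ∘ Tuple.sort h) :=
    (Tuple.monotone_sort h).strictMono_of_injective (hinj.comp (Tuple.sort h).injective)
  refine ⟨(Tuple.sort h)⁻¹, ?_⟩
  have hlt : ∀ i j, (Tuple.sort h)⁻¹ i < (Tuple.sort h)⁻¹ j ↔ h i < h j := by
    intro i j
    rw [← hmono.lt_iff_lt]
    simp
  funext i j
  by_cases hij : i = j
  · subst hij
    rw [hx.diag, (KE_isMetric hν _).diag]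
  · have h1 := hE i j hij
    have h2 := line_ein hν1 hinj hij
    have h3 : x i j = 1 - ∑ k with k ≠ i ∧ k ≠ j,
        ν k * cs |h i - h k| |h j - h k| |h i - h j| := by
      rw [h1]
      congr 1
      refine sum_congr rfl fun k _ ↦ ?_
      rw [hh i k, hh j k, hh i j]
    rw [h3, h2, KE_val hν _ hij]
    congr 2
    refine sum_congr ?_ fun k _ ↦ rfl
    ext k
    simp only [mem_filter, mem_univ, true_and, hlt]

theorem KE_inj {ν : Fin s → ℝ} (hν : ∀ i, 0 < ν i) {i₀ i₁ : Fin s}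
    {σ τ : Equiv.Perm (Fin s)} (hσ : σ i₀ < σ i₁) (hτ : τ i₀ < τ i₁) (h : KE ν σ = KE ν τ) :
    σ = τ := by
  have hD : Ht ν σ i₁ - Ht ν σ i₀ = Ht ν τ i₁ - Ht ν τ i₀ := by
    have h1 := congrFun (congrFun h i₁) i₀
    unfold KE at h1
    have h2 := (Ht_lt hν σ).2 hσ
    have h3 := (Ht_lt hν τ).2 hτ
    rwa [abs_of_pos (by linarith), abs_of_pos (by linarith)] at h1
  have hDp : 0 < Ht ν σ i₁ - Ht ν σ i₀ := by
    have h2 := (Ht_lt hν σ).2 hσ
    linarith
  have key : ∀ i, Ht ν σ i - Ht ν σ i₀ = Ht ν τ i - Ht ν τ i₀ := by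
    intro i
    have h1 := congrFun (congrFun h i) i₀
    have h2 := congrFun (congrFun h i) i₁
    unfold KE at h1 h2
    have e1 : (Ht ν σ i - Ht ν σ i₀) ^ 2 = (Ht ν τ i - Ht ν τ i₀) ^ 2 := by
      rw [← sq_abs, h1, sq_abs]
    have e2 : (Ht ν σ i - Ht ν σ i₁) ^ 2 = (Ht ν τ i - Ht ν τ i₁) ^ 2 := by
      rw [← sq_abs, h2, sq_abs]
    have e3 : (2 * (Ht ν σ i₁ - Ht ν σ i₀)) *
        ((Ht ν σ i - Ht ν σ i₀) - (Ht ν τ i - Ht ν τ i₀)) = 0 := by
      have e4 : Ht ν σ i₁ = Ht ν σ i₀ + (Ht ν τ i₁ - Ht ν τ i₀) := by linarith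
      rw [e4] at e2 ⊢
      linear_combination e1 - e2
    have := (mul_eq_zero.1 e3).resolve_left (by positivity)
    linarith
  have hlt : ∀ i j, σ i < σ j ↔ τ i < τ j := by
    intro i j
    rw [← Ht_lt hν σ, ← Ht_lt hν τ]
    have h1 := key i
    have h2 := key j
    constructor <;> intro h3 <;> linarith
  -- the permutation `σ⁻¹ * τ` is an order isomorphism
  have hmono : StrictMono (fun i ↦ τ (σ⁻¹ i)) := by
    intro i j hij
    have := (hlt (σ⁻¹ i) (σ⁻¹ j)).1 (by simpa using hij)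
    exact this
  have hid : ∀ i, τ (σ⁻¹ i) = i := by
    let e : Fin s ≃o Fin s := StrictMono.orderIsoOfSurjective _ hmono
      (τ.surjective.comp (σ⁻¹).surjective)
    intro i
    have h1 : e = OrderIso.refl (Fin s) := Subsingleton.elim _ _
    have h2 : e i = i := by rw [h1]; rfl
    exact h2
  ext i
  have h1 := hid (σ i)
  simp at h1
  rw [h1]

end general

/-- **Twelve Kähler-Einstein metrics** for four blocks. -/
theorem kaehler12 {ν : Fin 4 → ℝ} (hν : ∀ i, 0 < ν i) (hν1 : ∑ i, ν i = 1) :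
    {x : Fin 4 → Fin 4 → ℝ | IsMetric x ∧ NormEin ν x ∧ IsKaehler x}.ncard = 12 := by
  have h1 : {x : Fin 4 → Fin 4 → ℝ | IsMetric x ∧ NormEin ν x ∧ IsKaehler x} =
      KE ν '' (((univ : Finset (Equiv.Perm (Fin 4))).filter fun σ ↦ σ 0 < σ 1 :
        Finset (Equiv.Perm (Fin 4))) : Set (Equiv.Perm (Fin 4))) := by
    ext x
    constructor
    · rintro ⟨hx, hE, hk⟩
      obtain ⟨σ, hσ⟩ := exists_perm hν hν1 hx hE hk
      rcases lt_or_gt_of_ne (fun h' ↦ absurd (σ.injective h') (by decide) : σ 0 ≠ σ 1) with h | h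
      · exact ⟨σ, by simp [h], hσ.symm⟩
      · refine ⟨Fin.revPerm * σ, ?_, ?_⟩
        · simp [h]
        · rw [hσ]
          funext i j
          by_cases hij : i = j
          · subst hij
            rw [(KE_isMetric hν _).diag, (KE_isMetric hν _).diag]
          · rw [KE_val hν _ hij, KE_val hν _ hij]
            congr 2
            refine sum_congr ?_ fun k _ ↦ rfl
            ext k
            simp only [mem_filter, mem_univ, true_and, Equiv.Perm.coe_mul, Function.comp_apply,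
              Fin.revPerm_apply, Fin.rev_lt_rev]
            tauto
    · rintro ⟨σ, -, rfl⟩
      exact ⟨KE_isMetric hν σ, KE_normEin hν hν1 σ, Ht ν σ, fun i j ↦ rfl⟩
  rw [h1, Set.InjOn.ncard_image, Set.ncard_coe_finset]
  · decide
  · intro σ hσ τ hτ h
    simp only [coe_filter, mem_univ, true_and, Set.mem_ofPred_eq] at hσ hτ
    exact KE_inj hν hσ hτ h

end Pool.Agent.Helper83.EIN
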