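import Pool.Agent.Helper83.EIN.Red
import Pool.Agent.Helper19.TI.Mult

/-!
# Project EIN (MP_06d934_gt): the main theorems
-/

set_option autoImplicit false

namespace Pool.Agent.Helper83.EIN

open Finset

theorem sum_pairs (f : Fin 4 → Fin 4 → ℝ) :
    ∑ p : Fin 4 × Fin 4 with p.1 < p.2, f p.1 p.2 = Pool.Agent.Helper19.TI.es f := by
  rw [sum_filter, Fintype.sum_prod_type]
  simp only [Fin.sum_univ_four]
  unfold Pool.Agent.Helper19.TI.es
  simp
  ring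

theorem bt_eq {x : Fin 4 → Fin 4 → ℝ} (hx : IsMetric x) {l i j : Fin 4} (hli : l ≠ i)
    (hlj : l ≠ j) : Pool.Agent.Helper19.TI.bt (x i j) (x l i) (x l j) =
      1 - cs (x l i) (x l j) (x i j) := by
  have h1 := (hx.pos l i hli).ne'
  have h2 := (hx.pos l j hlj).ne'
  unfold Pool.Agent.Helper19.TI.bt cs
  field_simp
  ring

theorem bk_eq (x w : Fin 4 → Fin 4 → ℝ) (hx : IsMetric x) (l : Fin 4) :
    ∑ p : Fin 4 × Fin 4 with p.1 < p.2, w p.1 p.2 * co x l p.1 p.2 =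
      Pool.Agent.Helper19.TI.bk x w l := by
  rw [sum_pairs fun i j ↦ w i j * co x l i j]
  unfold Pool.Agent.Helper19.TI.bk
  congr 1
  funext i j
  congr 1
  unfold co
  by_cases h : l = i ∨ l = j
  · rw [if_pos h, if_pos h]
  · rw [if_neg h, if_neg h]
    push Not at h
    rw [bt_eq hx h.1 h.2]

theorem mult : MULT := by
  intro x hx h
  obtain ⟨w, -, h1, h2, l, h3⟩ := Pool.Agent.Helper19.TI.exists_mult x hx.symm hx.pos h
  refine ⟨w, ?_, fun l ↦ ?_, l, ?_⟩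
  · rw [sum_pairs fun i j ↦ w i j * x i j]
    exact h1
  · rw [bk_eq x w hx]
    exact h2 l
  · rw [bk_eq x w hx]
    exact h3

theorem ti : TI := TI_of_mult mult

theorem ncard_eq {a b c t : ℝ} :
    {x : Fin 4 → Fin 4 → ℝ | IsMetric x ∧ NormEin ![t * a, t * b, t * c, 1 - t] x}.ncard =
      {v : Fin 6 → ℝ | Sol a b c t v}.ncard := by
  have h : {x : Fin 4 → Fin 4 → ℝ | IsMetric x ∧ NormEin ![t * a, t * b, t * c, 1 - t] x} =
      mat '' {v : Fin 6 → ℝ | Sol a b c t v} := by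
    ext x
    constructor
    · rintro ⟨hx, hE⟩
      exact ⟨vec x, (normEin_iff hx).1 hE, mat_vec hx⟩
    · rintro ⟨v, hv, rfl⟩
      have hv' : Sol a b c t v := hv
      have hx := isMetric_mat hv'.pos
      refine ⟨hx, (normEin_iff hx).2 ?_⟩
      rw [vec_mat]
      exact hv
  rw [h, Set.ncard_image_of_injective]
  exact Function.LeftInverse.injective vec_mat

/-- The relative sizes of four blocks. -/
theorem sizes (n : Fin 4 → ℕ) (hn : ∀ i, 0 < n i) :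
    ∃ a b c t : ℝ, 0 < a ∧ 0 < b ∧ 0 < c ∧ a + b + c = 1 ∧ 0 < t ∧ t < 1 ∧
      a = n 0 / ((n 0 : ℝ) + n 1 + n 2) ∧ b = n 1 / ((n 0 : ℝ) + n 1 + n 2) ∧
      c = n 2 / ((n 0 : ℝ) + n 1 + n 2) ∧
      t = ((n 0 : ℝ) + n 1 + n 2) / ((n 0 : ℝ) + n 1 + n 2 + n 3) ∧
      (fun k ↦ (n k : ℝ) / ∑ l, (n l : ℝ)) = ![t * a, t * b, t * c, 1 - t] := by
  have h0 : (0 : ℝ) < n 0 := by exact_mod_cast hn 0
  have h1 : (0 : ℝ) < n 1 := by exact_mod_cast hn 1
  have h2 : (0 : ℝ) < n 2 := by exact_mod_cast hn 2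
  have h3 : (0 : ℝ) < n 3 := by exact_mod_cast hn 3
  refine ⟨_, _, _, _, by positivity, by positivity, by positivity, ?_, by positivity, ?_, rfl, rfl,
    rfl, rfl, ?_⟩
  · field_simp
  · rw [div_lt_one (by positivity)]
    linarith
  · funext k
    rw [Fin.sum_univ_four]
    fin_cases k
    · simp
      field_simp
    · simp
      field_simp
    · simp
      field_simp
    · simp
      field_simp
      ring

/-- **The triangle inequalities and the a priori bounds for all block sizes.** -/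
theorem apriori_all (n : Fin 4 → ℕ) (hn : ∀ i, 0 < n i) (x : Fin 4 → Fin 4 → ℝ) (hx : IsMetric x)
    (c : ℝ) (hE : IsEinstein n c x) :
    0 < c ∧ (∀ i j k, i ≠ j → i ≠ k → j ≠ k → x i j ≤ x i k + x j k) ∧
      ∀ i j, i ≠ j → ((n i : ℝ) + n j) / ∑ l, (n l : ℝ) ≤ 2 * c * x i j ∧
        2 * c * x i j ≤ 2 - ((n i : ℝ) + n j) / ∑ l, (n l : ℝ) := by
  have hc := const_pos n hn hx (i₀ := 0) (j₀ := 1) (by decide) hE
  have hx' := hx.smul (r := 2 * c) (by linarith)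
  have hE' := (ein_iff n hx').1 (scale_half n hx hc hE)
  have hN : 0 < ∑ l, (n l : ℝ) := sum_pos (fun l _ ↦ by exact_mod_cast hn l) ⟨0, mem_univ 0⟩
  have hν : ∀ i, 0 < (fun k ↦ (n k : ℝ) / ∑ l, (n l : ℝ)) i := fun i ↦ by
    have : (0 : ℝ) < n i := by exact_mod_cast hn i
    positivity
  have hν1 : ∑ i, (fun k ↦ (n k : ℝ) / ∑ l, (n l : ℝ)) i = 1 := by
    simp only
    rw [← sum_div, div_self hN.ne']
  refine ⟨hc, fun i j k hij hik hjk ↦ ?_, fun i j hij ↦ ?_⟩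
  · have h1 := ti_of_mult mult hν hν1 hx' hE' i j k hij hik hjk
    simp only [Pi.smul_apply, smul_eq_mul] at h1
    rw [← mul_add] at h1
    exact le_of_mul_le_mul_left h1 (by linarith)
  · have h1 := apriori mult hν hν1 hx' hE' hij
    simp only [Pi.smul_apply, smul_eq_mul] at h1
    rw [add_div]
    constructor
    · exact h1.1
    · linarith [h1.2]

/-- **Twelve Kähler-Einstein metrics for all block sizes.** -/
theorem kaehler_all (n : Fin 4 → ℕ) (hn : ∀ i, 0 < n i) :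
    {x : Fin 4 → Fin 4 → ℝ | IsMetric x ∧ IsEinstein n (1 / 2) x ∧ IsKaehler x}.ncard = 12 := by
  have hN : 0 < ∑ l, (n l : ℝ) := sum_pos (fun l _ ↦ by exact_mod_cast hn l) ⟨0, mem_univ 0⟩
  have hν : ∀ i, 0 < (fun k ↦ (n k : ℝ) / ∑ l, (n l : ℝ)) i := fun i ↦ by
    have : (0 : ℝ) < n i := by exact_mod_cast hn i
    positivity
  have hν1 : ∑ i, (fun k ↦ (n k : ℝ) / ∑ l, (n l : ℝ)) i = 1 := by
    simp only
    rw [← sum_div, div_self hN.ne']
  rw [← kaehler12 hν hν1]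
  congr 1
  ext x
  constructor
  · rintro ⟨h1, h2, h3⟩
    exact ⟨h1, (ein_iff n h1).1 h2, h3⟩
  · rintro ⟨h1, h2, h3⟩
    exact ⟨h1, (ein_iff n h1).2 h2, h3⟩

/-- **Twenty Einstein metrics if one block is large.** -/
theorem main (n₀ n₁ n₂ : ℕ) (h₀ : 0 < n₀) (h₁ : 0 < n₁) (h₂ : 0 < n₂) :
    ∃ M : ℕ, ∀ m : ℕ, M ≤ m →
      {x : Fin 4 → Fin 4 → ℝ | IsMetric x ∧ IsEinstein ![n₀, n₁, n₂, m] (1 / 2) x}.ncard = 20 := by
  have p0 : (0 : ℝ) < n₀ := by exact_mod_cast h₀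
  have p1 : (0 : ℝ) < n₁ := by exact_mod_cast h₁
  have p2 : (0 : ℝ) < n₂ := by exact_mod_cast h₂
  set S : ℝ := (n₀ : ℝ) + n₁ + n₂ with hS
  have hSp : 0 < S := by positivity
  obtain ⟨ε, hε, H⟩ := total ti (a := n₀ / S) (b := n₁ / S) (c := n₂ / S) (by positivity)
    (by positivity) (by positivity) (by rw [hS]; field_simp)
  obtain ⟨M, hM⟩ := exists_nat_gt (S / ε)
  refine ⟨M + 1, fun m hm ↦ ?_⟩
  have hmM : (M : ℝ) < m := by exact_mod_cast hm
  have hm0 : (0 : ℝ) < m := by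
    have : (0 : ℝ) ≤ M := Nat.cast_nonneg M
    linarith
  have hn : ∀ i, 0 < (![n₀, n₁, n₂, m] : Fin 4 → ℕ) i := by
    intro i
    fin_cases i
    · exact h₀
    · exact h₁
    · exact h₂
    · exact_mod_cast hm0
  obtain ⟨a, b, c, t, ha, hb, hc, habc, ht, ht1, ea, eb, ec, et, e⟩ := sizes ![n₀, n₁, n₂, m] hn
  have e1 : {x : Fin 4 → Fin 4 → ℝ | IsMetric x ∧ IsEinstein ![n₀, n₁, n₂, m] (1 / 2) x} =
      {x : Fin 4 → Fin 4 → ℝ | IsMetric x ∧ NormEin ![t * a, t * b, t * c, 1 - t] x} := by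
    ext x
    constructor
    · rintro ⟨h1, h2⟩
      refine ⟨h1, ?_⟩
      rw [← e]
      exact (ein_iff _ h1).1 h2
    · rintro ⟨h1, h2⟩
      refine ⟨h1, (ein_iff _ h1).2 ?_⟩
      rw [e]
      exact h2
  rw [e1, ncard_eq]
  have ea' : a = n₀ / S := ea
  have eb' : b = n₁ / S := eb
  have ec' : c = n₂ / S := ec
  have et' : t = S / (S + m) := et
  rw [ea', eb', ec']
  refine H t ht ?_
  rw [et', div_lt_iff₀ (by positivity)]
  rw [div_lt_iff₀ hε] at hM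
  nlinarith

end Pool.Agent.Helper83.EIN
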