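import Pool.Agent.Helper19.TI.Dich
import Pool.Agent.Helper58.EF.MatKaehler2

/-!
# MP_06d934_gt: bounds for all invariant Einstein metrics
-/

set_option autoImplicit false

namespace Pool.Agent.Helper83.EIN.Pinching

open Finset Pool.Agent.Helper83.EIN Pool.Agent.Helper58.EF.Mat

theorem cs_lt {u v w : ℝ} (hu : 0 < u) (hv : 0 < v) (h1 : u < v + w) (h2 : v < u + w) :
    cs u v w < 1 := by
  unfold cs
  rw [div_lt_one (by positivity)]
  nlinarith

theorem lt_cs {u v w : ℝ} (hu : 0 < u) (hv : 0 < v) (hw : 0 < w) (h : w < u + v) :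
    -1 < cs u v w := by
  unfold cs
  rw [lt_div_iff₀ (by positivity)]
  nlinarith

/-- **Bounds for the invariant Einstein metrics, strict unless the metric is Kähler.** -/
theorem pinching (n : Fin 4 → ℕ) (hn : ∀ i, 0 < n i) (x : Fin 4 → Fin 4 → ℝ) (hx : IsMetric x)
    (c : ℝ) (hE : Einstein n c x) (i j : Fin 4) (hij : i ≠ j) :
    (((n i : ℝ) + n j) / ∑ l, (n l : ℝ) ≤ 2 * c * x i j ∧
      2 * c * x i j ≤ 2 - ((n i : ℝ) + n j) / ∑ l, (n l : ℝ)) ∧
    (¬ Kaehler n x → ((n i : ℝ) + n j) / ∑ l, (n l : ℝ) < 2 * c * x i j ∧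
      2 * c * x i j < 2 - ((n i : ℝ) + n j) / ∑ l, (n l : ℝ)) := by
  have hI := (einstein_iff hn hx c).1 hE
  obtain ⟨hc, -, hb⟩ := apriori_all n hn x hx c hI
  refine ⟨hb i j hij, fun hK ↦ ?_⟩
  rw [kaehler_iff hn hx] at hK
  have hT := (Pool.Agent.Helper19.TI.Dich.dichotomy n hn x hx c hI).resolve_left hK
  have hx' := hx.smul (r := 2 * c) (by linarith)
  have hE' := (ein_iff n hx').1 (scale_half n hx hc hI)
  have hT' : ∀ i j k, i ≠ j → i ≠ k → j ≠ k →
      ((2 * c) • x) i j < ((2 * c) • x) i k + ((2 * c) • x) j k := by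
    intro i j k h1 h2 h3
    have h4 := hT i j k h1 h2 h3
    simp only [Pi.smul_apply, smul_eq_mul]
    nlinarith
  have hN : 0 < ∑ l, (n l : ℝ) := sum_pos (fun l _ ↦ by exact_mod_cast hn l) ⟨0, mem_univ 0⟩
  have he := hE' i j hij
  have h0 : (2 * c) * x i j = ((2 * c) • x) i j := by simp only [Pi.smul_apply, smul_eq_mul]
  have hsum : ∑ k with k ≠ i ∧ k ≠ j, (n k : ℝ) / ∑ l, (n l : ℝ) =
      1 - ((n i : ℝ) + n j) / ∑ l, (n l : ℝ) := by
    have h1 : ∑ k, (n k : ℝ) / ∑ l, (n l : ℝ) = 1 := by rw [← sum_div, div_self hN.ne']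
    have h2 := sum_filter_add_sum_filter_not univ (fun k ↦ k ≠ i ∧ k ≠ j)
      fun k ↦ (n k : ℝ) / ∑ l, (n l : ℝ)
    have h3 : (univ.filter fun k : Fin 4 ↦ ¬ (k ≠ i ∧ k ≠ j)) = {i, j} := by
      ext k
      simp only [mem_filter, mem_univ, true_and, mem_insert, mem_singleton]
      tauto
    rw [h1, h3, sum_pair hij, ← add_div] at h2
    linarith
  have hne : (univ.filter fun k : Fin 4 ↦ k ≠ i ∧ k ≠ j).Nonempty := by
    fin_cases i <;> fin_cases j <;> first | exact absurd rfl hij | decide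
  constructor
  · have h4 : ∑ k with k ≠ i ∧ k ≠ j, (n k : ℝ) / (∑ l, (n l : ℝ)) *
        cs (((2 * c) • x) i k) (((2 * c) • x) j k) (((2 * c) • x) i j) <
        ∑ k with k ≠ i ∧ k ≠ j, (n k : ℝ) / ∑ l, (n l : ℝ) := by
      refine sum_lt_sum_of_nonempty hne fun k hk ↦ ?_
      rw [mem_filter] at hk
      have p : (0 : ℝ) < n k := by exact_mod_cast hn k
      have h5 := cs_lt (hx'.pos i k hk.2.1.symm) (hx'.pos j k hk.2.2.symm)
        (w := ((2 * c) • x) i j) (by
          have := hT' i k j hk.2.1.symm hij hk.2.2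
          rw [hx'.symm k j] at this
          linarith) (by
          have := hT' j k i hk.2.2.symm hij.symm hk.2.1
          rw [hx'.symm k i, hx'.symm j i] at this
          linarith)
      have h6 : 0 < (n k : ℝ) / ∑ l, (n l : ℝ) := by positivity
      nlinarith
    rw [h0]
    rw [hsum] at h4
    linarith
  · have h4 : ∑ k with k ≠ i ∧ k ≠ j, -((n k : ℝ) / (∑ l, (n l : ℝ)) *
        cs (((2 * c) • x) i k) (((2 * c) • x) j k) (((2 * c) • x) i j)) <
        ∑ k with k ≠ i ∧ k ≠ j, (n k : ℝ) / ∑ l, (n l : ℝ) := by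
      refine sum_lt_sum_of_nonempty hne fun k hk ↦ ?_
      rw [mem_filter] at hk
      have p : (0 : ℝ) < n k := by exact_mod_cast hn k
      have h5 := lt_cs (hx'.pos i k hk.2.1.symm) (hx'.pos j k hk.2.2.symm) (hx'.pos i j hij)
        (hT' i j k hij hk.2.1.symm hk.2.2.symm)
      have h6 : 0 < (n k : ℝ) / ∑ l, (n l : ℝ) := by positivity
      nlinarith
    rw [sum_neg_distrib] at h4
    rw [h0]
    rw [hsum] at h4
    linarith

end Pool.Agent.Helper83.EIN.Pinching
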