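import Pool.Agent.Helper83.EIN.Kaehler

/-!
# Project EIN (MP_06d934_gt): the triangle inequalities from the multipliers, and the main theorems
-/

set_option autoImplicit false

namespace Pool.Agent.Helper83.EIN

open Finset

/-- The coefficient of the block `l` in the equation of the pair `{i, j}`. -/
noncomputable def co (x : Fin 4 → Fin 4 → ℝ) (l i j : Fin 4) : ℝ :=
  if l = i ∨ l = j then 1 else 1 - cs (x l i) (x l j) (x i j)

/-- The existence of multipliers for every metric which violates a triangle inequality. -/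
def MULT : Prop :=
  ∀ x : Fin 4 → Fin 4 → ℝ, IsMetric x →
    (∃ i j k : Fin 4, i ≠ j ∧ i ≠ k ∧ j ≠ k ∧ x i k + x j k < x i j) →
    ∃ w : Fin 4 → Fin 4 → ℝ,
      (∑ p : Fin 4 × Fin 4 with p.1 < p.2, w p.1 p.2 * x p.1 p.2 = 0) ∧
      (∀ l, 0 ≤ ∑ p : Fin 4 × Fin 4 with p.1 < p.2, w p.1 p.2 * co x l p.1 p.2) ∧
      ∃ l, 0 < ∑ p : Fin 4 × Fin 4 with p.1 < p.2, w p.1 p.2 * co x l p.1 p.2

theorem eq_co {ν : Fin 4 → ℝ} (hν1 : ∑ i, ν i = 1) {x : Fin 4 → Fin 4 → ℝ} (hx : IsMetric x)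
    (hE : NormEin ν x) {i j : Fin 4} (hij : i ≠ j) : x i j = ∑ l, ν l * co x l i j := by
  have h1 := hE i j hij
  rw [h1]
  have h2 : ∑ l, ν l * co x l i j = ∑ l, (ν l - if l ≠ i ∧ l ≠ j then
      ν l * cs (x i l) (x j l) (x i j) else 0) := by
    refine sum_congr rfl fun l _ ↦ ?_
    unfold co
    by_cases h3 : l = i ∨ l = j
    · rw [if_pos h3, if_neg (by tauto)]
      ring
    · rw [if_neg h3, if_pos (by tauto), hx.symm l i, hx.symm l j]
      ring
  rw [h2, sum_sub_distrib, hν1, ← sum_filter]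

/-- The triangle inequalities for all block sizes. -/
theorem ti_of_mult (hM : MULT) {ν : Fin 4 → ℝ} (hν : ∀ i, 0 < ν i) (hν1 : ∑ i, ν i = 1)
    {x : Fin 4 → Fin 4 → ℝ} (hx : IsMetric x) (hE : NormEin ν x) (i j k : Fin 4)
    (hij : i ≠ j) (hik : i ≠ k) (hjk : j ≠ k) : x i j ≤ x i k + x j k := by
  by_contra hcon
  obtain ⟨w, h1, h2, l₀, h3⟩ := hM x hx ⟨i, j, k, hij, hik, hjk, not_le.1 hcon⟩
  have h4 : ∑ p : Fin 4 × Fin 4 with p.1 < p.2, w p.1 p.2 * x p.1 p.2 =
      ∑ l, ν l * ∑ p : Fin 4 × Fin 4 with p.1 < p.2, w p.1 p.2 * co x l p.1 p.2 := by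
    simp_rw [mul_sum]
    rw [sum_comm]
    refine sum_congr rfl fun p hp ↦ ?_
    rw [mem_filter] at hp
    rw [eq_co hν1 hx hE hp.2.ne, mul_sum]
    refine sum_congr rfl fun l _ ↦ ?_
    ring
  rw [h1] at h4
  have h5 : 0 < ∑ l, ν l * ∑ p : Fin 4 × Fin 4 with p.1 < p.2, w p.1 p.2 * co x l p.1 p.2 :=
    sum_pos' (fun l _ ↦ mul_nonneg (hν l).le (h2 l)) ⟨l₀, mem_univ _, mul_pos (hν l₀) h3⟩
  linarith

theorem TI_of_mult (hM : MULT) : TI := by
  intro a b c t v ha hb hc habc ht ht1 h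
  have hx : IsMetric (mat v) := isMetric_mat h.pos
  have hν : ∀ i, 0 < (![t * a, t * b, t * c, 1 - t] : Fin 4 → ℝ) i := by
    intro i
    fin_cases i
    · exact mul_pos ht ha
    · exact mul_pos ht hb
    · exact mul_pos ht hc
    · exact sub_pos.2 ht1
  have hν1 : ∑ i, (![t * a, t * b, t * c, 1 - t] : Fin 4 → ℝ) i = 1 := by
    rw [Fin.sum_univ_four]
    simp
    linear_combination t * habc
  have hE : NormEin ![t * a, t * b, t * c, 1 - t] (mat v) := by
    rw [normEin_iff hx, vec_mat]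
    exact h
  have T := ti_of_mult hM hν hν1 hx hE
  refine ⟨⟨?_, ?_, ?_⟩, ⟨?_, ?_, ?_⟩, ⟨?_, ?_, ?_⟩, ⟨?_, ?_, ?_⟩⟩
  · exact T 0 1 2 (by decide) (by decide) (by decide)
  · have := T 0 2 1 (by decide) (by decide) (by decide)
    exact this
  · have := T 1 2 0 (by decide) (by decide) (by decide)
    exact this
  · exact T 0 1 3 (by decide) (by decide) (by decide)
  · exact T 0 3 1 (by decide) (by decide) (by decide)
  · exact T 1 3 0 (by decide) (by decide) (by decide)
  · exact T 0 2 3 (by decide) (by decide) (by decide)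
  · exact T 0 3 2 (by decide) (by decide) (by decide)
  · exact T 2 3 0 (by decide) (by decide) (by decide)
  · exact T 1 2 3 (by decide) (by decide) (by decide)
  · exact T 1 3 2 (by decide) (by decide) (by decide)
  · exact T 2 3 1 (by decide) (by decide) (by decide)

/-- The a priori bounds in terms of `ν`. -/
theorem apriori (hM : MULT) {ν : Fin 4 → ℝ} (hν : ∀ i, 0 < ν i) (hν1 : ∑ i, ν i = 1)
    {x : Fin 4 → Fin 4 → ℝ} (hx : IsMetric x) (hE : NormEin ν x) {i j : Fin 4} (hij : i ≠ j) :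
    ν i + ν j ≤ x i j ∧ x i j ≤ 2 - ν i - ν j := by
  have T := ti_of_mult hM hν hν1 hx hE
  have hco : ∀ l, 0 ≤ co x l i j ∧ co x l i j ≤ 2 := by
    intro l
    unfold co
    split_ifs with h
    · norm_num
    · push Not at h
      have h1 := hx.pos l i h.1
      have h2 := hx.pos l j h.2
      have h3 := hx.pos i j hij
      have tri : Tri (x l i) (x l j) (x i j) := by
        refine ⟨?_, ?_, ?_⟩
        · have := T l i j h.1 h.2 hij
          linarith
        · have := T l j i h.2 h.1 hij.symm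
          rw [hx.symm j i] at this
          exact this
        · have := T i j l hij h.1.symm h.2.symm
          rw [hx.symm i l, hx.symm j l] at this
          exact this
      have h4 := cs_le h1 h2 h3 tri
      have h5 := le_cs h1 h2 h3 tri
      constructor <;> linarith
  have hself : ∀ l, l = i ∨ l = j → co x l i j = 1 := fun l hl ↦ if_pos hl
  have e := eq_co hν1 hx hE hij
  have hsplit : ∀ f : Fin 4 → ℝ, ∑ l, f l = f i + f j + ∑ l with l ≠ i ∧ l ≠ j, f l := by
    intro f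
    have e0 : ((univ : Finset (Fin 4)).filter fun k ↦ k ≠ i ∧ k ≠ j) = (univ.erase i).erase j := by
      ext k
      simp [and_comm]
    have e1 := add_sum_erase univ f (mem_univ i)
    have e2 := add_sum_erase (univ.erase i) f (mem_erase.2 ⟨hij.symm, mem_univ j⟩)
    rw [e0]
    linarith
  rw [hsplit, hself i (Or.inl rfl), hself j (Or.inr rfl)] at e
  have h1 := hν1
  rw [hsplit] at h1
  have lo : 0 ≤ ∑ l with l ≠ i ∧ l ≠ j, ν l * co x l i j :=
    sum_nonneg fun l _ ↦ mul_nonneg (hν l).le (hco l).1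
  have up : ∑ l with l ≠ i ∧ l ≠ j, ν l * co x l i j ≤ ∑ l with l ≠ i ∧ l ≠ j, ν l * 2 :=
    sum_le_sum fun l _ ↦ mul_le_mul_of_nonneg_left (hco l).2 (hν l).le
  rw [← sum_mul] at up
  constructor <;> linarith

end Pool.Agent.Helper83.EIN
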