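import Pool.Agent.Helper83.EIN.Basic

/-!
# Project EIN (MP_06d934_gt): the solutions with all `x₁₂, x₁₃, x₂₃` large
-/

set_option autoImplicit false

namespace Pool.Agent.Helper83.EIN

open Finset Topology

/-- The equations without denominators. -/
def FA (a b c t : ℝ) (v : Fin 6 → ℝ) : Fin 6 → ℝ :=
  ![2 * v 3 * v 4 * v 1 * v 2 * (v 0 - 1) + t * c * (v 1 ^ 2 + v 2 ^ 2 - v 0 ^ 2) * v 3 * v 4 +
      (1 - t) * (v 3 ^ 2 + v 4 ^ 2 - v 0 ^ 2) * v 1 * v 2,
    2 * v 3 * v 5 * v 0 * v 2 * (v 1 - 1) + t * b * (v 0 ^ 2 + v 2 ^ 2 - v 1 ^ 2) * v 3 * v 5 +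
      (1 - t) * (v 3 ^ 2 + v 5 ^ 2 - v 1 ^ 2) * v 0 * v 2,
    2 * v 4 * v 5 * v 0 * v 1 * (v 2 - 1) + t * a * (v 0 ^ 2 + v 1 ^ 2 - v 2 ^ 2) * v 4 * v 5 +
      (1 - t) * (v 4 ^ 2 + v 5 ^ 2 - v 2 ^ 2) * v 0 * v 1,
    2 * v 0 * v 4 * v 1 * v 5 * (v 3 - 1) + t * b * (v 0 ^ 2 + v 4 ^ 2 - v 3 ^ 2) * v 1 * v 5 +
      t * c * (v 1 ^ 2 + v 5 ^ 2 - v 3 ^ 2) * v 0 * v 4,
    2 * v 0 * v 3 * v 2 * v 5 * (v 4 - 1) + t * a * (v 0 ^ 2 + v 3 ^ 2 - v 4 ^ 2) * v 2 * v 5 +
      t * c * (v 2 ^ 2 + v 5 ^ 2 - v 4 ^ 2) * v 0 * v 3,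
    2 * v 1 * v 3 * v 2 * v 4 * (v 5 - 1) + t * a * (v 1 ^ 2 + v 3 ^ 2 - v 5 ^ 2) * v 2 * v 4 +
      t * b * (v 2 ^ 2 + v 4 ^ 2 - v 5 ^ 2) * v 1 * v 3]

theorem FA_cd (a b c : ℝ) : ContDiff ℝ 1 (fun z : ℝ × (Fin 6 → ℝ) ↦ FA a b c z.1 z.2) := by
  unfold FA
  rw [contDiff_pi]
  intro i
  fin_cases i <;> simp <;> fun_prop

theorem clear2 {x y z w p q r s u : ℝ} (hx : 0 < x) (hy : 0 < y) (hz : 0 < z) (hw : 0 < w) :
    u = 1 - p * ((x ^ 2 + y ^ 2 - r ^ 2) / (2 * x * y)) - q * ((z ^ 2 + w ^ 2 - s ^ 2) / (2 * z * w)) ↔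
      2 * x * y * z * w * (u - 1) + p * (x ^ 2 + y ^ 2 - r ^ 2) * z * w +
        q * (z ^ 2 + w ^ 2 - s ^ 2) * x * y = 0 := by
  have hx' := hx.ne'
  have hy' := hy.ne'
  have hz' := hz.ne'
  have hw' := hw.ne'
  constructor
  · intro h
    rw [h]
    field_simp
    ring
  · intro h
    have h2 : (2 * x * y * z * w) * (u - (1 - p * ((x ^ 2 + y ^ 2 - r ^ 2) / (2 * x * y)) -
        q * ((z ^ 2 + w ^ 2 - s ^ 2) / (2 * z * w)))) = 0 := by
      rw [← h]
      field_simp
      ring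
    have h3 : 2 * x * y * z * w ≠ 0 := by positivity
    have h4 := (mul_eq_zero.1 h2).resolve_left h3
    linarith

theorem sol_iff_FA {a b c t : ℝ} {v : Fin 6 → ℝ} (p : ∀ i, 0 < v i) :
    Sol a b c t v ↔ FA a b c t v = 0 := by
  have k0 := clear2 (p := t * c) (q := 1 - t) (r := v 0) (s := v 0) (u := v 0) (p 1) (p 2) (p 3)
    (p 4)
  have k1 := clear2 (p := t * b) (q := 1 - t) (r := v 1) (s := v 1) (u := v 1) (p 0) (p 2) (p 3)
    (p 5)
  have k2 := clear2 (p := t * a) (q := 1 - t) (r := v 2) (s := v 2) (u := v 2) (p 0) (p 1) (p 4)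
    (p 5)
  have k3 := clear2 (p := t * b) (q := t * c) (r := v 3) (s := v 3) (u := v 3) (p 0) (p 4) (p 1)
    (p 5)
  have k4 := clear2 (p := t * a) (q := t * c) (r := v 4) (s := v 4) (u := v 4) (p 0) (p 3) (p 2)
    (p 5)
  have k5 := clear2 (p := t * a) (q := t * b) (r := v 5) (s := v 5) (u := v 5) (p 1) (p 3) (p 2)
    (p 4)
  constructor
  · intro h
    have h0 := k0.1 h.e0
    have h1 := k1.1 h.e1
    have h2 := k2.1 h.e2
    have h3 := k3.1 h.e3
    have h4 := k4.1 h.e4
    have h5 := k5.1 h.e5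
    funext i
    fin_cases i
    · simp only [FA]; simp; linear_combination h0
    · simp only [FA]; simp; linear_combination h1
    · simp only [FA]; simp; linear_combination h2
    · simp only [FA]; simp; linear_combination h3
    · simp only [FA]; simp; linear_combination h4
    · simp only [FA]; simp; linear_combination h5
  · intro h
    have h0 := congrFun h 0
    have h1 := congrFun h 1
    have h2 := congrFun h 2
    have h3 := congrFun h 3
    have h4 := congrFun h 4
    have h5 := congrFun h 5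
    simp only [FA] at h0 h1 h2 h3 h4 h5
    simp at h0 h1 h2 h3 h4 h5
    refine ⟨p, ?_, ?_, ?_, ?_, ?_, ?_⟩
    · unfold cs; rw [k0]; linear_combination h0
    · unfold cs; rw [k1]; linear_combination h1
    · unfold cs; rw [k2]; linear_combination h2
    · unfold cs; rw [k3]; linear_combination h3
    · unfold cs; rw [k4]; linear_combination h4
    · unfold cs; rw [k5]; linear_combination h5

theorem FA_nondeg (a b c : ℝ) (v : Fin 6 → ℝ)
    (h : HasDerivAt (fun s : ℝ ↦ FA a b c 0 (![2, 2, 2, 1, 1, 1] + s • v)) 0 0) : v = 0 := by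
  rw [hasDerivAt_pi] at h
  have h0 := (h 0).deriv
  have h1 := (h 1).deriv
  have h2 := (h 2).deriv
  have h3 := (h 3).deriv
  have h4 := (h 4).deriv
  have h5 := (h 5).deriv
  simp [FA] at h0 h1 h2 h3 h4 h5
  simp (disch := fun_prop) only [deriv_fun_add, deriv_fun_sub, deriv_fun_mul, deriv_fun_pow,
    deriv_const, deriv_id''] at h0 h1 h2 h3 h4 h5
  ring_nf at h0 h1 h2 h3 h4 h5
  have a3 : v 3 = 0 := by linarith
  have a4 : v 4 = 0 := by linarith
  have a5 : v 5 = 0 := by linarith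
  have a0 : v 0 = 0 := by rw [a3, a4] at h0; linarith
  have a1 : v 1 = 0 := by rw [a3, a5] at h1; linarith
  have a2 : v 2 = 0 := by rw [a4, a5] at h2; linarith
  funext i
  fin_cases i
  · exact a0
  · exact a1
  · exact a2
  · exact a3
  · exact a4
  · exact a5

/-- **G_A**: exactly one solution with all three large. -/
theorem gA (hTI : TI) {a b c : ℝ} (ha : 0 < a) (hb : 0 < b) (hc : 0 < c) (habc : a + b + c = 1) :
    ∃ ε > 0, ∀ t, 0 < t → t < ε →
      {v : Fin 6 → ℝ | Sol a b c t v ∧ 1 ≤ v 0 ∧ 1 ≤ v 1 ∧ 1 ≤ v 2}.ncard = 1 := by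
  have hK : IsCompact (Set.Icc (![1, 1, 1, 1/2, 1/2, 1/2] : Fin 6 → ℝ) ![2, 2, 2, 2, 2, 2]) :=
    isCompact_Icc
  refine count_set (FA a b c) (FA_cd a b c) _ hK {![2, 2, 2, 1, 1, 1]} ?_ ?_ ?_
    (Set.pi Set.univ fun i ↦ Set.Ioi ((![1, 1, 1, 1/2, 1/2, 1/2] : Fin 6 → ℝ) i)) ?_ _ (1/2)
    (by norm_num) ?_ ?_
  · intro u hu h0
    rw [Set.mem_Icc, Pi.le_def, Pi.le_def] at hu
    have l0 := hu.1 0
    have l1 := hu.1 1
    have l2 := hu.1 2
    have l3 := hu.1 3
    have l4 := hu.1 4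
    have l5 := hu.1 5
    simp at l0 l1 l2 l3 l4 l5
    have q0 : 0 < u 0 := by linarith
    have q1 : 0 < u 1 := by linarith
    have q2 : 0 < u 2 := by linarith
    have q3 : 0 < u 3 := by linarith
    have q4 : 0 < u 4 := by linarith
    have q5 : 0 < u 5 := by linarith
    have h0' := congrFun h0 0
    have h1 := congrFun h0 1
    have h2 := congrFun h0 2
    have h3 := congrFun h0 3
    have h4 := congrFun h0 4
    have h5 := congrFun h0 5
    simp only [FA] at h0' h1 h2 h3 h4 h5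
    simp at h0' h1 h2 h3 h4 h5
    have a3 : u 3 = 1 := by
      rcases h3 with h | h
      · exfalso
        rcases h with ((h | h) | h) | h <;> linarith
      · linarith
    have a4 : u 4 = 1 := by
      rcases h4 with h | h
      · exfalso
        rcases h with ((h | h) | h) | h <;> linarith
      · linarith
    have a5 : u 5 = 1 := by
      rcases h5 with h | h
      · exfalso
        rcases h with ((h | h) | h) | h <;> linarith
      · linarith
    rw [a3, a4] at h0'
    rw [a3, a5] at h1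
    rw [a4, a5] at h2
    have a0 : u 0 = 2 := by
      have : (u 1 * u 2 * u 0) * (2 - u 0) = 0 := by linear_combination h0'
      have := (mul_eq_zero.1 this).resolve_left (by positivity)
      linarith
    have a1 : u 1 = 2 := by
      have : (u 0 * u 2 * u 1) * (2 - u 1) = 0 := by linear_combination h1
      have := (mul_eq_zero.1 this).resolve_left (by positivity)
      linarith
    have a2 : u 2 = 2 := by
      have : (u 0 * u 1 * u 2) * (2 - u 2) = 0 := by linear_combination h2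
      have := (mul_eq_zero.1 this).resolve_left (by positivity)
      linarith
    rw [mem_singleton]
    funext i
    fin_cases i
    · exact a0
    · exact a1
    · exact a2
    · exact a3
    · exact a4
    · exact a5
  · intro z hz
    rw [mem_singleton] at hz
    subst hz
    funext i
    fin_cases i <;> simp [FA] <;> norm_num
  · intro z hz v hv
    rw [mem_singleton] at hz
    subst hz
    exact FA_nondeg a b c v hv
  · intro z hz
    rw [mem_singleton] at hz
    subst hz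
    refine (isOpen_set_pi Set.finite_univ fun i _ ↦ isOpen_Ioi).mem_nhds ?_
    intro i _
    fin_cases i <;> simp <;> norm_num
  · rintro t ht ht2 u ⟨hu, l0, l1, l2⟩
    have B := bd hTI ha hb hc habc ht (by linarith) hu
    refine ⟨⟨?_, ?_⟩, (sol_iff_FA hu.pos).1 hu⟩
    · intro i
      fin_cases i <;> simp
      · exact l0
      · exact l1
      · exact l2
      · linarith [B.l3]
      · linarith [B.l4]
      · linarith [B.l5]
    · intro i
      fin_cases i <;> simp
      · exact B.u0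
      · exact B.u1
      · exact B.u2
      · linarith [B.u3]
      · linarith [B.u4]
      · linarith [B.u5]
  · intro t ht ht2 u hu h0
    have l0 := hu 0 trivial
    have l1 := hu 1 trivial
    have l2 := hu 2 trivial
    have l3 := hu 3 trivial
    have l4 := hu 4 trivial
    have l5 := hu 5 trivial
    simp at l0 l1 l2 l3 l4 l5
    refine ⟨(sol_iff_FA ?_).2 h0, l0.le, l1.le, l2.le⟩
    intro i
    fin_cases i <;> simp <;> linarith

end Pool.Agent.Helper83.EIN
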