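import Pool.Agent.Helper83.EIN.RegA

/-!
# Project EIN (MP_06d934_gt): the solutions with `x₁₂` small, `x₁₃, x₂₃` large
-/

set_option autoImplicit false

namespace Pool.Agent.Helper83.EIN

open Finset Topology

/-- A small `x₁₂` is at most `6t`. -/
theorem small0 {a b c t : ℝ} {v : Fin 6 → ℝ} (hc : 0 < c)
    (hc1 : c < 1) (ht : 0 < t) (ht4 : t ≤ 1 / 4) (h : Sol a b c t v) (B : Bd a b c t v)
    (h1 : v 0 < 1) : v 0 ≤ 6 * t := by
  have p := h.pos
  have c0' := le_cs (p 1) (p 2) (p 0) B.t1.rot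
  have e0 := h.e0
  have key : (1 - t) * cs (v 3) (v 4) (v 0) ≥ (1 - t) - v 0 * (2 / 3) := by
    unfold cs
    have h3 := B.l3
    have h4 := B.l4
    have h34 : (1 - t) * (1 - t) ≤ v 3 * v 4 := mul_le_mul h3 h4 (by linarith) (p 3).le
    have e : (v 3 ^ 2 + v 4 ^ 2 - v 0 ^ 2) / (2 * v 3 * v 4) =
        1 - (v 0 ^ 2 - (v 3 - v 4) ^ 2) / (2 * (v 3 * v 4)) := by
      have := (p 3).ne'
      have := (p 4).ne'
      field_simp
      ring
    rw [e]
    have h5 : (v 0 ^ 2 - (v 3 - v 4) ^ 2) / (2 * (v 3 * v 4)) ≤ v 0 / (2 * ((1 - t) * (1 - t))) := by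
      have h6 : v 0 ^ 2 - (v 3 - v 4) ^ 2 ≤ v 0 := by nlinarith [p 0, sq_nonneg (v 3 - v 4)]
      have h7 : 0 < (1 - t) * (1 - t) := by nlinarith
      calc (v 0 ^ 2 - (v 3 - v 4) ^ 2) / (2 * (v 3 * v 4)) ≤ v 0 / (2 * (v 3 * v 4)) :=
            div_le_div_of_nonneg_right h6 (by nlinarith)
        _ ≤ v 0 / (2 * ((1 - t) * (1 - t))) := by
            apply div_le_div_of_nonneg_left (p 0).le (by linarith)
            linarith
    have h8 : (1 - t) * (v 0 / (2 * ((1 - t) * (1 - t)))) ≤ v 0 * (2 / 3) := by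
      have h9 : (1 - t) * (v 0 / (2 * ((1 - t) * (1 - t)))) = v 0 * (1 / (2 * (1 - t))) := by
        have : (1 - t) ≠ 0 := by linarith
        field_simp
      rw [h9]
      apply mul_le_mul_of_nonneg_left _ (p 0).le
      rw [div_le_iff₀ (by linarith)]
      linarith
    have h10 := mul_le_mul_of_nonneg_left h5 (by linarith : 0 ≤ 1 - t)
    linarith
  have h11 : -(t * c) ≤ t * c * cs (v 1) (v 2) (v 0) := by
    have := mul_le_mul_of_nonneg_left c0' (mul_pos ht hc).le
    linarith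
  have h12 : t * c ≤ t := by nlinarith
  linarith

/-- The chart. -/
def psB (t : ℝ) (u : Fin 6 → ℝ) : Fin 6 → ℝ :=
  ![t * u 0, u 5 + t * u 2, u 5, u 3 + t * u 1, u 3, u 4]

theorem psB_inj {t : ℝ} (ht : 0 < t) : Function.Injective (psB t) := by
  intro u w h
  have h0 := congrFun h 0
  have h1 := congrFun h 1
  have h2 := congrFun h 2
  have h3 := congrFun h 3
  have h4 := congrFun h 4
  have h5 := congrFun h 5
  simp [psB] at h0 h1 h2 h3 h4 h5
  rw [h2] at h1
  rw [h4] at h3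
  simp at h1 h3
  have ht' := ht.ne'
  simp [ht'] at h0 h1 h3
  funext i
  fin_cases i
  · exact h0
  · exact h3
  · exact h1
  · exact h4
  · exact h5
  · exact h2

theorem psB_surj {t : ℝ} (ht : 0 < t) (v : Fin 6 → ℝ) :
    psB t ![v 0 / t, (v 3 - v 4) / t, (v 1 - v 2) / t, v 4, v 5, v 2] = v := by
  have ht' := ht.ne'
  funext i
  fin_cases i <;> simp [psB] <;> field_simp <;> ring

/-- The desingularised equations. Here `u = (η, δ, ρ, z₂, z₃, y)`. -/
def FB (a b c t : ℝ) (u : Fin 6 → ℝ) : Fin 6 → ℝ :=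
  let NA := (1 - t) * (u 0 ^ 2 - u 1 ^ 2) * (u 5 + t * u 2) * u 5 +
    c * t * (u 0 ^ 2 - u 2 ^ 2) * (u 3 + t * u 1) * u 3
  ![2 * (u 3 + t * u 1) * u 3 * (u 5 + t * u 2) * u 5 * (u 0 - a - b) - t * NA,
    u 1 * NA * u 4 - (u 0 ^ 2 - u 1 ^ 2) * (a * u 3 - b * (u 3 + t * u 1)) * u 4 *
      (u 5 + t * u 2) * u 5 - u 0 * c * (u 3 + t * u 1) * u 3 *
      (-u 2 * (u 5 + t * u 2) * u 5 + u 2 * (u 4 ^ 2 - u 3 ^ 2) +
        u 1 * (u 3 + t * u 1 + u 3) * u 5),
    2 * (u 3 + t * u 1) * u 3 * u 4 * u 0 * (u 5 + t * u 2) * u 5 * u 2 -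
      (1 - t) * u 0 * (u 5 + t * u 2) * u 5 * (u 3 * (u 2 * (u 5 + t * u 2 + u 5) -
        u 1 * ((u 3 + t * u 1 - u 4) + (u 3 - u 4))) - u 1 * (u 5 ^ 2 - (u 3 - u 4) ^ 2)) -
      2 * (a + b) * u 2 * (u 3 + t * u 1) * u 3 * u 4 * (u 5 + t * u 2) * u 5 -
      t * (u 0 ^ 2 - u 2 ^ 2) * (u 3 + t * u 1) * u 3 * u 4 * (a * u 5 - b * (u 5 + t * u 2)),
    2 * u 0 * (u 3 + t * u 1) * u 5 * u 4 * (u 3 - 1) +
      t * (a * (t * u 0 ^ 2 + u 1 * (u 3 + t * u 1 + u 3)) * u 5 * u 4 +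
        c * (u 5 ^ 2 + u 4 ^ 2 - u 3 ^ 2) * u 0 * (u 3 + t * u 1)),
    2 * (u 5 + t * u 2) * (u 3 + t * u 1) * u 5 * u 3 * (u 4 - 1) +
      t * (a * ((u 5 + t * u 2) ^ 2 + (u 3 + t * u 1) ^ 2 - u 4 ^ 2) * u 5 * u 3 +
        b * (u 5 ^ 2 + u 3 ^ 2 - u 4 ^ 2) * (u 5 + t * u 2) * (u 3 + t * u 1)),
    2 * u 3 * u 4 * u 0 * (u 5 + t * u 2) * (u 5 - t) -
      (1 - t) * (u 5 ^ 2 - (u 3 - u 4) ^ 2) * u 0 * (u 5 + t * u 2) +
      t * a * (t * u 0 ^ 2 + u 2 * (u 5 + t * u 2 + u 5)) * u 3 * u 4]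

theorem FB_cd (a b c : ℝ) : ContDiff ℝ 1 (fun z : ℝ × (Fin 6 → ℝ) ↦ FB a b c z.1 z.2) := by
  unfold FB
  rw [contDiff_pi]
  intro i
  fin_cases i <;> simp <;> fun_prop

theorem FA_psB {a b c t : ℝ} (habc : a + b + c = 1) (u : Fin 6 → ℝ) :
    FA a b c t (psB t u) 0 = t * FB a b c t u 0 ∧
    FA a b c t (psB t u) 2 = t * FB a b c t u 5 ∧
    FA a b c t (psB t u) 4 = t * FB a b c t u 3 ∧
    FA a b c t (psB t u) 5 = FB a b c t u 4 ∧
    (u 3 + t * u 1) * u 5 * FA a b c t (psB t u) 3 =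
      t * u 3 * (u 5 + t * u 2) * FB a b c t u 3 + t ^ 3 * FB a b c t u 1 +
        t ^ 2 * u 1 * u 4 * FB a b c t u 0 ∧
    u 3 * (u 5 + t * u 2) * FA a b c t (psB t u) 1 =
      t * (u 3 + t * u 1) * u 5 * FB a b c t u 5 + t ^ 2 * FB a b c t u 2 := by
  obtain rfl : c = 1 - a - b := by linarith
  refine ⟨?_, ?_, ?_, ?_, ?_, ?_⟩ <;> simp [FA, FB, psB] <;> ring

theorem sol_iff_FB {a b c t : ℝ} (habc : a + b + c = 1) (ht : 0 < t) {u : Fin 6 → ℝ}
    (p : ∀ i, 0 < psB t u i) : Sol a b c t (psB t u) ↔ FB a b c t u = 0 := by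
  have p1 := p 1
  have p2 := p 2
  have p3 := p 3
  have p4 := p 4
  simp [psB] at p1 p2 p3 p4
  obtain ⟨k0, k2, k4, k5, k3, k1⟩ := FA_psB (t := t) habc u
  rw [sol_iff_FA p]
  have ht' := ht.ne'
  constructor
  · intro h
    rw [h] at k0 k1 k2 k3 k4 k5
    simp only [Pi.zero_apply] at k0 k1 k2 k3 k4 k5
    have f0 : FB a b c t u 0 = 0 := (mul_eq_zero.1 k0.symm).resolve_left ht'
    have f5 : FB a b c t u 5 = 0 := (mul_eq_zero.1 k2.symm).resolve_left ht'
    have f3 : FB a b c t u 3 = 0 := (mul_eq_zero.1 k4.symm).resolve_left ht'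
    have f4 : FB a b c t u 4 = 0 := k5.symm
    rw [f3, f0] at k3
    rw [f5] at k1
    have f1 : FB a b c t u 1 = 0 := by
      have : t ^ 3 * FB a b c t u 1 = 0 := by linarith
      exact (mul_eq_zero.1 this).resolve_left (by positivity)
    have f2 : FB a b c t u 2 = 0 := by
      have : t ^ 2 * FB a b c t u 2 = 0 := by linarith
      exact (mul_eq_zero.1 this).resolve_left (by positivity)
    funext i
    fin_cases i
    · exact f0
    · exact f1
    · exact f2
    · exact f3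
    · exact f4
    · exact f5
  · intro h
    rw [h] at k0 k1 k2 k3 k4 k5
    simp only [Pi.zero_apply, mul_zero, add_zero] at k0 k1 k2 k3 k4 k5
    have f3 : FA a b c t (psB t u) 3 = 0 :=
      (mul_eq_zero.1 k3).resolve_left (mul_pos p3 p2).ne'
    have f1 : FA a b c t (psB t u) 1 = 0 :=
      (mul_eq_zero.1 k1).resolve_left (mul_pos p4 p1).ne'
    funext i
    fin_cases i
    · exact k0
    · exact f1
    · exact k2
    · exact f3
    · exact k4
    · exact k5

theorem FB_nondeg {a b c d : ℝ} (hab : 0 < a + b)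
    (hd' : (a + b) ^ 2 - d ^ 2 - 2 * d * (d - (a - b)) ≠ 0) (v : Fin 6 → ℝ)
    (h : HasDerivAt (fun s : ℝ ↦ FB a b c 0 (![a + b, d, d, 1, 1, 2] + s • v)) 0 0) : v = 0 := by
  rw [hasDerivAt_pi] at h
  have h0 := (h 0).deriv
  have h1 := (h 1).deriv
  have h2 := (h 2).deriv
  have h3 := (h 3).deriv
  have h4 := (h 4).deriv
  have h5 := (h 5).deriv
  simp [FB] at h0 h1 h2 h3 h4 h5
  simp (disch := fun_prop) only [deriv_fun_add, deriv_fun_sub, deriv_fun_mul, deriv_fun_pow,
    deriv_const, deriv_id'', deriv.fun_neg] at h0 h1 h2 h3 h4 h5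
  have a3 : v 3 = 0 := by
    have : (a + b) * v 3 = 0 := by linear_combination h3 / 4
    exact (mul_eq_zero.1 this).resolve_left hab.ne'
  have a4 : v 4 = 0 := by linear_combination h4 / 8
  have a0 : v 0 = 0 := by linear_combination h0 / 8
  have a5 : v 5 = 0 := by
    rw [a3, a4, a0] at h5
    have : (a + b) * v 5 = 0 := by linear_combination -h5 / 4
    exact (mul_eq_zero.1 this).resolve_left hab.ne'
  have a2 : v 2 = v 1 := by
    rw [a3, a4, a0, a5] at h2
    have : (a + b) * (v 2 - v 1) = 0 := by linear_combination -h2 / 16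
    have := (mul_eq_zero.1 this).resolve_left hab.ne'
    linarith
  have a1 : v 1 = 0 := by
    rw [a3, a4, a0, a5, a2] at h1
    have : ((a + b) ^ 2 - d ^ 2 - 2 * d * (d - (a - b))) * v 1 = 0 := by
      linear_combination h1 / 4
    exact (mul_eq_zero.1 this).resolve_left hd'
  funext i
  fin_cases i
  · exact a0
  · exact a1
  · rw [a1] at a2
    exact a2
  · exact a3
  · exact a4
  · exact a5

/-- The limit zero with parameter `d`. -/
def zB (a b d : ℝ) : Fin 6 → ℝ := ![a + b, d, d, 1, 1, 2]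

/-- **G_B**: exactly three solutions with `x₁₂` small, `x₁₃, x₂₃` large. -/
theorem gB (hTI : TI) {a b c : ℝ} (ha : 0 < a) (hb : 0 < b) (hc : 0 < c) (habc : a + b + c = 1) :
    ∃ ε > 0, ∀ t, 0 < t → t < ε →
      {v : Fin 6 → ℝ | Sol a b c t v ∧ v 0 < 1 ∧ 1 ≤ v 1 ∧ 1 ≤ v 2}.ncard = 3 := by
  classical
  have hab : 0 < a + b := by linarith
  have hK : IsCompact (Set.Icc (![a + b, -6, -6, 1/2, 1/2, 1] : Fin 6 → ℝ) ![6, 6, 6, 2, 2, 2]) :=
    isCompact_Icc
  have hZ3 : ({zB a b (a + b), zB a b (-(a + b)), zB a b (a - b)} :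
      Finset (Fin 6 → ℝ)).card = 3 := by
    rw [card_eq_three]
    refine ⟨_, _, _, ?_, ?_, ?_, rfl⟩
    · intro h
      have := congrFun h 1
      simp [zB] at this
      linarith
    · intro h
      have := congrFun h 1
      simp [zB] at this
      linarith
    · intro h
      have := congrFun h 1
      simp [zB] at this
      linarith
  have hmemZ : ∀ z ∈ ({zB a b (a + b), zB a b (-(a + b)), zB a b (a - b)} :
      Finset (Fin 6 → ℝ)), ∃ d, z = zB a b d ∧ |d| ≤ a + b ∧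
        ((a + b) ^ 2 - d ^ 2) * (d - (a - b)) = 0 ∧
        (a + b) ^ 2 - d ^ 2 - 2 * d * (d - (a - b)) ≠ 0 := by
    intro z hz
    rw [mem_insert, mem_insert, mem_singleton] at hz
    rcases hz with rfl | rfl | rfl
    · refine ⟨a + b, rfl, ?_, by ring, ?_⟩
      · rw [abs_of_pos hab]
      · have : (a + b) ^ 2 - (a + b) ^ 2 - 2 * (a + b) * (a + b - (a - b)) = -(4 * (a + b) * b) := by
          ring
        rw [this]
        have : 0 < 4 * (a + b) * b := by positivity
        linarith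
    · refine ⟨-(a + b), rfl, ?_, by ring, ?_⟩
      · rw [abs_neg, abs_of_pos hab]
      · have : (a + b) ^ 2 - (-(a + b)) ^ 2 - 2 * (-(a + b)) * (-(a + b) - (a - b)) =
            -(4 * (a + b) * a) := by ring
        rw [this]
        have : 0 < 4 * (a + b) * a := by positivity
        linarith
    · refine ⟨a - b, rfl, ?_, by ring, ?_⟩
      · rw [abs_le]
        constructor <;> linarith
      · have : (a + b) ^ 2 - (a - b) ^ 2 - 2 * (a - b) * (a - b - (a - b)) = 4 * a * b := by ring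
        rw [this]
        positivity
  suffices hcount : ∃ ε > 0, ∀ t, 0 < t → t < ε →
      {u | Sol a b c t (psB t u) ∧ psB t u 0 < 1 ∧ 1 ≤ psB t u 1 ∧ 1 ≤ psB t u 2}.ncard =
        ({zB a b (a + b), zB a b (-(a + b)), zB a b (a - b)} : Finset (Fin 6 → ℝ)).card by
    obtain ⟨ε, hε, hcount⟩ := hcount
    refine ⟨ε, hε, fun t ht0 htε ↦ ?_⟩
    have h1 : {v : Fin 6 → ℝ | Sol a b c t v ∧ v 0 < 1 ∧ 1 ≤ v 1 ∧ 1 ≤ v 2} =
        psB t '' {u | Sol a b c t (psB t u) ∧ psB t u 0 < 1 ∧ 1 ≤ psB t u 1 ∧ 1 ≤ psB t u 2} := by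
      ext v
      constructor
      · intro hv
        refine ⟨_, ?_, psB_surj ht0 v⟩
        rw [Set.mem_ofPred_eq, psB_surj ht0 v]
        exact hv
      · rintro ⟨u, hu, rfl⟩
        exact hu
    rw [h1, Set.ncard_image_of_injective _ (psB_inj ht0), hcount t ht0 htε, hZ3]
  refine count_set (FB a b c) (FB_cd a b c) _ hK
    {zB a b (a + b), zB a b (-(a + b)), zB a b (a - b)} ?_ ?_ ?_
    (Set.pi Set.univ fun i ↦ Set.Ioo ((![0, -7, -7, 1/2, 1/2, 3/2] : Fin 6 → ℝ) i)
      ((![7, 7, 7, 2, 2, 3] : Fin 6 → ℝ) i)) ?_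
    (fun t ↦ {u | Sol a b c t (psB t u) ∧ psB t u 0 < 1 ∧ 1 ≤ psB t u 1 ∧ 1 ≤ psB t u 2}) (1/100)
    (by norm_num) ?_ ?_
  · intro u hu h0
    rw [Set.mem_Icc, Pi.le_def, Pi.le_def] at hu
    have l0 := hu.1 0
    have l3 := hu.1 3
    have l4 := hu.1 4
    have l5 := hu.1 5
    simp at l0 l3 l4 l5
    have q0 : 0 < u 0 := by linarith
    have q3 : 0 < u 3 := by linarith
    have q4 : 0 < u 4 := by linarith
    have q5 : 0 < u 5 := by linarith
    have f0 := congrFun h0 0
    have f1 := congrFun h0 1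
    have f2 := congrFun h0 2
    have f3 := congrFun h0 3
    have f4 := congrFun h0 4
    have f5 := congrFun h0 5
    simp only [FB] at f0 f1 f2 f3 f4 f5
    simp only [Matrix.cons_val, zero_mul, add_zero, sub_zero, mul_zero, Pi.zero_apply] at f0 f1 f2 f3 f4 f5
    have a3 : u 3 = 1 := by
      have h : (2 * u 0 * u 3 * u 5 * u 4) * (u 3 - 1) = 0 := by linear_combination f3
      have := (mul_eq_zero.1 h).resolve_left (by positivity)
      linarith
    have a4 : u 4 = 1 := by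
      have h : (2 * u 5 * u 3 * u 5 * u 3) * (u 4 - 1) = 0 := by linear_combination f4
      have := (mul_eq_zero.1 h).resolve_left (by positivity)
      linarith
    have a0 : u 0 = a + b := by
      have h : (2 * u 3 * u 3 * u 5 * u 5) * (u 0 - a - b) = 0 := by linear_combination f0
      have := (mul_eq_zero.1 h).resolve_left (by positivity)
      linarith
    have a5 : u 5 = 2 := by
      rw [a3, a4] at f5
      have h : (u 0 * u 5 * u 5) * (2 - u 5) = 0 := by linear_combination f5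
      have := (mul_eq_zero.1 h).resolve_left (by positivity)
      linarith
    have a2 : u 2 = u 1 := by
      rw [a3, a4, a5, a0] at f2
      have h : (a + b) * (u 2 - u 1) = 0 := by linear_combination -f2 / 16
      have := (mul_eq_zero.1 h).resolve_left hab.ne'
      linarith
    have a1 : ((a + b) ^ 2 - u 1 ^ 2) * (u 1 - (a - b)) = 0 := by
      rw [a3, a4, a5, a0, a2] at f1
      linear_combination f1 / 4
    have hu' : u = zB a b (u 1) := by
      funext i
      fin_cases i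
      · exact a0
      · rfl
      · exact a2
      · exact a3
      · exact a4
      · exact a5
    rw [mem_insert, mem_insert, mem_singleton]
    rcases mul_eq_zero.1 a1 with h | h
    · have h' : (a + b - u 1) * (a + b + u 1) = 0 := by linear_combination h
      rcases mul_eq_zero.1 h' with h' | h'
      · left
        rw [hu']
        congr 1
        linarith
      · right
        left
        rw [hu']
        congr 1
        linarith
    · right
      right
      rw [hu']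
      congr 1
      linarith
  · intro z hz
    obtain ⟨d, rfl, hd1, hd2, hd3⟩ := hmemZ z hz
    funext i
    fin_cases i
    · simp [FB, zB]
    · simp [FB, zB]; linear_combination 4 * hd2
    · simp [FB, zB]; ring
    · simp [FB, zB]
    · simp [FB, zB]
    · simp [FB, zB]; ring
  · intro z hz v hv
    obtain ⟨d, rfl, hd1, hd2, hd3⟩ := hmemZ z hz
    exact FB_nondeg hab hd3 v hv
  · intro z hz
    obtain ⟨d, rfl, hd1, hd2, hd3⟩ := hmemZ z hz
    rw [abs_le] at hd1
    refine (isOpen_set_pi Set.finite_univ fun i _ ↦ isOpen_Ioo).mem_nhds ?_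
    intro i _
    fin_cases i <;> simp [zB] <;> (try norm_num) <;> (try constructor) <;> linarith
  · rintro t ht ht2 u ⟨hu, l0, l1, l2⟩
    have B := bd hTI ha hb hc habc ht (by linarith) hu
    have hsm := small0 hc (by linarith) ht (by linarith) hu B l0
    obtain ⟨s1, s2, s3⟩ := B.t1
    obtain ⟨s4, s5, s6⟩ := B.t2
    have b0 := B.l0
    have b3 := B.l3
    have b4 := B.l4
    have b5 := B.l5
    have c2 := B.u2
    have c3 := B.u3
    have c4 := B.u4
    have c5 := B.u5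
    simp [psB] at hsm s1 s2 s3 s4 s5 s6 b0 b3 b4 b5 c2 c3 c4 c5 l2
    have w0 : a + b ≤ u 0 := by
      by_contra hcon
      have := mul_lt_mul_of_pos_left (not_le.1 hcon) ht
      linarith
    have w0' : u 0 ≤ 6 := by
      by_contra hcon
      have := mul_lt_mul_of_pos_left (not_le.1 hcon) ht
      linarith
    have w1 : u 1 ≤ u 0 := by
      by_contra hcon
      have := mul_lt_mul_of_pos_left (not_le.1 hcon) ht
      linarith
    have w1' : -u 0 ≤ u 1 := by
      by_contra hcon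
      have := mul_lt_mul_of_pos_left (not_le.1 hcon) ht
      linarith
    have w2 : u 2 ≤ u 0 := by
      by_contra hcon
      have := mul_lt_mul_of_pos_left (not_le.1 hcon) ht
      linarith
    have w2' : -u 0 ≤ u 2 := by
      by_contra hcon
      have := mul_lt_mul_of_pos_left (not_le.1 hcon) ht
      linarith
    refine ⟨⟨?_, ?_⟩, (sol_iff_FB habc ht hu.pos).1 hu⟩
    · intro i
      fin_cases i <;> simp <;> linarith
    · intro i
      fin_cases i <;> simp <;> linarith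
  · intro t ht ht2 u hu h0
    obtain ⟨l0, r0⟩ := hu 0 trivial
    obtain ⟨l1, r1⟩ := hu 1 trivial
    obtain ⟨l2, r2⟩ := hu 2 trivial
    obtain ⟨l3, r3⟩ := hu 3 trivial
    obtain ⟨l4, r4⟩ := hu 4 trivial
    obtain ⟨l5, r5⟩ := hu 5 trivial
    simp at l0 l1 l2 l3 l4 l5 r0 r1 r2 r3 r4 r5
    have k0 : t * u 0 < 1 := by nlinarith
    have k0' : 0 < t * u 0 := mul_pos ht l0
    have k1 : -(7 / 100) ≤ t * u 1 := by nlinarith
    have k2 : -(7 / 100) ≤ t * u 2 := by nlinarith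
    refine ⟨(sol_iff_FB habc ht ?_).2 h0, ?_, ?_, ?_⟩
    · intro i
      fin_cases i <;> simp [psB] <;> linarith
    · simp [psB]
      exact k0
    · simp [psB]
      linarith
    · simp [psB]
      linarith

end Pool.Agent.Helper83.EIN
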