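import Pool.Agent.Helper83.EIN.RegN

/-!
# Project EIN (MP_06d934_gt): the solutions with `x₁₂, x₁₃, x₂₃` small, near a Kähler solution of the
three block problem
-/

set_option autoImplicit false

namespace Pool.Agent.Helper83.EIN

open Finset Topology

/-- The chart; `u = (p, q, κ, w, μ, e)`. -/
def psK (t : ℝ) (u : Fin 6 → ℝ) : Fin 6 → ℝ :=
  ![t * u 0, t * (u 0 + u 1 + t * u 2), t * u 1, 1 + t * (u 5 + u 3 * u 0), 1 + t * u 5,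
    1 + t * (u 5 - (u 3 * u 1 - t * u 4))]

theorem psK_inj {t : ℝ} (ht : 0 < t) : Set.InjOn (psK t) {u | 0 < u 0} := by
  intro u hu w hw h
  rw [Set.mem_ofPred_eq] at hu hw
  have h0 := congrFun h 0
  have h1 := congrFun h 1
  have h2 := congrFun h 2
  have h3 := congrFun h 3
  have h4 := congrFun h 4
  have h5 := congrFun h 5
  have ht' := ht.ne'
  simp [psK, ht'] at h0 h1 h2 h3 h4 h5
  rw [h0, h2] at h1
  simp [ht'] at h1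
  rw [h4, h0] at h3
  simp [hw.ne'] at h3
  rw [h4, h3, h2] at h5
  simp [ht'] at h5
  funext i
  fin_cases i
  · exact h0
  · exact h2
  · exact h1
  · exact h3
  · exact h5
  · exact h4

/-- The coordinates in the chart. -/
noncomputable def coK (t : ℝ) (v : Fin 6 → ℝ) : Fin 6 → ℝ :=
  ![v 0 / t, v 2 / t, (v 1 / t - v 0 / t - v 2 / t) / t, (v 3 - v 4) / v 0,
    ((v 3 - v 4) / v 0 * (v 2 / t) - (v 4 - v 5) / t) / t, (v 4 - 1) / t]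

theorem psK_surj {t : ℝ} (ht : 0 < t) {v : Fin 6 → ℝ} (hv : v 0 ≠ 0) :
    psK t (coK t v) = v := by
  have ht' := ht.ne'
  funext i
  fin_cases i <;> simp [psK, coK] <;> field_simp <;> ring

/-- The numerator of the right side for `p`. -/
def N12 (c t : ℝ) (u : Fin 6 → ℝ) : ℝ :=
  (1 - t) * (u 0 ^ 2 - (u 3 * u 0) ^ 2) * (u 0 + u 1 + t * u 2) * u 1 -
    c * u 2 * (2 * u 0 + t * u 2) * (1 + t * (u 5 + u 3 * u 0)) * (1 + t * u 5)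

/-- The numerator of the right side for `q`. -/
def N23 (a t : ℝ) (u : Fin 6 → ℝ) : ℝ :=
  (1 - t) * (u 1 ^ 2 - (u 3 * u 1 - t * u 4) ^ 2) * (u 0 + u 1 + t * u 2) * u 0 -
    a * u 2 * (2 * u 1 + t * u 2) * (1 + t * u 5) * (1 + t * (u 5 - (u 3 * u 1 - t * u 4)))

/-- The desingularised equations. -/
def FK (a b c t : ℝ) (u : Fin 6 → ℝ) : Fin 6 → ℝ :=
  ![2 * (1 + t * (u 5 + u 3 * u 0)) * (1 + t * u 5) * (u 0 + u 1 + t * u 2) * u 1 *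
      (u 0 - a - b) - t * N12 c t u,
    2 * (1 + t * u 5) * (1 + t * (u 5 - (u 3 * u 1 - t * u 4))) * (u 0 + u 1 + t * u 2) * u 0 *
      (u 1 - b - c) - t * N23 a t u,
    u 2 * (1 + t * (u 5 + u 3 * u 0)) * (1 + t * u 5) * (1 + t * (u 5 - (u 3 * u 1 - t * u 4))) *
      (2 * u 0 * u 1 * (u 0 + u 1 + t * u 2) - b * (2 * u 0 + 2 * u 1 + t * u 2) *
        (u 0 + u 1 + t * u 2) - c * (2 * u 0 + t * u 2) * u 0 - a * (2 * u 1 + t * u 2) * u 1) -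
      (1 - t) * u 0 * u 1 * (u 0 + u 1 + t * u 2) *
        (((u 0 + u 1 + t * u 2) ^ 2 - (u 3 * u 0 + (u 3 * u 1 - t * u 4)) ^ 2) * (1 + t * u 5) -
          (u 0 ^ 2 - (u 3 * u 0) ^ 2) * (1 + t * (u 5 - (u 3 * u 1 - t * u 4))) -
          (u 1 ^ 2 - (u 3 * u 1 - t * u 4) ^ 2) * (1 + t * (u 5 + u 3 * u 0))),
    u 3 * N12 c t u * (1 + t * (u 5 - (u 3 * u 1 - t * u 4))) * u 0 -
      2 * c * (u 0 * u 4 - u 2 * (u 3 * u 1 - t * u 4)) * (1 + t * (u 5 + u 3 * u 0)) *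
        (1 + t * u 5) * (1 + t * (u 5 - (u 3 * u 1 - t * u 4))) * u 0 +
      b * (u 0 ^ 2 - (u 3 * u 0) ^ 2) * (1 + t * (u 5 + u 3 * u 0)) *
        (1 + t * (u 5 - (u 3 * u 1 - t * u 4))) * (u 0 + u 1 + t * u 2) * u 1 +
      c * ((u 0 + u 1 + t * u 2) ^ 2 - (u 3 * u 0 + (u 3 * u 1 - t * u 4)) ^ 2) *
        (1 + t * (u 5 + u 3 * u 0)) * (1 + t * u 5) * u 0 * u 1 -
      a * (u 0 ^ 2 - (u 3 * u 0) ^ 2) * (1 + t * u 5) *
        (1 + t * (u 5 - (u 3 * u 1 - t * u 4))) * (u 0 + u 1 + t * u 2) * u 1 -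
      c * (u 1 ^ 2 - (u 3 * u 1 - t * u 4) ^ 2) * (1 + t * (u 5 + u 3 * u 0)) * (1 + t * u 5) *
        (u 0 + u 1 + t * u 2) * u 0,
    (u 3 * u 1 - t * u 4) * N23 a t u * (1 + t * (u 5 + u 3 * u 0)) +
      2 * a * (u 0 * u 4 + u 2 * (u 3 * u 0)) * (1 + t * (u 5 + u 3 * u 0)) *
        (1 + t * u 5) * (1 + t * (u 5 - (u 3 * u 1 - t * u 4))) * u 1 +
      a * (u 0 ^ 2 - (u 3 * u 0) ^ 2) * (1 + t * u 5) *
        (1 + t * (u 5 - (u 3 * u 1 - t * u 4))) * (u 0 + u 1 + t * u 2) * u 1 +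
      c * (u 1 ^ 2 - (u 3 * u 1 - t * u 4) ^ 2) * (1 + t * (u 5 + u 3 * u 0)) * (1 + t * u 5) *
        (u 0 + u 1 + t * u 2) * u 0 -
      a * ((u 0 + u 1 + t * u 2) ^ 2 - (u 3 * u 0 + (u 3 * u 1 - t * u 4)) ^ 2) *
        (1 + t * u 5) * (1 + t * (u 5 - (u 3 * u 1 - t * u 4))) * u 0 * u 1 -
      b * (u 1 ^ 2 - (u 3 * u 1 - t * u 4) ^ 2) * (1 + t * (u 5 + u 3 * u 0)) *
        (1 + t * (u 5 - (u 3 * u 1 - t * u 4))) * (u 0 + u 1 + t * u 2) * u 0,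
    2 * u 0 * u 1 * (1 + t * (u 5 + u 3 * u 0)) * (1 + t * (u 5 - (u 3 * u 1 - t * u 4))) * u 5 +
      2 * a * (u 3 * u 0) * u 1 * (1 + t * (u 5 + u 3 * u 0)) *
        (1 + t * (u 5 - (u 3 * u 1 - t * u 4))) -
      2 * c * (u 3 * u 1 - t * u 4) * u 0 * (1 + t * (u 5 + u 3 * u 0)) *
        (1 + t * (u 5 - (u 3 * u 1 - t * u 4))) +
      t * (a * (u 0 ^ 2 - (u 3 * u 0) ^ 2) * u 1 * (1 + t * (u 5 - (u 3 * u 1 - t * u 4))) +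
        c * (u 1 ^ 2 - (u 3 * u 1 - t * u 4) ^ 2) * u 0 * (1 + t * (u 5 + u 3 * u 0)))]

theorem FK_cd (a b c : ℝ) : ContDiff ℝ 1 (fun z : ℝ × (Fin 6 → ℝ) ↦ FK a b c z.1 z.2) := by
  unfold FK N12 N23
  rw [contDiff_pi]
  intro i
  fin_cases i <;> simp <;> fun_prop

theorem FA_psK {a b c t : ℝ} (habc : a + b + c = 1) (u : Fin 6 → ℝ) :
    FA a b c t (psK t u) 0 = t ^ 3 * FK a b c t u 0 ∧
    FA a b c t (psK t u) 2 = t ^ 3 * FK a b c t u 1 ∧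
    FA a b c t (psK t u) 4 = t ^ 3 * FK a b c t u 5 ∧
    (1 + t * u 5) * (u 0 + u 1 + t * u 2) * FA a b c t (psK t u) 1 =
      t ^ 3 * ((1 + t * (u 5 - (u 3 * u 1 - t * u 4))) * u 0 * FK a b c t u 0 +
        (1 + t * (u 5 + u 3 * u 0)) * u 1 * FK a b c t u 1) + t ^ 4 * FK a b c t u 2 ∧
    (1 + t * (u 5 + u 3 * u 0)) * u 1 * FA a b c t (psK t u) 3 =
      (u 0 + u 1 + t * u 2) * (1 + t * u 5) * t ^ 3 * FK a b c t u 5 + t ^ 4 * FK a b c t u 3 +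
        t ^ 3 * u 3 * (1 + t * (u 5 - (u 3 * u 1 - t * u 4))) * u 0 * FK a b c t u 0 ∧
    (1 + t * (u 5 - (u 3 * u 1 - t * u 4))) * u 0 * FA a b c t (psK t u) 5 =
      (u 0 + u 1 + t * u 2) * (1 + t * u 5) * t ^ 3 * FK a b c t u 5 - t ^ 4 * FK a b c t u 4 -
        t ^ 3 * (u 3 * u 1 - t * u 4) * (1 + t * (u 5 + u 3 * u 0)) * FK a b c t u 1 := by
  obtain rfl : c = 1 - a - b := by linarith
  refine ⟨?_, ?_, ?_, ?_, ?_, ?_⟩ <;> simp [FA, FK, psK, N12, N23] <;> ring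

end Pool.Agent.Helper83.EIN
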