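import Pool.Agent.Helper83.EIN.RegK

/-!
# Project EIN (MP_06d934_gt): the limit zeros in the chart `psK`
-/

set_option autoImplicit false

namespace Pool.Agent.Helper83.EIN

open Finset Topology

theorem sol_iff_FK {a b c t : ℝ} (habc : a + b + c = 1) (ht : 0 < t) {u : Fin 6 → ℝ}
    (p : ∀ i, 0 < psK t u i) : Sol a b c t (psK t u) ↔ FK a b c t u = 0 := by
  have p0 := p 0
  have p1 := p 1
  have p2 := p 2
  have p3 := p 3
  have p4 := p 4
  have p5 := p 5
  simp only [psK, Matrix.cons_val] at p0 p1 p2 p3 p4 p5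
  have q0 : 0 < u 0 := (mul_pos_iff_of_pos_left ht).1 p0
  have q1 : 0 < u 0 + u 1 + t * u 2 := (mul_pos_iff_of_pos_left ht).1 p1
  have q2 : 0 < u 1 := (mul_pos_iff_of_pos_left ht).1 p2
  obtain ⟨k0, k2, k4, k1, k3, k5⟩ := FA_psK (t := t) habc u
  rw [sol_iff_FA p]
  have ht3 : t ^ 3 ≠ 0 := by positivity
  have ht4 : t ^ 4 ≠ 0 := by positivity
  constructor
  · intro h
    rw [h] at k0 k1 k2 k3 k4 k5
    simp only [Pi.zero_apply, mul_zero] at k0 k1 k2 k3 k4 k5
    have f0 : FK a b c t u 0 = 0 := (mul_eq_zero.1 k0.symm).resolve_left ht3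
    have f1 : FK a b c t u 1 = 0 := (mul_eq_zero.1 k2.symm).resolve_left ht3
    have f5 : FK a b c t u 5 = 0 := (mul_eq_zero.1 k4.symm).resolve_left ht3
    rw [f0, f1] at k1
    rw [f5, f0] at k3
    rw [f5, f1] at k5
    have f2 : FK a b c t u 2 = 0 := by
      have : t ^ 4 * FK a b c t u 2 = 0 := by linarith
      exact (mul_eq_zero.1 this).resolve_left ht4
    have f3 : FK a b c t u 3 = 0 := by
      have : t ^ 4 * FK a b c t u 3 = 0 := by linarith
      exact (mul_eq_zero.1 this).resolve_left ht4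
    have f4 : FK a b c t u 4 = 0 := by
      have : t ^ 4 * FK a b c t u 4 = 0 := by linarith
      exact (mul_eq_zero.1 this).resolve_left ht4
    funext i
    fin_cases i
    · exact f0
    · exact f1
    · exact f2
    · exact f3
    · exact f4
    · exact f5
  · intro h
    rw [h] at k0 k1 k2 k3 k4 k5
    simp only [Pi.zero_apply, mul_zero, add_zero, sub_zero] at k0 k1 k2 k3 k4 k5
    have f1 : FA a b c t (psK t u) 1 = 0 :=
      (mul_eq_zero.1 k1).resolve_left (mul_pos p4 q1).ne'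
    have f3 : FA a b c t (psK t u) 3 = 0 :=
      (mul_eq_zero.1 k3).resolve_left (mul_pos p3 q2).ne'
    have f5 : FA a b c t (psK t u) 5 = 0 :=
      (mul_eq_zero.1 k5).resolve_left (mul_pos p5 q0).ne'
    funext i
    fin_cases i
    · exact k0
    · exact f1
    · exact k2
    · exact f3
    · exact k4
    · exact f5

/-- `G(w) / (1 - w²)` at `w = 0`. -/
def gg (a b c : ℝ) : ℝ := a * (b + c - a) + c * (c - a - b)

/-- The linear coefficient. -/
def hh (a b c : ℝ) : ℝ := a * (a + b) + c * (b + c)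

/-- The value of `κ`. -/
noncomputable def kap (a b c w : ℝ) : ℝ :=
  -((1 - w ^ 2) * (a + b) * (b + c) * (a + b + (b + c))) / (2 * b)

/-- The value of `μ`. -/
noncomputable def muu (a b c w : ℝ) : ℝ :=
  ((1 - w ^ 2) * (b + c) * (a + b + (b + c)) * (w * (a + b) + b + c - a) +
    2 * c * kap a b c w * w * (b + c - (a + b)) / (a + b)) / (2 * c)

/-- The limit zero with parameter `w`. -/
noncomputable def zK (a b c w : ℝ) : Fin 6 → ℝ :=
  ![a + b, b + c, kap a b c w, w, muu a b c w, (c - a) * w]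

theorem kap_eq {a b c : ℝ} (hb : 0 < b) (w : ℝ) :
    2 * b * kap a b c w = -((1 - w ^ 2) * (a + b) * (b + c) * (a + b + (b + c))) := by
  unfold kap
  field_simp

theorem muu_eq {a b c : ℝ} (ha : 0 < a) (hb : 0 < b) (hc : 0 < c) (w : ℝ) :
    2 * c * (a + b) * muu a b c w =
      (1 - w ^ 2) * (b + c) * (a + b) * (a + b + (b + c)) * (w * (a + b) + b + c - a) +
        2 * c * kap a b c w * w * (b + c - (a + b)) := by
  unfold muu
  have : a + b ≠ 0 := by positivity
  field_simp

/-- The equations at `t = 0`. -/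
theorem FK_zero (a b c : ℝ) (u : Fin 6 → ℝ) :
    FK a b c 0 u 0 = 2 * (u 0 + u 1) * u 1 * (u 0 - a - b) ∧
    FK a b c 0 u 1 = 2 * (u 0 + u 1) * u 0 * (u 1 - b - c) ∧
    FK a b c 0 u 2 = u 2 * (2 * u 0 * u 1 * (u 0 + u 1) - 2 * b * (u 0 + u 1) ^ 2 -
      2 * c * u 0 ^ 2 - 2 * a * u 1 ^ 2) - 2 * (1 - u 3 ^ 2) * u 0 ^ 2 * u 1 ^ 2 * (u 0 + u 1) ∧
    FK a b c 0 u 3 = (1 - u 3 ^ 2) * u 0 ^ 2 * u 1 * (u 0 + u 1) * (u 3 * u 0 + b + c - a) -
      2 * c * u 0 ^ 2 * u 4 + 2 * c * u 2 * u 3 * u 0 * (u 1 - u 0) ∧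
    FK a b c 0 u 4 = (1 - u 3 ^ 2) * u 0 * u 1 ^ 2 * (u 0 + u 1) * (u 3 * u 1 + c - b - a) +
      2 * a * u 0 * u 1 * u 4 + 2 * a * u 2 * u 3 * u 1 * (u 0 - u 1) ∧
    FK a b c 0 u 5 = 2 * u 0 * u 1 * (u 5 + a * u 3 - c * u 3) := by
  refine ⟨?_, ?_, ?_, ?_, ?_, ?_⟩ <;> simp [FK, N12, N23] <;> ring

theorem brk {a b c : ℝ} (habc : a + b + c = 1) :
    2 * (a + b) * (b + c) * ((a + b) + (b + c)) - 2 * b * ((a + b) + (b + c)) ^ 2 -
      2 * c * (a + b) ^ 2 - 2 * a * (b + c) ^ 2 = -(4 * b * (a + b) * (b + c)) := by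
  obtain rfl : c = 1 - a - b := by linarith
  ring

theorem FK_zK {a b c w : ℝ} (ha : 0 < a) (hb : 0 < b) (hc : 0 < c) (habc : a + b + c = 1)
    (hw : (1 - w ^ 2) * (w * hh a b c + gg a b c) = 0) : FK a b c 0 (zK a b c w) = 0 := by
  obtain ⟨f0, f1, f2, f3, f4, f5⟩ := FK_zero a b c (zK a b c w)
  have hk := kap_eq (a := a) (c := c) hb w
  have hm := muu_eq ha hb hc w
  have hbr := brk habc
  have hab : 0 < a + b := by linarith
  simp only [zK, Matrix.cons_val] at f0 f1 f2 f3 f4 f5
  funext i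
  fin_cases i
  · show FK a b c 0 (zK a b c w) 0 = 0
    simp only [zK]
    rw [f0]
    ring
  · show FK a b c 0 (zK a b c w) 1 = 0
    simp only [zK]
    rw [f1]
    ring
  · show FK a b c 0 (zK a b c w) 2 = 0
    simp only [zK]
    rw [f2]
    rw [hbr]
    linear_combination -2 * (a + b) * (b + c) * hk
  · show FK a b c 0 (zK a b c w) 3 = 0
    simp only [zK]
    rw [f3]
    linear_combination -(a + b) * hm
  · show FK a b c 0 (zK a b c w) 4 = 0
    simp only [zK]
    rw [f4]
    have : c * (a + b) * ((1 - w ^ 2) * (a + b) * (b + c) ^ 2 * (a + b + (b + c)) *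
        (w * (b + c) + c - b - a) + 2 * a * (a + b) * (b + c) * muu a b c w +
          2 * a * kap a b c w * w * (b + c) * (a + b - (b + c))) = 0 := by
      unfold hh gg at hw
      linear_combination a * (a + b) * (b + c) * hm +
        (a + b) ^ 2 * (b + c) ^ 2 * (a + b + (b + c)) * hw
    exact (mul_eq_zero.1 this).resolve_left (by positivity)
  · show FK a b c 0 (zK a b c w) 5 = 0
    simp only [zK]
    rw [f5]
    ring

/-- All zeros at `t = 0`. -/
theorem FK_zero_only {a b c : ℝ} (ha : 0 < a) (hb : 0 < b) (hc : 0 < c) (habc : a + b + c = 1)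
    {u : Fin 6 → ℝ} (h0 : 0 < u 0) (h1 : 0 < u 1) (h : FK a b c 0 u = 0) :
    u = zK a b c (u 3) ∧ (1 - u 3 ^ 2) * (u 3 * hh a b c + gg a b c) = 0 := by
  obtain ⟨f0, f1, f2, f3, f4, f5⟩ := FK_zero a b c u
  rw [h] at f0 f1 f2 f3 f4 f5
  simp only [Pi.zero_apply] at f0 f1 f2 f3 f4 f5
  have hab : 0 < a + b := by linarith
  have hbc : 0 < b + c := by linarith
  have e0 : u 0 = a + b := by
    have := (mul_eq_zero.1 f0.symm).resolve_left (by positivity)
    linarith
  have e1 : u 1 = b + c := by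
    have := (mul_eq_zero.1 f1.symm).resolve_left (by positivity)
    linarith
  rw [e0, e1] at f2 f3 f4 f5
  have hbr := brk habc
  have hk := kap_eq (a := a) (c := c) hb (u 3)
  have hm := muu_eq ha hb hc (u 3)
  have e2 : u 2 = kap a b c (u 3) := by
    rw [hbr] at f2
    have : (4 * b * (a + b) * (b + c)) * (u 2 - kap a b c (u 3)) = 0 := by
      linear_combination f2 - 2 * (a + b) * (b + c) * hk
    have := (mul_eq_zero.1 this).resolve_left (by positivity)
    linarith
  have e4 : u 4 = muu a b c (u 3) := by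
    rw [e2] at f3
    have : (2 * c * (a + b) ^ 2) * (u 4 - muu a b c (u 3)) = 0 := by
      linear_combination f3 - (a + b) * hm
    have := (mul_eq_zero.1 this).resolve_left (by positivity)
    linarith
  have e5 : u 5 = (c - a) * u 3 := by
    have := (mul_eq_zero.1 f5.symm).resolve_left (by positivity)
    linarith
  refine ⟨?_, ?_⟩
  · funext i
    fin_cases i
    · exact e0
    · exact e1
    · exact e2
    · rfl
    · exact e4
    · exact e5
  · have : ((a + b) ^ 2 * (b + c) ^ 2 * (a + b + (b + c))) *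
        ((1 - u 3 ^ 2) * (u 3 * hh a b c + gg a b c)) = 0 := by
      unfold hh gg
      linear_combination -a * (b + c) * f3 - c * (a + b) * f4
    exact (mul_eq_zero.1 this).resolve_left (by positivity)

theorem FK_nondeg {a b c w : ℝ} (ha : 0 < a) (hb : 0 < b) (hc : 0 < c) (habc : a + b + c = 1)
    (hw : (1 - w ^ 2) * hh a b c - 2 * w * (w * hh a b c + gg a b c) ≠ 0) (v : Fin 6 → ℝ)
    (h : HasDerivAt (fun s : ℝ ↦ FK a b c 0 (zK a b c w + s • v)) 0 0) : v = 0 := by
  have hab : 0 < a + b := by linarith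
  have hbc : 0 < b + c := by linarith
  have hk := kap_eq (a := a) (c := c) hb w
  rw [hasDerivAt_pi] at h
  have h0 := (h 0).deriv
  have h1 := (h 1).deriv
  have h2 := (h 2).deriv
  have h3 := (h 3).deriv
  have h4 := (h 4).deriv
  have h5 := (h 5).deriv
  simp only [(FK_zero a b c _).1] at h0
  simp only [(FK_zero a b c _).2.1] at h1
  simp only [(FK_zero a b c _).2.2.1] at h2
  simp only [(FK_zero a b c _).2.2.2.1] at h3
  simp only [(FK_zero a b c _).2.2.2.2.1] at h4
  simp only [(FK_zero a b c _).2.2.2.2.2] at h5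
  simp only [Pi.add_apply, Pi.smul_apply, smul_eq_mul, zK, Matrix.cons_val, Pi.zero_apply]
    at h0 h1 h2 h3 h4 h5
  set κ := kap a b c w
  set μ := muu a b c w
  simp (disch := fun_prop) only [deriv_fun_add, deriv_fun_sub, deriv_fun_mul, deriv_fun_pow,
    deriv_const, deriv_id''] at h0 h1 h2 h3 h4 h5
  have a0 : v 0 = 0 := by
    have : (2 * (a + b + (b + c)) * (b + c)) * v 0 = 0 := by linear_combination h0
    exact (mul_eq_zero.1 this).resolve_left (by positivity)
  have a1 : v 1 = 0 := by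
    have : (2 * (a + b + (b + c)) * (a + b)) * v 1 = 0 := by linear_combination h1
    exact (mul_eq_zero.1 this).resolve_left (by positivity)
  rw [a0, a1] at h2 h3 h4 h5
  have a3 : v 3 = 0 := by
    have : ((a + b) ^ 2 * (b + c) ^ 2 * (a + b + (b + c)) *
        ((1 - w ^ 2) * hh a b c - 2 * w * (w * hh a b c + gg a b c))) * v 3 = 0 := by
      unfold hh gg
      linear_combination a * (b + c) * h3 + c * (a + b) * h4
    exact (mul_eq_zero.1 this).resolve_left (mul_ne_zero (by positivity) hw)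
  rw [a3] at h2 h3 h4 h5
  have a2 : v 2 = 0 := by
    have hbr := brk habc
    have : (4 * b * (a + b) * (b + c)) * v 2 = 0 := by
      linear_combination -h2 + v 2 * hbr
    exact (mul_eq_zero.1 this).resolve_left (by positivity)
  rw [a2] at h3
  have a4 : v 4 = 0 := by
    have : (2 * c * (a + b) ^ 2) * v 4 = 0 := by linear_combination -h3
    exact (mul_eq_zero.1 this).resolve_left (by positivity)
  have a5 : v 5 = 0 := by
    have : (2 * (a + b) * (b + c)) * v 5 = 0 := by linear_combination h5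
    exact (mul_eq_zero.1 this).resolve_left (by positivity)
  funext i
  fin_cases i
  · exact a0
  · exact a1
  · exact a2
  · exact a3
  · exact a4
  · exact a5

end Pool.Agent.Helper83.EIN
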