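import Pool.Agent.Helper83.EIN.RegK2

/-!
# Project EIN (MP_06d934_gt): three solutions near each Kähler solution of the three block problem
-/

set_option autoImplicit false

namespace Pool.Agent.Helper83.EIN

open Finset Topology

/-- A continuous function is bounded on a box. -/
theorem box_bound {n : ℕ} (f : (Fin n → ℝ) → ℝ) (hf : Continuous f) (M : ℝ) :
    ∃ C, 0 ≤ C ∧ ∀ x : Fin n → ℝ, (∀ i, |x i| ≤ M) → |f x| ≤ C := by
  have hK : IsCompact (Set.Icc (fun _ : Fin n ↦ -M) fun _ ↦ M) := isCompact_Icc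
  obtain ⟨C, hC⟩ := hK.exists_bound_of_continuousOn hf.continuousOn
  refine ⟨|C|, abs_nonneg C, fun x hx ↦ ?_⟩
  refine (hC x ⟨fun i ↦ ?_, fun i ↦ ?_⟩).trans (le_abs_self C)
  · exact (abs_le.1 (hx i)).1
  · exact (abs_le.1 (hx i)).2

/-- The bracket of the equation for `κ`. -/
def Gk (a b c p q U : ℝ) : ℝ :=
  2 * p * q * U - b * (p + q + U) * U - c * (p + U - q) * p - a * (q + U - p) * q

theorem Gk_val {a b c : ℝ} (habc : a + b + c = 1) :
    Gk a b c (a + b) (b + c) (a + b + (b + c)) = -(4 * b * (a + b) * (b + c)) := by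
  rw [← brk habc]
  unfold Gk
  ring

theorem Gk_near {a b c : ℝ} (ha : 0 < a) (hb : 0 < b) (hc : 0 < c) (habc : a + b + c = 1) :
    ∃ r > 0, ∀ p q U : ℝ, |p - (a + b)| < r → |q - (b + c)| < r → |U - (a + b + (b + c))| < r →
      Gk a b c p q U ≤ -(2 * b * (a + b) * (b + c)) := by
  have hcont : Continuous fun x : ℝ × ℝ × ℝ ↦ Gk a b c x.1 x.2.1 x.2.2 := by
    unfold Gk
    fun_prop
  have h1 := hcont.continuousAt (x := (a + b, b + c, a + b + (b + c)))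
  rw [Metric.continuousAt_iff] at h1
  have hpos : 0 < 2 * b * (a + b) * (b + c) := by positivity
  obtain ⟨r, hr, h2⟩ := h1 _ hpos
  refine ⟨r, hr, fun p q U hp hq hU ↦ ?_⟩
  have h3 := h2 (x := (p, q, U)) (by
    rw [Prod.dist_eq, Prod.dist_eq]
    simp only [Real.dist_eq]
    exact max_lt hp (max_lt hq hU))
  simp only [Gk_val habc] at h3
  rw [Real.dist_eq, abs_lt] at h3
  linarith [h3.2]

/-- The right side of the equation for `κ`; `x = (p, q, U, w, β, z₁, z₂, z₃, t)`. -/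
def R2 (x : Fin 9 → ℝ) : ℝ :=
  (1 - x 8) * x 0 * x 1 * x 2 * ((x 2 ^ 2 - (x 3 * x 0 + x 4) ^ 2) * x 6 -
    (x 0 ^ 2 - (x 3 * x 0) ^ 2) * x 7 - (x 1 ^ 2 - x 4 ^ 2) * x 5)

/-- The right side of the equation for `μ`; `x = (p, q, U, w, β, z₁, z₂, z₃, t, κ)`. -/
def R3 (a b c : ℝ) (x : Fin 10 → ℝ) : ℝ :=
  x 3 * ((1 - x 8) * (x 0 ^ 2 - (x 3 * x 0) ^ 2) * x 2 * x 1 -
    c * x 9 * (x 0 + x 2 - x 1) * x 5 * x 6) * x 7 * x 0 +
    2 * c * (x 9 * x 4) * x 5 * x 6 * x 7 * x 0 +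
      b * (x 0 ^ 2 - (x 3 * x 0) ^ 2) * x 5 * x 7 * x 2 * x 1 +
      c * (x 2 ^ 2 - (x 3 * x 0 + x 4) ^ 2) * x 5 * x 6 * x 0 * x 1 -
      a * (x 0 ^ 2 - (x 3 * x 0) ^ 2) * x 6 * x 7 * x 2 * x 1 -
      c * (x 1 ^ 2 - x 4 ^ 2) * x 5 * x 6 * x 2 * x 0

theorem cont_R2 : Continuous R2 := by
  unfold R2
  fun_prop

theorem cont_R3 (a b c : ℝ) : Continuous (R3 a b c) := by
  unfold R3
  fun_prop

/-- The equation for `κ`. -/
theorem FK2_eq (a b c t : ℝ) (u : Fin 6 → ℝ) :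
    FK a b c t u 2 = u 2 * (1 + t * (u 5 + u 3 * u 0)) * (1 + t * u 5) *
      (1 + t * (u 5 - (u 3 * u 1 - t * u 4))) * Gk a b c (u 0) (u 1) (u 0 + u 1 + t * u 2) -
      R2 ![u 0, u 1, u 0 + u 1 + t * u 2, u 3, u 3 * u 1 - t * u 4, 1 + t * (u 5 + u 3 * u 0),
        1 + t * u 5, 1 + t * (u 5 - (u 3 * u 1 - t * u 4)), t] := by
  have e : R2 ![u 0, u 1, u 0 + u 1 + t * u 2, u 3, u 3 * u 1 - t * u 4, 1 + t * (u 5 + u 3 * u 0),
        1 + t * u 5, 1 + t * (u 5 - (u 3 * u 1 - t * u 4)), t] =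
      (1 - t) * u 0 * u 1 * (u 0 + u 1 + t * u 2) *
        (((u 0 + u 1 + t * u 2) ^ 2 - (u 3 * u 0 + (u 3 * u 1 - t * u 4)) ^ 2) * (1 + t * u 5) -
          (u 0 ^ 2 - (u 3 * u 0) ^ 2) * (1 + t * (u 5 - (u 3 * u 1 - t * u 4))) -
          (u 1 ^ 2 - (u 3 * u 1 - t * u 4) ^ 2) * (1 + t * (u 5 + u 3 * u 0))) := rfl
  rw [e]
  simp only [FK, Gk, Matrix.cons_val]
  ring

/-- The equation for `μ`. -/
theorem FK3_eq (a b c t : ℝ) (u : Fin 6 → ℝ) :
    FK a b c t u 3 = R3 a b c ![u 0, u 1, u 0 + u 1 + t * u 2, u 3, u 3 * u 1 - t * u 4,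
        1 + t * (u 5 + u 3 * u 0), 1 + t * u 5, 1 + t * (u 5 - (u 3 * u 1 - t * u 4)), t, u 2] -
      u 4 * (2 * c * u 0 ^ 2 * (1 + t * (u 5 + u 3 * u 0)) * (1 + t * u 5) *
        (1 + t * (u 5 - (u 3 * u 1 - t * u 4)))) := by
  have e : R3 a b c ![u 0, u 1, u 0 + u 1 + t * u 2, u 3, u 3 * u 1 - t * u 4,
        1 + t * (u 5 + u 3 * u 0), 1 + t * u 5, 1 + t * (u 5 - (u 3 * u 1 - t * u 4)), t, u 2] =
      u 3 * ((1 - t) * (u 0 ^ 2 - (u 3 * u 0) ^ 2) * (u 0 + u 1 + t * u 2) * u 1 -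
        c * u 2 * (u 0 + (u 0 + u 1 + t * u 2) - u 1) * (1 + t * (u 5 + u 3 * u 0)) *
          (1 + t * u 5)) * (1 + t * (u 5 - (u 3 * u 1 - t * u 4))) * u 0 +
      2 * c * (u 2 * (u 3 * u 1 - t * u 4)) * (1 + t * (u 5 + u 3 * u 0)) * (1 + t * u 5) *
        (1 + t * (u 5 - (u 3 * u 1 - t * u 4))) * u 0 +
      b * (u 0 ^ 2 - (u 3 * u 0) ^ 2) * (1 + t * (u 5 + u 3 * u 0)) *
        (1 + t * (u 5 - (u 3 * u 1 - t * u 4))) * (u 0 + u 1 + t * u 2) * u 1 +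
      c * ((u 0 + u 1 + t * u 2) ^ 2 - (u 3 * u 0 + (u 3 * u 1 - t * u 4)) ^ 2) *
        (1 + t * (u 5 + u 3 * u 0)) * (1 + t * u 5) * u 0 * u 1 -
      a * (u 0 ^ 2 - (u 3 * u 0) ^ 2) * (1 + t * u 5) *
        (1 + t * (u 5 - (u 3 * u 1 - t * u 4))) * (u 0 + u 1 + t * u 2) * u 1 -
      c * (u 1 ^ 2 - (u 3 * u 1 - t * u 4) ^ 2) * (1 + t * (u 5 + u 3 * u 0)) * (1 + t * u 5) *
        (u 0 + u 1 + t * u 2) * u 0 := rfl
  rw [e]
  simp only [FK, N12, Matrix.cons_val]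
  ring

/-- If `|x| * l ≤ C`, `l ≥ L > 0`, then `|x| ≤ C / L`. -/
theorem abs_le_of_mul {x l L C : ℝ} (hL : 0 < L) (hl : L ≤ l) (h : |x * l| ≤ C) :
    |x| ≤ C / L := by
  rw [le_div_iff₀ hL]
  rw [abs_mul, abs_of_pos (hL.trans_le hl)] at h
  exact (mul_le_mul_of_nonneg_left hl (abs_nonneg x)).trans h

/-- The local data of a solution in the chart. -/
theorem locK {a b c t : ℝ} {u : Fin 6 → ℝ} (ht : 0 < t) (h0 : 0 < u 0)
    (B : Bd a b c t (psK t u)) :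
    |u 3| ≤ 1 ∧ |u 5| ≤ 1 ∧ |u 3 * u 1 - t * u 4| ≤ u 1 ∧
      |t * (u 5 + u 3 * u 0)| ≤ t ∧ |t * u 5| ≤ t ∧ |t * (u 5 - (u 3 * u 1 - t * u 4))| ≤ t := by
  obtain ⟨s1, s2, s3⟩ := B.t2
  obtain ⟨s4, s5, s6⟩ := B.t4
  have l3 := B.l3
  have l4 := B.l4
  have l5 := B.l5
  have m3 := B.u3
  have m4 := B.u4
  have m5 := B.u5
  simp only [psK, Matrix.cons_val] at s1 s2 s3 s4 s5 s6 l3 l4 l5 m3 m4 m5
  have htp := mul_pos ht h0
  have g1 : u 3 ≤ 1 := by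
    by_contra hcon
    have := mul_lt_mul_of_pos_left (not_le.1 hcon) htp
    nlinarith
  have g2 : -1 ≤ u 3 := by
    by_contra hcon
    have := mul_lt_mul_of_pos_left (not_le.1 hcon) htp
    nlinarith
  have g3 : u 5 ≤ 1 := by
    by_contra hcon
    have := mul_lt_mul_of_pos_left (not_le.1 hcon) ht
    nlinarith
  have g4 : -1 ≤ u 5 := by
    by_contra hcon
    have := mul_lt_mul_of_pos_left (not_le.1 hcon) ht
    nlinarith
  have g5 : u 3 * u 1 - t * u 4 ≤ u 1 := by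
    by_contra hcon
    have := mul_lt_mul_of_pos_left (not_le.1 hcon) ht
    nlinarith
  have g6 : -u 1 ≤ u 3 * u 1 - t * u 4 := by
    by_contra hcon
    have := mul_lt_mul_of_pos_left (not_le.1 hcon) ht
    nlinarith
  refine ⟨abs_le.2 ⟨g2, g1⟩, abs_le.2 ⟨g4, g3⟩, abs_le.2 ⟨g6, g5⟩, abs_le.2 ⟨by linarith, by linarith⟩,
    abs_le.2 ⟨by linarith, by linarith⟩, abs_le.2 ⟨by linarith, by linarith⟩⟩

/-- A priori bounds for `κ` and `μ`. -/
theorem boundsK (hTI : TI) {a b c : ℝ} (ha : 0 < a) (hb : 0 < b) (hc : 0 < c)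
    (habc : a + b + c = 1) :
    ∃ r₀ > 0, r₀ ≤ 1 / 2 ∧ r₀ ≤ (a + b) / 2 ∧ r₀ ≤ (b + c) / 2 ∧ ∃ C1 C2 : ℝ, 0 ≤ C1 ∧ 0 ≤ C2 ∧
      ∀ t, 0 < t → t < 1 / 4 → ∀ u : Fin 6 → ℝ, 0 < u 0 → Sol a b c t (psK t u) →
        |u 0 - (a + b)| < r₀ → |u 1 - (b + c)| < r₀ →
          |u 0 + u 1 + t * u 2 - (a + b + (b + c))| < r₀ → |u 2| ≤ C1 ∧ |u 4| ≤ C2 := by
  have hab : 0 < a + b := by linarith
  have hbc : 0 < b + c := by linarith
  obtain ⟨r1, hr1, hG⟩ := Gk_near ha hb hc habc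
  obtain ⟨D1, hD1, hR2⟩ := box_bound R2 cont_R2 4
  set L1 := 1 / 8 * (2 * b * (a + b) * (b + c)) with hL1
  have hL1p : 0 < L1 := by positivity
  set C1 := D1 / L1 with hC1
  have hC1n : 0 ≤ C1 := by positivity
  obtain ⟨D2, hD2, hR3⟩ := box_bound (R3 a b c) (cont_R3 a b c) (max 4 C1)
  set L2 := 1 / 8 * (2 * c * ((a + b) / 2) ^ 2) with hL2
  have hL2p : 0 < L2 := by positivity
  refine ⟨min (min r1 (1 / 2)) (min ((a + b) / 2) ((b + c) / 2)), by positivity,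
    (min_le_left _ _).trans (min_le_right _ _), (min_le_right _ _).trans (min_le_left _ _),
    (min_le_right _ _).trans (min_le_right _ _), C1, D2 / L2, hC1n, by positivity, ?_⟩
  intro t ht ht4 u hu0 hS hp hq hU
  have B := bd hTI ha hb hc habc ht (by linarith) hS
  obtain ⟨w1, w2, w3, w4, w5, w6⟩ := locK ht hu0 B
  have hz := (sol_iff_FK habc ht hS.pos).1 hS
  have hp1 := hp.trans_le ((min_le_left _ _).trans (min_le_left _ _))
  have hq1 := hq.trans_le ((min_le_left _ _).trans (min_le_left _ _))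
  have hU1 := hU.trans_le ((min_le_left _ _).trans (min_le_left _ _))
  have hp2 := hp.trans_le ((min_le_left _ _).trans (min_le_right _ _))
  have hq2 := hq.trans_le ((min_le_left _ _).trans (min_le_right _ _))
  have hU2 := hU.trans_le ((min_le_left _ _).trans (min_le_right _ _))
  have hp3 := hp.trans_le ((min_le_right _ _).trans (min_le_left _ _))
  have hG1 := hG _ _ _ hp1 hq1 hU1
  rw [abs_lt] at hp2 hq2 hU2 hp3
  rw [abs_le] at w1 w2 w3 w4 w5 w6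
  set z1 := 1 + t * (u 5 + u 3 * u 0) with hz1
  set z2 := 1 + t * u 5 with hz2
  set z3 := 1 + t * (u 5 - (u 3 * u 1 - t * u 4)) with hz3
  have b1 : 1 / 2 ≤ z1 := by rw [hz1]; linarith [w4.1]
  have b2 : 1 / 2 ≤ z2 := by rw [hz2]; linarith [w5.1]
  have b3 : 1 / 2 ≤ z3 := by rw [hz3]; linarith [w6.1]
  have b1' : z1 ≤ 2 := by rw [hz1]; linarith [w4.2]
  have b2' : z2 ≤ 2 := by rw [hz2]; linarith [w5.2]
  have b3' : z3 ≤ 2 := by rw [hz3]; linarith [w6.2]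
  have hzz : 1 / 8 ≤ z1 * z2 * z3 := by
    have h12 : 1 / 4 ≤ z1 * z2 := by nlinarith
    nlinarith
  -- κ
  have f2 := congrFun hz 2
  rw [FK2_eq, Pi.zero_apply, ← hz1, ← hz2, ← hz3] at f2
  have k1 : |u 2| ≤ C1 := by
    have hb1 : |R2 ![u 0, u 1, u 0 + u 1 + t * u 2, u 3, u 3 * u 1 - t * u 4, z1, z2, z3, t]| ≤
        D1 := by
      apply hR2
      intro i
      rw [abs_le]
      fin_cases i <;> simp <;> constructor <;> linarith [w1.1, w1.2, w3.1, w3.2]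
    refine abs_le_of_mul (l := z1 * z2 * z3 * -(Gk a b c (u 0) (u 1) (u 0 + u 1 + t * u 2))) hL1p
      ?_ ?_
    · rw [hL1]
      exact mul_le_mul hzz (by linarith) (by positivity) (by linarith)
    · have : u 2 * (z1 * z2 * z3 * -(Gk a b c (u 0) (u 1) (u 0 + u 1 + t * u 2))) =
          -(R2 ![u 0, u 1, u 0 + u 1 + t * u 2, u 3, u 3 * u 1 - t * u 4, z1, z2, z3, t]) := by
        linear_combination -f2
      rw [this, abs_neg]
      exact hb1
  refine ⟨k1, ?_⟩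
  have f3 := congrFun hz 3
  rw [FK3_eq, Pi.zero_apply, ← hz1, ← hz2, ← hz3] at f3
  have hb2 : |R3 a b c ![u 0, u 1, u 0 + u 1 + t * u 2, u 3, u 3 * u 1 - t * u 4, z1, z2, z3, t,
      u 2]| ≤ D2 := by
    apply hR3
    have key : ∀ x : ℝ, |x| ≤ 4 → |x| ≤ max 4 C1 := fun x hx ↦ hx.trans (le_max_left _ _)
    intro i
    fin_cases i
    · apply key; rw [abs_le]; simp; constructor <;> linarith
    · apply key; rw [abs_le]; simp; constructor <;> linarith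
    · apply key; rw [abs_le]; simp; constructor <;> linarith
    · apply key; rw [abs_le]; simp; constructor <;> linarith [w1.1, w1.2]
    · apply key; rw [abs_le]; simp; constructor <;> linarith [w3.1, w3.2]
    · apply key; rw [abs_le]; simp; constructor <;> linarith
    · apply key; rw [abs_le]; simp; constructor <;> linarith
    · apply key; rw [abs_le]; simp; constructor <;> linarith
    · apply key; rw [abs_le]; simp; constructor <;> linarith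
    · exact k1.trans (le_max_right _ _)
  refine abs_le_of_mul (l := 2 * c * u 0 ^ 2 * z1 * z2 * z3) hL2p ?_ ?_
  · have e1 : 2 * c * u 0 ^ 2 * z1 * z2 * z3 = (z1 * z2 * z3) * (2 * c * u 0 ^ 2) := by ring
    rw [e1, hL2]
    refine mul_le_mul hzz ?_ (by positivity) (by linarith)
    refine mul_le_mul_of_nonneg_left ?_ (by linarith)
    exact pow_le_pow_left₀ (by positivity) (by linarith [hp3.1]) 2
  · have : u 4 * (2 * c * u 0 ^ 2 * z1 * z2 * z3) = R3 a b c ![u 0, u 1, u 0 + u 1 + t * u 2, u 3,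
        u 3 * u 1 - t * u 4, z1, z2, z3, t, u 2] := by
      linear_combination -f3
    rw [this]
    exact hb2

end Pool.Agent.Helper83.EIN
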