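import Pool.Agent.Helper83.EIN.RegK3

/-!
# Project EIN (MP_06d934_gt): three solutions near each Kähler solution of the three block problem (end)
-/

set_option autoImplicit false

namespace Pool.Agent.Helper83.EIN

open Finset Topology

/-- The third root. -/
noncomputable def w0 (a b c : ℝ) : ℝ := -gg a b c / hh a b c

theorem hh_pos {a b c : ℝ} (ha : 0 < a) (hb : 0 < b) (hc : 0 < c) : 0 < hh a b c := by
  unfold hh
  positivity

theorem w0_lt {a b c : ℝ} (ha : 0 < a) (hb : 0 < b) (hc : 0 < c) :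
    -1 < w0 a b c ∧ w0 a b c < 1 := by
  have h := hh_pos ha hb hc
  unfold w0
  constructor
  · rw [lt_div_iff₀ h]
    unfold hh gg
    nlinarith [mul_pos ha hb, mul_pos hb hc, mul_pos ha ha]
  · rw [div_lt_iff₀ h]
    unfold hh gg
    nlinarith [mul_pos ha hb, mul_pos hb hc, mul_pos hc hc]

theorem w0_eq {a b c : ℝ} (ha : 0 < a) (hb : 0 < b) (hc : 0 < c) :
    w0 a b c * hh a b c + gg a b c = 0 := by
  have h := (hh_pos ha hb hc).ne'
  unfold w0
  field_simp
  ring

/-- **G_K**: exactly three solutions near a Kähler solution of the three block problem. -/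
theorem gK (hTI : TI) {a b c : ℝ} (ha : 0 < a) (hb : 0 < b) (hc : 0 < c) (habc : a + b + c = 1) :
    ∃ r₀ > 0, ∀ r, 0 < r → r ≤ r₀ → ∃ ε > 0, ∀ t, 0 < t → t < ε →
      {v : Fin 6 → ℝ | Sol a b c t v ∧ |v 0 / t - (a + b)| < r ∧
        |v 1 / t - (a + 2 * b + c)| < r ∧ |v 2 / t - (b + c)| < r}.ncard = 3 := by
  classical
  have hab : 0 < a + b := by linarith
  have hbc : 0 < b + c := by linarith
  have hpq : a + 2 * b + c = a + b + (b + c) := by ring
  obtain ⟨r₀, hr₀, hr1, hr2, hr3, C1, C2, hC1, hC2, hbd⟩ := boundsK hTI ha hb hc habc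
  refine ⟨r₀, hr₀, fun r hr hrr ↦ ?_⟩
  have hZ3 : ({zK a b c 1, zK a b c (-1), zK a b c (w0 a b c)} :
      Finset (Fin 6 → ℝ)).card = 3 := by
    obtain ⟨h1, h2⟩ := w0_lt ha hb hc
    rw [card_eq_three]
    refine ⟨_, _, _, ?_, ?_, ?_, rfl⟩
    · intro h
      have := congrFun h 3
      simp only [zK, Matrix.cons_val] at this
      norm_num at this
    · intro h
      have := congrFun h 3
      simp only [zK, Matrix.cons_val] at this
      linarith
    · intro h
      have := congrFun h 3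
      simp only [zK, Matrix.cons_val] at this
      linarith
  have hmemZ : ∀ z ∈ ({zK a b c 1, zK a b c (-1), zK a b c (w0 a b c)} :
      Finset (Fin 6 → ℝ)), ∃ w, z = zK a b c w ∧ |w| ≤ 1 ∧
        (1 - w ^ 2) * (w * hh a b c + gg a b c) = 0 ∧
        (1 - w ^ 2) * hh a b c - 2 * w * (w * hh a b c + gg a b c) ≠ 0 := by
    intro z hz
    rw [mem_insert, mem_insert, mem_singleton] at hz
    obtain ⟨h1, h2⟩ := w0_lt ha hb hc
    have hhp := hh_pos ha hb hc
    have hw := w0_eq ha hb hc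
    rcases hz with rfl | rfl | rfl
    · refine ⟨1, rfl, by simp, by ring, ?_⟩
      have : (1 - (1 : ℝ) ^ 2) * hh a b c - 2 * 1 * (1 * hh a b c + gg a b c) =
          -(4 * a * b + 4 * c ^ 2) := by
        unfold hh gg
        ring
      rw [this]
      have : 0 < 4 * a * b + 4 * c ^ 2 := by positivity
      linarith
    · refine ⟨-1, rfl, by simp, by ring, ?_⟩
      have : (1 - (-1 : ℝ) ^ 2) * hh a b c - 2 * (-1) * (-1 * hh a b c + gg a b c) =
          -(4 * a ^ 2 + 4 * b * c) := by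
        unfold hh gg
        ring
      rw [this]
      have : 0 < 4 * a ^ 2 + 4 * b * c := by positivity
      linarith
    · refine ⟨w0 a b c, rfl, abs_le.2 ⟨h1.le, h2.le⟩, by rw [hw, mul_zero], ?_⟩
      rw [hw, mul_zero, sub_zero]
      have : 0 < 1 - w0 a b c ^ 2 := by nlinarith
      positivity
  -- the size of the limit zeros
  obtain ⟨M, hM, hMz⟩ : ∃ M : ℝ, 0 < M ∧ ∀ z ∈ ({zK a b c 1, zK a b c (-1),
      zK a b c (w0 a b c)} : Finset (Fin 6 → ℝ)), |z 2| < M ∧ |z 4| < M := by
    refine ⟨∑ z ∈ ({zK a b c 1, zK a b c (-1), zK a b c (w0 a b c)} : Finset (Fin 6 → ℝ)),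
      (|z 2| + |z 4|) + 1, ?_, fun z hz ↦ ?_⟩
    · have : 0 ≤ ∑ z ∈ ({zK a b c 1, zK a b c (-1), zK a b c (w0 a b c)} : Finset (Fin 6 → ℝ)),
        (|z 2| + |z 4|) := sum_nonneg fun z _ ↦ by positivity
      linarith
    · have h1 : |z 2| + |z 4| ≤ ∑ z ∈ ({zK a b c 1, zK a b c (-1), zK a b c (w0 a b c)} :
          Finset (Fin 6 → ℝ)), (|z 2| + |z 4|) :=
        single_le_sum (f := fun z : Fin 6 → ℝ ↦ |z 2| + |z 4|) (fun z _ ↦ by positivity) hz
      have h2 := abs_nonneg (z 2)
      have h3 := abs_nonneg (z 4)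
      constructor <;> linarith
  have hK : IsCompact (Set.Icc (![a + b - r, b + c - r, -C1, -1, -C2, -1] : Fin 6 → ℝ)
      ![a + b + r, b + c + r, C1, 1, C2, 1]) := isCompact_Icc
  suffices hcount : ∃ ε > 0, ∀ t, 0 < t → t < ε →
      {u | 0 < u 0 ∧ Sol a b c t (psK t u) ∧ |psK t u 0 / t - (a + b)| < r ∧
        |psK t u 1 / t - (a + 2 * b + c)| < r ∧ |psK t u 2 / t - (b + c)| < r}.ncard =
        ({zK a b c 1, zK a b c (-1), zK a b c (w0 a b c)} : Finset (Fin 6 → ℝ)).card by
    obtain ⟨ε, hε, hcount⟩ := hcount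
    refine ⟨ε, hε, fun t ht0 htε ↦ ?_⟩
    have h1 : {v : Fin 6 → ℝ | Sol a b c t v ∧ |v 0 / t - (a + b)| < r ∧
        |v 1 / t - (a + 2 * b + c)| < r ∧ |v 2 / t - (b + c)| < r} =
        psK t '' {u | 0 < u 0 ∧ Sol a b c t (psK t u) ∧ |psK t u 0 / t - (a + b)| < r ∧
        |psK t u 1 / t - (a + 2 * b + c)| < r ∧ |psK t u 2 / t - (b + c)| < r} := by
      ext v
      constructor
      · intro hv
        have hv0 := hv.1.pos 0
        refine ⟨coK t v, ⟨?_, ?_⟩, psK_surj ht0 hv0.ne'⟩
        · show 0 < v 0 / t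
          positivity
        · rw [psK_surj ht0 hv0.ne']
          exact hv
      · rintro ⟨u, ⟨-, hu⟩, rfl⟩
        exact hu
    rw [h1, Set.InjOn.ncard_image, hcount t ht0 htε, hZ3]
    exact (psK_inj ht0).mono fun u hu ↦ hu.1
  refine count_set (FK a b c) (FK_cd a b c) _ hK
    {zK a b c 1, zK a b c (-1), zK a b c (w0 a b c)} ?_ ?_ ?_
    (Set.pi Set.univ fun i ↦ Set.Ioo ((![a + b - r / 4, b + c - r / 4, -M, -2, -M, -2] : Fin 6 → ℝ) i)
      ((![a + b + r / 4, b + c + r / 4, M, 2, M, 2] : Fin 6 → ℝ) i)) ?_ _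
    (min (1 / 20) (min (r / (4 * M)) (1 / M))) (by positivity) ?_ ?_
  · intro u hu h0
    rw [Set.mem_Icc, Pi.le_def, Pi.le_def] at hu
    have l0 := hu.1 0
    have l1 := hu.1 1
    simp only [Matrix.cons_val] at l0 l1
    obtain ⟨h1, h2⟩ := FK_zero_only ha hb hc habc (u := u) (by linarith) (by linarith) h0
    rw [mem_insert, mem_insert, mem_singleton]
    rcases mul_eq_zero.1 h2 with h3 | h3
    · have h4 : (1 - u 3) * (1 + u 3) = 0 := by linear_combination h3
      rcases mul_eq_zero.1 h4 with h5 | h5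
      · left
        rw [h1]
        congr 1
        linarith
      · right
        left
        rw [h1]
        congr 1
        linarith
    · right
      right
      rw [h1]
      congr 1
      have h5 := w0_eq ha hb hc
      have h6 : (u 3 - w0 a b c) * hh a b c = 0 := by linear_combination h3 - h5
      have := (mul_eq_zero.1 h6).resolve_right (hh_pos ha hb hc).ne'
      linarith
  · intro z hz
    obtain ⟨w, rfl, -, hw, -⟩ := hmemZ z hz
    exact FK_zK ha hb hc habc hw
  · intro z hz v hv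
    obtain ⟨w, rfl, -, -, hw⟩ := hmemZ z hz
    exact FK_nondeg ha hb hc habc hw v hv
  · intro z hz
    obtain ⟨m2, m4⟩ := hMz z hz
    obtain ⟨w, rfl, hw1, -, -⟩ := hmemZ z hz
    rw [abs_lt] at m2 m4
    rw [abs_le] at hw1
    refine (isOpen_set_pi Set.finite_univ fun i _ ↦ isOpen_Ioo).mem_nhds ?_
    have hca : |c - a| < 1 := by rw [abs_lt]; constructor <;> linarith
    have h5 : |(c - a) * w| ≤ 1 := by
      rw [abs_mul]
      have : |w| ≤ 1 := abs_le.2 hw1
      exact mul_le_one₀ hca.le (abs_nonneg w) this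
    rw [abs_le] at h5
    intro i _
    fin_cases i
    · simp only [zK]; constructor <;> simp <;> linarith
    · simp only [zK]; constructor <;> simp <;> linarith
    · exact m2
    · simp only [zK]; constructor <;> simp <;> linarith
    · exact m4
    · simp only [zK]; constructor <;> simp <;> linarith
  · rintro t ht ht2 u ⟨hu0, hS, g0, g1, g2⟩
    have ht4 : t < 1 / 4 := by
      have := ht2.trans_le (min_le_left _ _)
      linarith
    have B := bd hTI ha hb hc habc ht (by linarith) hS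
    obtain ⟨x1, x2, x3, x4, x5, x6⟩ := locK ht hu0 B
    have ht' := ht.ne'
    have e0 : psK t u 0 / t = u 0 := by simp only [psK, Matrix.cons_val]; field_simp
    have e1 : psK t u 1 / t = u 0 + u 1 + t * u 2 := by
      simp only [psK, Matrix.cons_val]; field_simp
    have e2 : psK t u 2 / t = u 1 := by simp only [psK, Matrix.cons_val]; field_simp
    rw [e0] at g0
    rw [e1, hpq] at g1
    rw [e2] at g2
    obtain ⟨k1, k2⟩ := hbd t ht ht4 u hu0 hS (g0.trans_le hrr) (g2.trans_le hrr) (g1.trans_le hrr)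
    rw [abs_le] at x1 x2 k1 k2
    rw [abs_lt] at g0 g2
    refine ⟨⟨?_, ?_⟩, (sol_iff_FK habc ht hS.pos).1 hS⟩
    · intro i
      fin_cases i <;> simp <;> linarith [x1.1, x2.1, k1.1, k2.1, g0.1, g2.1]
    · intro i
      fin_cases i <;> simp <;> linarith [x1.2, x2.2, k1.2, k2.2, g0.2, g2.2]
  · intro t ht ht2 u hu h0
    have s1 := ht2.trans_le (min_le_left _ _)
    have s2 := ht2.trans_le ((min_le_right _ _).trans (min_le_left _ _))
    have s3 := ht2.trans_le ((min_le_right _ _).trans (min_le_right _ _))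
    have s2' : t * M ≤ r / 4 := by
      rw [lt_div_iff₀ (by positivity)] at s2
      linarith
    have s3' : t * M ≤ 1 := by
      rw [lt_div_iff₀ hM] at s3
      exact s3.le
    obtain ⟨l0, m0⟩ := hu 0 trivial
    obtain ⟨l1, m1⟩ := hu 1 trivial
    obtain ⟨l2, m2⟩ := hu 2 trivial
    obtain ⟨l3, m3⟩ := hu 3 trivial
    obtain ⟨l4, m4⟩ := hu 4 trivial
    obtain ⟨l5, m5⟩ := hu 5 trivial
    simp only [Matrix.cons_val] at l0 l1 l2 l3 l4 l5 m0 m1 m2 m3 m4 m5
    have q0 : 0 < u 0 := by linarith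
    have q1 : 0 < u 1 := by linarith
    have q0' : u 0 < 2 := by linarith
    have q1' : u 1 < 2 := by linarith
    have k2 : |t * u 2| ≤ r / 4 := by
      rw [abs_mul, abs_of_pos ht]
      exact (mul_le_mul_of_nonneg_left (abs_le.2 ⟨l2.le, m2.le⟩) ht.le).trans s2'
    have k4 : |t * u 4| ≤ 1 := by
      rw [abs_mul, abs_of_pos ht]
      exact (mul_le_mul_of_nonneg_left (abs_le.2 ⟨l4.le, m4.le⟩) ht.le).trans s3'
    have n1 : |u 3 * u 0| ≤ 4 := by
      rw [abs_mul, abs_of_pos q0]
      have : |u 3| ≤ 2 := abs_le.2 ⟨l3.le, m3.le⟩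
      nlinarith [abs_nonneg (u 3)]
    have n2 : |u 3 * u 1| ≤ 4 := by
      rw [abs_mul, abs_of_pos q1]
      have : |u 3| ≤ 2 := abs_le.2 ⟨l3.le, m3.le⟩
      nlinarith [abs_nonneg (u 3)]
    rw [abs_le] at k2 k4 n1 n2
    have hU : 0 < u 0 + u 1 + t * u 2 := by linarith [k2.1]
    have hmul : ∀ x : ℝ, -10 < x → 0 < 1 + t * x := by
      intro x hx
      nlinarith
    have ht' := ht.ne'
    have e0 : psK t u 0 / t = u 0 := by simp only [psK, Matrix.cons_val]; field_simp
    have e1 : psK t u 1 / t = u 0 + u 1 + t * u 2 := by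
      simp only [psK, Matrix.cons_val]; field_simp
    have e2 : psK t u 2 / t = u 1 := by simp only [psK, Matrix.cons_val]; field_simp
    refine ⟨q0, (sol_iff_FK habc ht ?_).2 h0, ?_, ?_, ?_⟩
    · intro i
      fin_cases i
      · exact mul_pos ht q0
      · exact mul_pos ht hU
      · exact mul_pos ht q1
      · exact hmul _ (by linarith [n1.1])
      · exact hmul _ (by linarith)
      · exact hmul _ (by linarith [n2.2, k4.1])
    · rw [e0, abs_lt]
      constructor <;> linarith
    · rw [e1, hpq, abs_lt]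
      constructor <;> linarith [k2.1, k2.2]
    · rw [e2, abs_lt]
      constructor <;> linarith

end Pool.Agent.Helper83.EIN
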