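import Pool.Agent.Helper83.EIN.RegB

/-!
# Project EIN (MP_06d934_gt): the solutions with `x₁₂, x₁₃, x₂₃` small; the three block problem and
the solutions near its solution which is not Kähler
-/

set_option autoImplicit false

namespace Pool.Agent.Helper83.EIN

open Finset Topology

/-- The Einstein equations for three blocks of relative sizes `a, b, c`. -/
structure E3 (a b c x y z : ℝ) : Prop where
  e0 : 2 * y * z * (x - 1) + c * (y ^ 2 + z ^ 2 - x ^ 2) = 0
  e1 : 2 * x * z * (y - 1) + b * (x ^ 2 + z ^ 2 - y ^ 2) = 0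
  e2 : 2 * x * y * (z - 1) + a * (x ^ 2 + y ^ 2 - z ^ 2) = 0

/-- The scale of the solution which is not Kähler. -/
noncomputable def sc (a b c : ℝ) : ℝ := 1 + 2 * a * b * c / ((a + b) * (a + c) * (b + c))

theorem sc_eq {a b c : ℝ} (ha : 0 < a) (hb : 0 < b) (hc : 0 < c) :
    sc a b c * ((a + b) * (a + c) * (b + c)) = (a + b) * (a + c) * (b + c) + 2 * a * b * c := by
  unfold sc
  have : (a + b) * (a + c) * (b + c) ≠ 0 := by positivity
  field_simp

theorem one_lt_sc {a b c : ℝ} (ha : 0 < a) (hb : 0 < b) (hc : 0 < c) : 1 < sc a b c := by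
  unfold sc
  have : 0 < 2 * a * b * c / ((a + b) * (a + c) * (b + c)) := by positivity
  linarith

theorem scale_eq {a b c k x y z : ℝ} (hx : 0 < x) (hy : 0 < y) (hz : 0 < z) (hk : 0 < k)
    (h : E3 a b c (k * x) (k * y) (k * z)) {l : ℝ} (hl : 0 < l)
    (h' : E3 a b c (l * x) (l * y) (l * z)) : k = l := by
  have h1 := h.e0
  have h2 := h'.e0
  have h3 : 2 * y * z * (k * x - 1) + c * (y ^ 2 + z ^ 2 - x ^ 2) = 0 := by
    have : k ^ 2 * (2 * y * z * (k * x - 1) + c * (y ^ 2 + z ^ 2 - x ^ 2)) = 0 := by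
      linear_combination h1
    exact (mul_eq_zero.1 this).resolve_left (by positivity)
  have h4 : 2 * y * z * (l * x - 1) + c * (y ^ 2 + z ^ 2 - x ^ 2) = 0 := by
    have : l ^ 2 * (2 * y * z * (l * x - 1) + c * (y ^ 2 + z ^ 2 - x ^ 2)) = 0 := by
      linear_combination h2
    exact (mul_eq_zero.1 this).resolve_left (by positivity)
  have h5 : (2 * x * y * z) * (k - l) = 0 := by linear_combination h3 - h4
  have := (mul_eq_zero.1 h5).resolve_left (by positivity)
  linarith

theorem e3_n {a b c : ℝ} (ha : 0 < a) (hb : 0 < b) (hc : 0 < c) (habc : a + b + c = 1) :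
    E3 a b c (sc a b c * (a + b)) (sc a b c * (a + c)) (sc a b c * (b + c)) := by
  have hs := sc_eq ha hb hc
  set s := sc a b c
  obtain rfl : c = 1 - a - b := by linarith
  constructor
  · linear_combination 2 * s ^ 2 * hs
  · linear_combination 2 * s ^ 2 * hs
  · linear_combination 2 * s ^ 2 * hs

theorem e3_b {a b c : ℝ} (habc : a + b + c = 1) : E3 a b c (a + b) (a + 2 * b + c) (b + c) := by
  obtain rfl : c = 1 - a - b := by linarith
  constructor <;> ring

theorem e3_a {a b c : ℝ} (habc : a + b + c = 1) : E3 a b c (a + b) (a + c) (2 * a + b + c) := by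
  obtain rfl : c = 1 - a - b := by linarith
  constructor <;> ring

theorem e3_c {a b c : ℝ} (habc : a + b + c = 1) : E3 a b c (a + b + 2 * c) (a + c) (b + c) := by
  obtain rfl : c = 1 - a - b := by linarith
  constructor <;> ring

/-- The classification for three blocks. -/
theorem three {a b c x y z : ℝ} (ha : 0 < a) (hb : 0 < b) (hc : 0 < c) (habc : a + b + c = 1)
    (hx : 0 < x) (h : E3 a b c x y z) :
    (x = sc a b c * (a + b) ∧ y = sc a b c * (a + c) ∧ z = sc a b c * (b + c)) ∨
    (x = a + b ∧ y = a + 2 * b + c ∧ z = b + c) ∨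
    (x = a + b ∧ y = a + c ∧ z = 2 * a + b + c) ∨
    (x = a + b + 2 * c ∧ y = a + c ∧ z = b + c) := by
  have h0 := h.e0
  have h1 := h.e1
  have h2 := h.e2
  have p1 : ((b + c) * x - (a + b) * z) * (a * x + c * z - y) = 0 := by
    obtain rfl : c = 1 - a - b := by linarith
    linear_combination (a * (a + b) - (1 - a - b) * (b + (1 - a - b))) / 2 * (h1 - h0) +
      (b + (1 - a - b)) / 2 * (h2 - h0)
  have p2 : ((a + c) * x - (a + b) * y) * (b * x + c * y - z) = 0 := by
    obtain rfl : c = 1 - a - b := by linarith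
    linear_combination (b * (a + b) - (1 - a - b) * (a + (1 - a - b))) / 2 * (h2 - h0) +
      (a + (1 - a - b)) / 2 * (h1 - h0)
  have hab : 0 < a + b := by linarith
  rcases mul_eq_zero.1 p1 with q1 | q1 <;> rcases mul_eq_zero.1 p2 with q2 | q2
  · left
    set k := x / (a + b) with hk
    have hkp : 0 < k := by positivity
    have ex : x = k * (a + b) := by rw [hk]; field_simp
    have ey : y = k * (a + c) := by
      have : (a + b) * (y - k * (a + c)) = 0 := by linear_combination -q2 + (a + c) * ex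
      have := (mul_eq_zero.1 this).resolve_left hab.ne'
      linarith
    have ez : z = k * (b + c) := by
      have : (a + b) * (z - k * (b + c)) = 0 := by linear_combination -q1 + (b + c) * ex
      have := (mul_eq_zero.1 this).resolve_left hab.ne'
      linarith
    have hs0 : 0 < sc a b c := by linarith [one_lt_sc ha hb hc]
    have hks : k = sc a b c := by
      refine scale_eq (a := a) (b := b) (c := c) (x := a + b) (y := a + c) (z := b + c) hab
        (by linarith) (by linarith) hkp ?_ hs0 (e3_n ha hb hc habc)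
      rw [← ex, ← ey, ← ez]
      exact h
    rw [← hks]
    exact ⟨ex, ey, ez⟩
  · right
    left
    set k := x / (a + b) with hk
    have hkp : 0 < k := by positivity
    have ex : x = k * (a + b) := by rw [hk]; field_simp
    have ez : z = k * (b + c) := by
      have : (a + b) * (z - k * (b + c)) = 0 := by linear_combination -q1 + (b + c) * ex
      have := (mul_eq_zero.1 this).resolve_left hab.ne'
      linarith
    have ey : y = k * (a + 2 * b + c) := by
      have : c * (y - k * (a + 2 * b + c)) = 0 := by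
        rw [ex, ez] at q2
        obtain rfl : a = 1 - b - c := by linarith
        linear_combination q2
      have := (mul_eq_zero.1 this).resolve_left hc.ne'
      linarith
    have hks : k = 1 := by
      refine scale_eq (a := a) (b := b) (c := c) (x := a + b) (y := a + 2 * b + c) (z := b + c) hab
        (by linarith) (by linarith) hkp ?_ one_pos ?_
      · rw [← ex, ← ey, ← ez]
        exact h
      · rw [one_mul, one_mul, one_mul]
        exact e3_b habc
    rw [hks, one_mul] at ex ey ez
    exact ⟨ex, ey, ez⟩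
  · right
    right
    left
    set k := x / (a + b) with hk
    have hkp : 0 < k := by positivity
    have ex : x = k * (a + b) := by rw [hk]; field_simp
    have ey : y = k * (a + c) := by
      have : (a + b) * (y - k * (a + c)) = 0 := by linear_combination -q2 + (a + c) * ex
      have := (mul_eq_zero.1 this).resolve_left hab.ne'
      linarith
    have ez : z = k * (2 * a + b + c) := by
      have : c * (z - k * (2 * a + b + c)) = 0 := by
        rw [ex, ey] at q1
        obtain rfl : b = 1 - a - c := by linarith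
        linear_combination q1
      have := (mul_eq_zero.1 this).resolve_left hc.ne'
      linarith
    have hks : k = 1 := by
      refine scale_eq (a := a) (b := b) (c := c) (x := a + b) (y := a + c) (z := 2 * a + b + c) hab
        (by linarith) (by linarith) hkp ?_ one_pos ?_
      · rw [← ex, ← ey, ← ez]
        exact h
      · rw [one_mul, one_mul, one_mul]
        exact e3_a habc
    rw [hks, one_mul] at ex ey ez
    exact ⟨ex, ey, ez⟩
  · right
    right
    right
    have hc1 : c < 1 := by linarith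
    set k := x / (1 + c) with hk
    have hkp : 0 < k := by positivity
    have ex : x = k * (a + b + 2 * c) := by
      rw [hk]
      have : a + b + 2 * c = 1 + c := by linarith
      rw [this]
      field_simp
    have ey : y = k * (a + c) := by
      have : (1 - c) * (1 + c) * (y - k * (a + c)) = 0 := by
        rw [ex] at q1 q2
        obtain rfl : b = 1 - a - c := by linarith
        linear_combination -q1 - c * q2
      have := (mul_eq_zero.1 this).resolve_left (by
        have : 0 < (1 - c) * (1 + c) := mul_pos (by linarith) (by linarith)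
        exact this.ne')
      linarith
    have ez : z = k * (b + c) := by
      rw [ex, ey] at q2
      obtain rfl : a = 1 - b - c := by linarith
      linear_combination -q2
    have hks : k = 1 := by
      refine scale_eq (a := a) (b := b) (c := c) (x := a + b + 2 * c) (y := a + c) (z := b + c)
        (by linarith) (by linarith) (by linarith) hkp ?_ one_pos ?_
      · rw [← ex, ← ey, ← ez]
        exact h
      · rw [one_mul, one_mul, one_mul]
        exact e3_c habc
    rw [hks, one_mul] at ex ey ez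
    exact ⟨ex, ey, ez⟩

/-- The chart. -/
def psN (t : ℝ) (u : Fin 6 → ℝ) : Fin 6 → ℝ :=
  ![t * u 0, t * u 1, t * u 2, 1 + t * u 3, 1 + t * u 4, 1 + t * u 5]

theorem psN_inj {t : ℝ} (ht : 0 < t) : Function.Injective (psN t) := by
  intro u w h
  have h0 := congrFun h 0
  have h1 := congrFun h 1
  have h2 := congrFun h 2
  have h3 := congrFun h 3
  have h4 := congrFun h 4
  have h5 := congrFun h 5
  have ht' := ht.ne'
  simp [psN, ht'] at h0 h1 h2 h3 h4 h5
  funext i
  fin_cases i
  · exact h0
  · exact h1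
  · exact h2
  · exact h3
  · exact h4
  · exact h5

theorem psN_surj {t : ℝ} (ht : 0 < t) (v : Fin 6 → ℝ) :
    psN t ![v 0 / t, v 1 / t, v 2 / t, (v 3 - 1) / t, (v 4 - 1) / t, (v 5 - 1) / t] = v := by
  have ht' := ht.ne'
  funext i
  fin_cases i <;> simp [psN] <;> field_simp <;> ring

/-- The equations in the chart `psN`. -/
def FN (a b c t : ℝ) (u : Fin 6 → ℝ) : Fin 6 → ℝ :=
  ![(1 + t * u 3) * (1 + t * u 4) * (2 * u 1 * u 2 * (u 0 - 1) +
      c * (u 1 ^ 2 + u 2 ^ 2 - u 0 ^ 2)) - t * (1 - t) * (u 0 ^ 2 - (u 3 - u 4) ^ 2) * u 1 * u 2,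
    (1 + t * u 3) * (1 + t * u 5) * (2 * u 0 * u 2 * (u 1 - 1) +
      b * (u 0 ^ 2 + u 2 ^ 2 - u 1 ^ 2)) - t * (1 - t) * (u 1 ^ 2 - (u 3 - u 5) ^ 2) * u 0 * u 2,
    (1 + t * u 4) * (1 + t * u 5) * (2 * u 0 * u 1 * (u 2 - 1) +
      a * (u 0 ^ 2 + u 1 ^ 2 - u 2 ^ 2)) - t * (1 - t) * (u 2 ^ 2 - (u 4 - u 5) ^ 2) * u 0 * u 1,
    2 * u 0 * u 1 * (1 + t * u 4) * (1 + t * u 5) * u 3 +
      b * (t * u 0 ^ 2 - (u 3 - u 4) * (2 + t * u 3 + t * u 4)) * u 1 * (1 + t * u 5) +
      c * (t * u 1 ^ 2 - (u 3 - u 5) * (2 + t * u 3 + t * u 5)) * u 0 * (1 + t * u 4),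
    2 * u 0 * u 2 * (1 + t * u 3) * (1 + t * u 5) * u 4 +
      a * (t * u 0 ^ 2 + (u 3 - u 4) * (2 + t * u 3 + t * u 4)) * u 2 * (1 + t * u 5) +
      c * (t * u 2 ^ 2 - (u 4 - u 5) * (2 + t * u 4 + t * u 5)) * u 0 * (1 + t * u 3),
    2 * u 1 * u 2 * (1 + t * u 3) * (1 + t * u 4) * u 5 +
      a * (t * u 1 ^ 2 + (u 3 - u 5) * (2 + t * u 3 + t * u 5)) * u 2 * (1 + t * u 4) +
      b * (t * u 2 ^ 2 + (u 4 - u 5) * (2 + t * u 4 + t * u 5)) * u 1 * (1 + t * u 3)]

theorem FN_cd (a b c : ℝ) : ContDiff ℝ 1 (fun z : ℝ × (Fin 6 → ℝ) ↦ FN a b c z.1 z.2) := by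
  unfold FN
  rw [contDiff_pi]
  intro i
  fin_cases i <;> simp <;> fun_prop

theorem FA_psN {a b c t : ℝ} (u : Fin 6 → ℝ) : FA a b c t (psN t u) = t ^ 3 • FN a b c t u := by
  funext i
  fin_cases i <;> simp [FA, FN, psN] <;> ring

theorem sol_iff_FN {a b c t : ℝ} (ht : 0 < t) {u : Fin 6 → ℝ} (p : ∀ i, 0 < psN t u i) :
    Sol a b c t (psN t u) ↔ FN a b c t u = 0 := by
  rw [sol_iff_FA p, FA_psN]
  have : t ^ 3 ≠ 0 := by positivity
  simp [this]

/-- The limit point. -/
noncomputable def zN (a b c : ℝ) : Fin 6 → ℝ :=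
  ![sc a b c * (a + b), sc a b c * (a + c), sc a b c * (b + c), 0, 0, 0]

/-- Uniqueness for the linear system of the heights. -/
theorem height_zero {a b c s x y z : ℝ} (ha : 0 < a) (hb : 0 < b) (hc : 0 < c)
    (hs : s * ((a + b) * (a + c) * (b + c)) = (a + b) * (a + c) * (b + c) + 2 * a * b * c)
    (h1 : s * (a + b) * (a + c) * x = b * (x - y) * (a + c) + c * (x - z) * (a + b))
    (h2 : s * (a + b) * (b + c) * y = a * (y - x) * (b + c) + c * (y - z) * (a + b))
    (h3 : s * (a + c) * (b + c) * z = a * (z - x) * (b + c) + b * (z - y) * (a + c)) :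
    x = 0 ∧ y = 0 ∧ z = 0 := by
  have hab : 0 < a + b := by linarith
  have hac : 0 < a + c := by linarith
  have hbc : 0 < b + c := by linarith
  have k1 : (x - y) * (2 * a * b - (a + b) * (b + c)) - (y - z) * (b - a) * (a + b) = 0 := by
    have : c * ((x - y) * (2 * a * b - (a + b) * (b + c)) - (y - z) * (b - a) * (a + b)) = 0 := by
      linear_combination (b + c) * h1 - (a + c) * h2 - (x - y) * hs
    exact (mul_eq_zero.1 this).resolve_left hc.ne'
  have k2 : (y - z) * (2 * b * c - (a + b) * (b + c)) - (x - y) * (b - c) * (b + c) = 0 := by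
    have : a * ((y - z) * (2 * b * c - (a + b) * (b + c)) - (x - y) * (b - c) * (b + c)) = 0 := by
      linear_combination (a + c) * h2 - (a + b) * h3 - (y - z) * hs
    exact (mul_eq_zero.1 this).resolve_left ha.ne'
  have hxy : x - y = 0 := by
    have : (4 * a * b ^ 2 * c) * (x - y) = 0 := by
      linear_combination (2 * b * c - (a + b) * (b + c)) * k1 + (b - a) * (a + b) * k2
    exact (mul_eq_zero.1 this).resolve_left (by positivity)
  have hyz : y - z = 0 := by
    have : (4 * a * b ^ 2 * c) * (y - z) = 0 := by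
      linear_combination (b - c) * (b + c) * k1 + (2 * a * b - (a + b) * (b + c)) * k2
    exact (mul_eq_zero.1 this).resolve_left (by positivity)
  have hs0 : 0 < s * ((a + b) * (a + c) * (b + c)) := by
    rw [hs]
    positivity
  have hx : x = 0 := by
    have : (s * ((a + b) * (a + c) * (b + c))) * x = 0 := by
      linear_combination (b + c) * h1 + (b + c) * (b * (a + c) + c * (a + b)) * hxy +
        (b + c) * c * (a + b) * hyz
    exact (mul_eq_zero.1 this).resolve_left hs0.ne'
  refine ⟨hx, by linarith, by linarith⟩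

theorem FN_nondeg {a b c : ℝ} (ha : 0 < a) (hb : 0 < b) (hc : 0 < c) (habc : a + b + c = 1)
    (v : Fin 6 → ℝ) (h : HasDerivAt (fun s : ℝ ↦ FN a b c 0 (zN a b c + s • v)) 0 0) : v = 0 := by
  have hab : 0 < a + b := by linarith
  have hac : 0 < a + c := by linarith
  have hbc : 0 < b + c := by linarith
  have hs := sc_eq ha hb hc
  have hs1 := one_lt_sc ha hb hc
  have E := e3_n ha hb hc habc
  unfold zN at h
  set k := sc a b c with hk
  have hk0 : 0 < k := by linarith
  rw [hasDerivAt_pi] at h
  have h0 := (h 0).deriv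
  have h1 := (h 1).deriv
  have h2 := (h 2).deriv
  have h3 := (h 3).deriv
  have h4 := (h 4).deriv
  have h5 := (h 5).deriv
  simp [FN] at h0 h1 h2 h3 h4 h5
  simp (disch := fun_prop) only [deriv_fun_add, deriv_fun_sub, deriv_fun_mul, deriv_fun_pow,
    deriv_const, deriv_id'', deriv.fun_neg] at h0 h1 h2 h3 h4 h5
  obtain ⟨a3, a4, a5⟩ := height_zero (x := v 3) (y := v 4) (z := v 5) ha hb hc hs
    (by
      have : (2 * k) * (k * (a + b) * (a + c) * v 3) = (2 * k) * (b * (v 3 - v 4) * (a + c) +
          c * (v 3 - v 5) * (a + b)) := by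
        linear_combination h3
      exact mul_left_cancel₀ (by positivity) this)
    (by
      have : (2 * k) * (k * (a + b) * (b + c) * v 4) = (2 * k) * (a * (v 4 - v 3) * (b + c) +
          c * (v 4 - v 5) * (a + b)) := by
        linear_combination h4
      exact mul_left_cancel₀ (by positivity) this)
    (by
      have : (2 * k) * (k * (a + c) * (b + c) * v 5) = (2 * k) * (a * (v 5 - v 3) * (b + c) +
          b * (v 5 - v 4) * (a + c)) := by
        linear_combination h5
      exact mul_left_cancel₀ (by positivity) this)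
  -- the logarithmic derivatives
  obtain ⟨w0, hw0⟩ : ∃ w, v 0 = k * (a + b) * w := ⟨v 0 / (k * (a + b)), by field_simp⟩
  obtain ⟨w1, hw1⟩ : ∃ w, v 1 = k * (a + c) * w := ⟨v 1 / (k * (a + c)), by field_simp⟩
  obtain ⟨w2, hw2⟩ : ∃ w, v 2 = k * (b + c) * w := ⟨v 2 / (k * (b + c)), by field_simp⟩
  have E0 := E.e0
  have E1 := E.e1
  have E2 := E.e2
  rw [hw0, hw1, hw2] at h0 h1 h2
  have X0 : 2 * (k * (a + b)) * (k * (a + c)) * (k * (b + c)) * w0 +
      2 * c * ((k * (a + c)) ^ 2 * w1 + (k * (b + c)) ^ 2 * w2 - (k * (a + b)) ^ 2 * w0) -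
      c * ((k * (a + c)) ^ 2 + (k * (b + c)) ^ 2 - (k * (a + b)) ^ 2) * (w1 + w2) = 0 := by
    linear_combination h0 - (w1 + w2) * E0
  have X1 : 2 * (k * (a + b)) * (k * (a + c)) * (k * (b + c)) * w1 +
      2 * b * ((k * (a + b)) ^ 2 * w0 + (k * (b + c)) ^ 2 * w2 - (k * (a + c)) ^ 2 * w1) -
      b * ((k * (a + b)) ^ 2 + (k * (b + c)) ^ 2 - (k * (a + c)) ^ 2) * (w0 + w2) = 0 := by
    linear_combination h1 - (w0 + w2) * E1
  have X2 : 2 * (k * (a + b)) * (k * (a + c)) * (k * (b + c)) * w2 +
      2 * a * ((k * (a + b)) ^ 2 * w0 + (k * (a + c)) ^ 2 * w1 - (k * (b + c)) ^ 2 * w2) -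
      a * ((k * (a + b)) ^ 2 + (k * (a + c)) ^ 2 - (k * (b + c)) ^ 2) * (w0 + w1) = 0 := by
    linear_combination h2 - (w0 + w1) * E2
  have K1 : b * (a + c) * (w1 - w0) - a * (b - c) * (w2 - w0) = 0 := by
    have : (2 * k ^ 2 * (b + c)) * (b * (a + c) * (w1 - w0) - a * (b - c) * (w2 - w0)) = 0 := by
      obtain rfl : c = 1 - a - b := by linarith
      linear_combination X1 - X0 - 2 * k ^ 2 * (w1 - w0) * hs
    exact (mul_eq_zero.1 this).resolve_left (by positivity)
  have K2 : a * (b + c) * (w2 - w0) - b * (a - c) * (w1 - w0) = 0 := by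
    have : (2 * k ^ 2 * (a + c)) * (a * (b + c) * (w2 - w0) - b * (a - c) * (w1 - w0)) = 0 := by
      obtain rfl : c = 1 - a - b := by linarith
      linear_combination X2 - X0 - 2 * k ^ 2 * (w2 - w0) * hs
    exact (mul_eq_zero.1 this).resolve_left (by positivity)
  have al : w1 - w0 = 0 := by
    have : (2 * a * b * c * (a + b)) * (w1 - w0) = 0 := by
      linear_combination a * (b + c) * K1 + a * (b - c) * K2
    exact (mul_eq_zero.1 this).resolve_left (by positivity)
  have be : w2 - w0 = 0 := by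
    have : (2 * a * b * c * (a + b)) * (w2 - w0) = 0 := by
      linear_combination b * (a - c) * K1 + b * (a + c) * K2
    exact (mul_eq_zero.1 this).resolve_left (by positivity)
  have e1 : w1 = w0 := by linarith
  have e2 : w2 = w0 := by linarith
  rw [e1, e2] at X0
  have z0 : w0 = 0 := by
    have : (2 * (k * (a + b)) * (k * (a + c)) * (k * (b + c))) * w0 = 0 := by
      linear_combination X0
    exact (mul_eq_zero.1 this).resolve_left (by positivity)
  funext i
  fin_cases i
  · show v 0 = 0
    rw [hw0, z0, mul_zero]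
  · show v 1 = 0
    rw [hw1, e1, z0, mul_zero]
  · show v 2 = 0
    rw [hw2, e2, z0, mul_zero]
  · exact a3
  · exact a4
  · exact a5

/-- The bounds for the heights. -/
theorem heights {a b c t : ℝ} {u : Fin 6 → ℝ} (ht : 0 < t) (B : Bd a b c t (psN t u)) :
    (-1 ≤ u 3 ∧ u 3 ≤ 1) ∧ (-1 ≤ u 4 ∧ u 4 ≤ 1) ∧ (-1 ≤ u 5 ∧ u 5 ≤ 1) := by
  have l3 := B.l3
  have l4 := B.l4
  have l5 := B.l5
  have u3 := B.u3
  have u4 := B.u4
  have u5 := B.u5
  simp [psN] at l3 l4 l5 u3 u4 u5
  have key : ∀ x : ℝ, 1 - t ≤ 1 + t * x → t * x ≤ t → -1 ≤ x ∧ x ≤ 1 := by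
    intro x h1 h2
    constructor
    · by_contra hcon
      have := mul_lt_mul_of_pos_left (not_le.1 hcon) ht
      linarith
    · by_contra hcon
      have := mul_lt_mul_of_pos_left (not_le.1 hcon) ht
      linarith
  exact ⟨key _ (by linarith) (by linarith), key _ (by linarith) (by linarith),
    key _ (by linarith) (by linarith)⟩

/-- **G_N**: exactly one solution near the solution of the three block problem which is not Kähler. -/
theorem gN (hTI : TI) {a b c : ℝ} (ha : 0 < a) (hb : 0 < b) (hc : 0 < c) (habc : a + b + c = 1)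
    {r : ℝ} (hr : 0 < r) (hr0 : r < (sc a b c - 1) * (a + b)) (hr1 : r < (sc a b c - 1) * (a + c))
    (hr2 : r < (sc a b c - 1) * (b + c)) :
    ∃ ε > 0, ∀ t, 0 < t → t < ε →
      {v : Fin 6 → ℝ | Sol a b c t v ∧ |v 0 / t - sc a b c * (a + b)| < r ∧
        |v 1 / t - sc a b c * (a + c)| < r ∧ |v 2 / t - sc a b c * (b + c)| < r}.ncard = 1 := by
  have hab : 0 < a + b := by linarith
  have hac : 0 < a + c := by linarith
  have hbc : 0 < b + c := by linarith
  have hk1 := one_lt_sc ha hb hc
  have hE := e3_n ha hb hc habc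
  have hsc := sc_eq ha hb hc
  set k := sc a b c with hk
  set P0 := k * (a + b) with hP0
  set P1 := k * (a + c) with hP1
  set P2 := k * (b + c) with hP2
  have r0 : r < P0 - (a + b) := by rw [hP0]; linarith
  have r1 : r < P1 - (a + c) := by rw [hP1]; linarith
  have r2 : r < P2 - (b + c) := by rw [hP2]; linarith
  have hzN : zN a b c = ![P0, P1, P2, 0, 0, 0] := rfl
  have hK : IsCompact (Set.Icc (![P0 - r, P1 - r, P2 - r, -1, -1, -1] : Fin 6 → ℝ)
      ![P0 + r, P1 + r, P2 + r, 1, 1, 1]) := isCompact_Icc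
  suffices hcount : ∃ ε > 0, ∀ t, 0 < t → t < ε →
      {u | Sol a b c t (psN t u) ∧ |psN t u 0 / t - P0| < r ∧ |psN t u 1 / t - P1| < r ∧
        |psN t u 2 / t - P2| < r}.ncard = ({zN a b c} : Finset (Fin 6 → ℝ)).card by
    obtain ⟨ε, hε, hcount⟩ := hcount
    refine ⟨ε, hε, fun t ht0 htε ↦ ?_⟩
    have h1 : {v : Fin 6 → ℝ | Sol a b c t v ∧ |v 0 / t - P0| < r ∧
        |v 1 / t - P1| < r ∧ |v 2 / t - P2| < r} =
        psN t '' {u | Sol a b c t (psN t u) ∧ |psN t u 0 / t - P0| < r ∧
          |psN t u 1 / t - P1| < r ∧ |psN t u 2 / t - P2| < r} := by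
      ext v
      constructor
      · intro hv
        refine ⟨_, ?_, psN_surj ht0 v⟩
        rw [Set.mem_ofPred_eq, psN_surj ht0 v]
        exact hv
      · rintro ⟨u, hu, rfl⟩
        exact hu
    rw [h1, Set.ncard_image_of_injective _ (psN_inj ht0), hcount t ht0 htε, card_singleton]
  refine count_set (FN a b c) (FN_cd a b c) _ hK {zN a b c} ?_ ?_ ?_
    (Set.pi Set.univ fun i ↦ Set.Ioo ((![P0 - r, P1 - r, P2 - r, -2, -2, -2] : Fin 6 → ℝ) i)
      ((![P0 + r, P1 + r, P2 + r, 2, 2, 2] : Fin 6 → ℝ) i)) ?_ _ (1/4) (by norm_num) ?_ ?_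
  · intro u hu h0
    rw [Set.mem_Icc, Pi.le_def, Pi.le_def] at hu
    have l0 := hu.1 0
    have l1 := hu.1 1
    have l2 := hu.1 2
    simp at l0 l1 l2
    have f0 := congrFun h0 0
    have f1 := congrFun h0 1
    have f2 := congrFun h0 2
    have f3 := congrFun h0 3
    have f4 := congrFun h0 4
    have f5 := congrFun h0 5
    simp only [FN] at f0 f1 f2 f3 f4 f5
    simp only [Matrix.cons_val, zero_mul, add_zero, sub_zero, Pi.zero_apply, mul_one,
      one_mul, zero_sub] at f0 f1 f2 f3 f4 f5
    have hu0 : 0 < u 0 := by linarith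
    have hE3 : E3 a b c (u 0) (u 1) (u 2) := ⟨f0, f1, f2⟩
    rcases three ha hb hc habc hu0 hE3 with ⟨q0, q1, q2⟩ | ⟨q0, q1, q2⟩ | ⟨q0, q1, q2⟩ |
      ⟨q0, q1, q2⟩
    · rw [q0, q1, ← hk, ← hP0, ← hP1] at f3
      rw [q0, q2, ← hk, ← hP0, ← hP2] at f4
      rw [q1, q2, ← hk, ← hP1, ← hP2] at f5
      have hkp : 0 < k := by linarith
      obtain ⟨a3, a4, a5⟩ := height_zero (x := u 3) (y := u 4) (z := u 5) ha hb hc hsc
        (by
          have : (2 * k) * (k * (a + b) * (a + c) * u 3) = (2 * k) * (b * (u 3 - u 4) * (a + c) +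
              c * (u 3 - u 5) * (a + b)) := by
            rw [hP0, hP1] at f3
            linear_combination f3
          exact mul_left_cancel₀ (by positivity) this)
        (by
          have : (2 * k) * (k * (a + b) * (b + c) * u 4) = (2 * k) * (a * (u 4 - u 3) * (b + c) +
              c * (u 4 - u 5) * (a + b)) := by
            rw [hP0, hP2] at f4
            linear_combination f4
          exact mul_left_cancel₀ (by positivity) this)
        (by
          have : (2 * k) * (k * (a + c) * (b + c) * u 5) = (2 * k) * (a * (u 5 - u 3) * (b + c) +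
              b * (u 5 - u 4) * (a + c)) := by
            rw [hP1, hP2] at f5
            linear_combination f5
          exact mul_left_cancel₀ (by positivity) this)
      rw [mem_singleton, hzN]
      funext i
      fin_cases i
      · exact q0
      · exact q1
      · exact q2
      · exact a3
      · exact a4
      · exact a5
    · exfalso
      linarith
    · exfalso
      linarith
    · exfalso
      linarith
  · intro z hz
    rw [mem_singleton] at hz
    subst hz
    rw [hzN]
    funext i
    have E0 := hE.e0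
    have E1 := hE.e1
    have E2 := hE.e2
    fin_cases i
    · simp [FN]
      linear_combination E0
    · simp [FN]
      linear_combination E1
    · simp [FN]
      linear_combination E2
    · simp [FN]
    · simp [FN]
    · simp [FN]
  · intro z hz v hv
    rw [mem_singleton] at hz
    subst hz
    exact FN_nondeg ha hb hc habc v hv
  · intro z hz
    rw [mem_singleton] at hz
    subst hz
    rw [hzN]
    refine (isOpen_set_pi Set.finite_univ fun i _ ↦ isOpen_Ioo).mem_nhds ?_
    intro i _
    fin_cases i <;> simp <;> linarith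
  · rintro t ht ht2 u ⟨hu, g0, g1, g2⟩
    have B := bd hTI ha hb hc habc ht (by linarith) hu
    have H := heights ht B
    have ht' := ht.ne'
    simp [psN, ht'] at g0 g1 g2
    rw [abs_lt] at g0 g1 g2
    obtain ⟨⟨x3, y3⟩, ⟨x4, y4⟩, x5, y5⟩ := H
    refine ⟨⟨?_, ?_⟩, (sol_iff_FN ht hu.pos).1 hu⟩
    · intro i
      fin_cases i <;> simp <;> linarith
    · intro i
      fin_cases i <;> simp <;> linarith
  · intro t ht ht2 u hu h0
    obtain ⟨l0, m0⟩ := hu 0 trivial
    obtain ⟨l1, m1⟩ := hu 1 trivial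
    obtain ⟨l2, m2⟩ := hu 2 trivial
    obtain ⟨l3, m3⟩ := hu 3 trivial
    obtain ⟨l4, m4⟩ := hu 4 trivial
    obtain ⟨l5, m5⟩ := hu 5 trivial
    simp at l0 l1 l2 l3 l4 l5 m0 m1 m2 m3 m4 m5
    have ht' := ht.ne'
    refine ⟨(sol_iff_FN ht ?_).2 h0, ?_, ?_, ?_⟩
    · intro i
      fin_cases i
      · exact mul_pos ht (by linarith)
      · exact mul_pos ht (by linarith)
      · exact mul_pos ht (by linarith)
      · show 0 < 1 + t * u 3
        nlinarith
      · show 0 < 1 + t * u 4
        nlinarith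
      · show 0 < 1 + t * u 5
        nlinarith
    · simp [psN, ht']
      rw [abs_lt]
      constructor <;> linarith
    · simp [psN, ht']
      rw [abs_lt]
      constructor <;> linarith
    · simp [psN, ht']
      rw [abs_lt]
      constructor <;> linarith

end Pool.Agent.Helper83.EIN
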