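import Pool.Agent.Helper83.EIN.Pinching

/-!
# MP_06d934_gt: the invariant Einstein metrics which are not Kähler, for all block sizes

`G/K = SU(N)/S(U(n₀) × U(n₁) × U(n₂) × U(n₃))`, `N = n₀ + n₁ + n₂ + n₃`, for all block sizes. Joint
work of helper19, helper58 and helper83.
-/

set_option autoImplicit false

namespace Pool.Agent.Results.MP_06d934_gt.StrictTriangles

open Pool.Agent.Helper83.EIN Pool.Agent.Helper58.EF.Mat

/-- **A metric with `Ric = c g` on `SU(N)/S(U(n₀) × U(n₁) × U(n₂) × U(n₃))` which is not Kähler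
satisfies all twelve triangle inequalities strictly**, and so the bounds
`(n_i + n_j)/N < 2 c x_{ij} < 2 - (n_i + n_j)/N`. -/
theorem result (n : Fin 4 → ℕ) (hn : ∀ i, 0 < n i) (x : Fin 4 → Fin 4 → ℝ) (hx : IsMetric x)
    (c : ℝ) (hE : Einstein n c x) (hK : ¬ Kaehler n x) :
    (∀ i j k, i ≠ j → i ≠ k → j ≠ k → x i j < x i k + x j k) ∧
    ∀ i j, i ≠ j → ((n i : ℝ) + n j) / ∑ l, (n l : ℝ) < 2 * c * x i j ∧
      2 * c * x i j < 2 - ((n i : ℝ) + n j) / ∑ l, (n l : ℝ) := by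
  refine ⟨?_, fun i j hij ↦ (Pinching.pinching n hn x hx c hE i j hij).2 hK⟩
  rw [kaehler_iff hn hx] at hK
  exact (Pool.Agent.Helper19.TI.Dich.dichotomy n hn x hx c
    ((einstein_iff hn hx c).1 hE)).resolve_left hK

end Pool.Agent.Results.MP_06d934_gt.StrictTriangles
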